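import Mathlib
import Pool.Agent.H619R3.ZeroCount

/-!
# Real combinations of logarithmic derivatives of entire functions
-/

set_option autoImplicit false

namespace Pool.Agent.N210.FV

open Filter Topology Complex

/-- Local form of a combination of logarithmic derivatives. -/
theorem local_one {g : ℂ → ℂ} (hg : Differentiable ℂ g) (hne : ∃ s, g s ≠ 0) (z : ℂ) :
    ∃ (n : ℕ) (φ : ℂ → ℂ), AnalyticAt ℂ φ z ∧ (g z ≠ 0 → n = 0) ∧
      ∀ᶠ u in 𝓝[≠] z, g u ≠ 0 ∧ logDeriv g u = n * (u - z)⁻¹ + φ u := by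
  obtain ⟨n, h, hh, hz, hfac⟩ := Pool.Agent.H619R3.sf_single g hg hne z
  refine ⟨n, logDeriv h, ?_, ?_, ?_⟩
  · have h1 : AnalyticAt ℂ h z := hh.analyticAt z
    exact h1.deriv.div h1 hz
  · intro hgz
    by_contra hn
    apply hgz
    rw [hfac z, sub_self, zero_pow hn, zero_mul]
  · have h1 : ∀ᶠ u in 𝓝 z, h u ≠ 0 := hh.continuous.continuousAt.eventually_ne hz
    filter_upwards [eventually_nhdsWithin_of_eventually_nhds h1, self_mem_nhdsWithin] with u hu hu2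
    have hu3 : u - z ≠ 0 := sub_ne_zero.2 hu2
    refine ⟨by rw [hfac u]; exact mul_ne_zero (pow_ne_zero _ hu3) hu, ?_⟩
    have h2 : g = fun u => (u - z) ^ n * h u := funext hfac
    rw [h2, logDeriv_mul (f := fun u => (u - z) ^ n) (g := h) u (pow_ne_zero _ hu3) hu
      (by fun_prop) (hh u)]
    congr 1
    rw [logDeriv_apply]
    have h3 : deriv (fun u : ℂ => (u - z) ^ n) u = n * (u - z) ^ (n - 1) := by
      have h4 : HasDerivAt (fun u : ℂ => u - z) 1 u := (hasDerivAt_id u).sub_const z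
      have h5 := h4.pow n
      rw [mul_one] at h5
      exact h5.deriv
    rw [h3]
    rcases Nat.eq_zero_or_pos n with h0 | h0
    · simp [h0]
    · have h6 : (u - z) ^ n = (u - z) ^ (n - 1) * (u - z) := by
        rw [← pow_succ, Nat.sub_add_cancel h0]
      rw [h6]
      field_simp

section

variable {I : Type*} [Fintype I] (w : I → ℝ) (g : I → ℂ → ℂ)

/-- the combination -/
noncomputable def A0 (s : ℂ) : ℂ := ∑ i, (w i : ℂ) * logDeriv (g i) s

/-- the order of the zero of `g` at `z` -/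
noncomputable def mo (g : ℂ → ℂ) (z : ℂ) : ℕ :=
  open Classical in
  if h : ∃ n : ℕ, ∃ φ : ℂ → ℂ, AnalyticAt ℂ φ z ∧ (g z ≠ 0 → n = 0) ∧
      ∀ᶠ u in 𝓝[≠] z, g u ≠ 0 ∧ logDeriv g u = n * (u - z)⁻¹ + φ u then h.choose else 0

/-- the residue of the combination -/
noncomputable def mm (z : ℂ) : ℝ := ∑ i, w i * mo (g i) z

/-- the combination with its removable singularities removed, and its finite part at the poles -/
noncomputable def AA (z : ℂ) : ℂ :=
  limUnder (𝓝[≠] z) fun u => A0 w g u - (mm w g z : ℂ) * (u - z)⁻¹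

variable {w g}

theorem mo_spec {g : ℂ → ℂ} (hg : Differentiable ℂ g) (hne : ∃ s, g s ≠ 0) (z : ℂ) :
    ∃ φ : ℂ → ℂ, AnalyticAt ℂ φ z ∧ (g z ≠ 0 → mo g z = 0) ∧
      ∀ᶠ u in 𝓝[≠] z, g u ≠ 0 ∧ logDeriv g u = mo g z * (u - z)⁻¹ + φ u := by
  have h := local_one hg hne z
  unfold mo
  rw [dif_pos h]
  exact h.choose_spec

theorem loc (hg : ∀ i, Differentiable ℂ (g i)) (hne : ∀ i, ∃ s, g i s ≠ 0) (z : ℂ) :
    ∃ φ : ℂ → ℂ, AnalyticAt ℂ φ z ∧ ((∀ i, g i z ≠ 0) → mm w g z = 0) ∧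
      ∀ᶠ u in 𝓝[≠] z, (∀ i, g i u ≠ 0) ∧ A0 w g u = (mm w g z : ℂ) * (u - z)⁻¹ + φ u := by
  choose φ h1 h2 h3 using fun i => mo_spec (hg i) (hne i) z
  refine ⟨fun u => ∑ i, (w i : ℂ) * φ i u, ?_, ?_, ?_⟩
  · exact Finset.analyticAt_fun_sum _ fun i _ => analyticAt_const.mul (h1 i)
  · intro h
    unfold mm
    exact Finset.sum_eq_zero fun i _ => by rw [h2 i (h i), Nat.cast_zero, mul_zero]
  · filter_upwards [eventually_all.2 h3] with u hu
    refine ⟨fun i => (hu i).1, ?_⟩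
    unfold A0 mm
    push_cast
    rw [Finset.sum_mul, ← Finset.sum_add_distrib]
    refine Finset.sum_congr rfl fun i _ => ?_
    rw [(hu i).2]
    ring

theorem AA_tendsto (hg : ∀ i, Differentiable ℂ (g i)) (hne : ∀ i, ∃ s, g i s ≠ 0) (z : ℂ) :
    Tendsto (fun u => A0 w g u - (mm w g z : ℂ) * (u - z)⁻¹) (𝓝[≠] z) (𝓝 (AA w g z)) := by
  obtain ⟨φ, h1, -, h2⟩ := loc (w := w) hg hne z
  have h3 : Tendsto (fun u => A0 w g u - (mm w g z : ℂ) * (u - z)⁻¹) (𝓝[≠] z) (𝓝 (φ z)) := by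
    refine (h1.continuousAt.tendsto.mono_left nhdsWithin_le_nhds).congr' ?_
    filter_upwards [h2] with u hu
    rw [hu.2]
    ring
  have h4 : AA w g z = φ z := h3.limUnder_eq
  rw [h4]
  exact h3

/-- off the zeros the two functions agree -/
theorem AA_eq (hg : ∀ i, Differentiable ℂ (g i)) (hne : ∀ i, ∃ s, g i s ≠ 0) {z : ℂ}
    (hz : ∀ i, g i z ≠ 0) : AA w g z = A0 w g z := by
  have h1 := AA_tendsto (w := w) hg hne z
  obtain ⟨-, -, h2, -⟩ := loc (w := w) hg hne z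
  rw [h2 hz] at h1
  have h3 : ContinuousAt (A0 w g) z := by
    unfold A0
    refine tendsto_finsetSum _ fun i _ => ?_
    refine tendsto_const_nhds.mul ?_
    have h4 : AnalyticAt ℂ (g i) z := (hg i).analyticAt z
    exact (h4.deriv.div h4 (hz i)).continuousAt
  have h5 : Tendsto (fun u => A0 w g u - ((0 : ℝ) : ℂ) * (u - z)⁻¹) (𝓝[≠] z) (𝓝 (A0 w g z)) := by
    simp only [ofReal_zero, zero_mul, sub_zero]
    exact h3.tendsto.mono_left nhdsWithin_le_nhds
  exact tendsto_nhds_unique h1 h5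

/-- local form of the regularised function -/
theorem AA_loc (hg : ∀ i, Differentiable ℂ (g i)) (hne : ∀ i, ∃ s, g i s ≠ 0) (z : ℂ) :
    ∃ φ : ℂ → ℂ, AnalyticAt ℂ φ z ∧ AA w g z = φ z ∧
      ∀ᶠ u in 𝓝[≠] z, AA w g u = (mm w g z : ℂ) * (u - z)⁻¹ + φ u := by
  obtain ⟨φ, h1, -, h2⟩ := loc (w := w) hg hne z
  refine ⟨φ, h1, ?_, ?_⟩
  · have h3 : Tendsto (fun u => A0 w g u - (mm w g z : ℂ) * (u - z)⁻¹) (𝓝[≠] z) (𝓝 (φ z)) := by
      refine (h1.continuousAt.tendsto.mono_left nhdsWithin_le_nhds).congr' ?_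
      filter_upwards [h2] with u hu
      rw [hu.2]
      ring
    exact h3.limUnder_eq
  · filter_upwards [h2] with u hu
    rw [AA_eq hg hne hu.1, hu.2]

theorem AA_diff (hg : ∀ i, Differentiable ℂ (g i)) (hne : ∀ i, ∃ s, g i s ≠ 0) {z : ℂ}
    (hz : mm w g z = 0) : DifferentiableAt ℂ (AA w g) z := by
  obtain ⟨φ, h1, h2, h3⟩ := AA_loc (w := w) hg hne z
  refine h1.differentiableAt.congr_of_eventuallyEq ?_
  rw [eventually_nhdsWithin_iff] at h3
  filter_upwards [h3] with u hu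
  by_cases hu1 : u = z
  · rw [hu1, h2]
  · rw [hu hu1, hz]
    simp

theorem AA_pole (hg : ∀ i, Differentiable ℂ (g i)) (hne : ∀ i, ∃ s, g i s ≠ 0) (z : ℂ) :
    Tendsto (fun u => AA w g u - (mm w g z : ℂ) * (u - z)⁻¹) (𝓝[≠] z) (𝓝 (AA w g z)) := by
  obtain ⟨φ, h1, h2, h3⟩ := AA_loc (w := w) hg hne z
  rw [h2]
  refine (h1.continuousAt.tendsto.mono_left nhdsWithin_le_nhds).congr' ?_
  filter_upwards [h3] with u hu
  rw [hu]
  ring

/-- if the combination agrees near `z` with a continuous function there is no pole -/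
theorem AA_of_eq (hg : ∀ i, Differentiable ℂ (g i)) (hne : ∀ i, ∃ s, g i s ≠ 0) {z : ℂ}
    {B : ℂ → ℂ} (hB : ContinuousAt B z)
    (h : ∀ᶠ u in 𝓝[≠] z, (∀ i, g i u ≠ 0) → A0 w g u = B u) : mm w g z = 0 ∧ AA w g z = B z := by
  obtain ⟨φ, h1, h2, h3⟩ := loc (w := w) hg hne z
  have h4 : ∀ᶠ u in 𝓝[≠] z, (mm w g z : ℂ) = (u - z) * (B u - φ u) := by
    filter_upwards [h, h3, self_mem_nhdsWithin] with u hu hu2 hu3
    have hu4 : u - z ≠ 0 := sub_ne_zero.2 hu3
    rw [← hu hu2.1, hu2.2]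
    field_simp
    ring
  have h5 : Tendsto (fun u => (u - z) * (B u - φ u)) (𝓝[≠] z) (𝓝 ((z - z) * (B z - φ z))) := by
    have h6 : ContinuousAt (fun u => (u - z) * (B u - φ u)) z :=
      (continuousAt_id.sub continuousAt_const).mul (hB.sub h1.continuousAt)
    exact h6.tendsto.mono_left nhdsWithin_le_nhds
  rw [sub_self, zero_mul] at h5
  have h6 : (mm w g z : ℂ) = 0 := by
    refine tendsto_nhds_unique ?_ h5
    exact tendsto_const_nhds.congr' h4
  have h7 : mm w g z = 0 := by exact_mod_cast h6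
  refine ⟨h7, ?_⟩
  have h8 := AA_tendsto (w := w) hg hne z
  rw [h7] at h8
  refine tendsto_nhds_unique h8 ?_
  refine (hB.tendsto.mono_left nhdsWithin_le_nhds).congr' ?_
  filter_upwards [h, h3] with u hu hu2
  rw [← hu hu2.1]
  simp

end

end Pool.Agent.N210.FV
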