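import Pool.Agent.N210.FV.Pw
import Pool.Agent.N210.FV.Lg

/-!
# The residues on the line `Re s = 1/2` are square summable
-/

set_option autoImplicit false

namespace Pool.Agent.N210.FV

open Filter Topology Complex
open scoped ArithmeticFunction.vonMangoldt ComplexConjugate

/-- the trigonometric polynomial -/
noncomputable def bb (m : ℂ → ℝ) (Z : Finset ℂ) (n : ℕ) : ℂ :=
  ∑ z ∈ Z, (m z : ℂ) * exp (-((2 * z.im * Real.log n : ℝ) : ℂ) * I)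

variable {m : ℂ → ℝ} {Z : Finset ℂ}

theorem exp_conj' (x : ℝ) : conj (exp (-(x : ℂ) * I)) = exp ((x : ℂ) * I) := by
  rw [← exp_conj]
  congr 1
  simp

theorem bb_sq (n : ℕ) :
    ((‖bb m Z n‖ ^ 2 : ℝ) : ℂ) = ∑ z ∈ Z, ∑ z' ∈ Z, ((m z * m z' : ℝ) : ℂ) *
      exp (-((2 * (z.im - z'.im) * Real.log n : ℝ) : ℂ) * I) := by
  push_cast
  rw [← Complex.mul_conj']
  unfold bb
  rw [map_sum, Finset.sum_mul_sum]
  refine Finset.sum_congr rfl fun z _ => Finset.sum_congr rfl fun z' _ => ?_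
  rw [map_mul, conj_ofReal, exp_conj', mul_mul_mul_comm, ← exp_add]
  push_cast
  congr 2
  ring

theorem term_eq (n : ℕ) (x u : ℝ) (hx : x ≠ 0) :
    LSeries.term (fun n => (Λ n : ℂ)) ((x : ℂ) + u * I) n =
      ((Λ n * (n : ℝ) ^ (-x) : ℝ) : ℂ) * exp (-((u * Real.log n : ℝ) : ℂ) * I) := by
  rw [LSeries.term_def]
  split_ifs with h
  · simp [h]
  · have hn : (n : ℂ) ≠ 0 := by exact_mod_cast h
    have hn0 : (0 : ℝ) < n := by exact_mod_cast Nat.pos_of_ne_zero h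
    have h1 : ((n : ℂ) ^ ((x : ℂ) + u * I))⁻¹ = (((n : ℝ) ^ (-x) : ℝ) : ℂ) *
        exp (-((u * Real.log n : ℝ) : ℂ) * I) := by
      rw [← cpow_neg, neg_add, cpow_add _ _ hn, ofReal_cpow hn0.le]
      congr 1
      · push_cast
        rfl
      · rw [cpow_def_of_ne_zero hn, ← ofReal_natCast, ← ofReal_log hn0.le]
        congr 1
        push_cast
        ring
    rw [div_eq_mul_inv, h1]
    push_cast
    ring

theorem summ_term {x : ℝ} (hx : 1 < x) (u : ℝ) :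
    Summable fun n : ℕ => ((Λ n * (n : ℝ) ^ (-x) : ℝ) : ℂ) *
      exp (-((u * Real.log n : ℝ) : ℂ) * I) := by
  have h1 := ArithmeticFunction.LSeriesSummable_vonMangoldt (s := (x : ℂ) + u * I) (by simpa using hx)
  refine h1.congr fun n => ?_
  exact term_eq n x u (by linarith)

theorem VL_tsum {x : ℝ} (hx : 1 < x) (u : ℝ) : VL ((x : ℂ) + u * I) =
    ∑' n : ℕ, ((Λ n * (n : ℝ) ^ (-x) : ℝ) : ℂ) * exp (-((u * Real.log n : ℝ) : ℂ) * I) := by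
  unfold VL LSeries
  exact tsum_congr fun n => term_eq n x u (by linarith)

theorem Q_term (B : ℝ) (x : ℝ) (n : ℕ) :
    ((Λ n * (n : ℝ) ^ (-x) * (B + ‖bb m Z n‖ ^ 2) : ℝ) : ℂ) =
      (B : ℂ) * (((Λ n * (n : ℝ) ^ (-x) : ℝ) : ℂ) * exp (-(((0 : ℝ) * Real.log n : ℝ) : ℂ) * I)) +
      ∑ z ∈ Z, ∑ z' ∈ Z, ((m z * m z' : ℝ) : ℂ) * (((Λ n * (n : ℝ) ^ (-x) : ℝ) : ℂ) *
        exp (-((2 * (z.im - z'.im) * Real.log n : ℝ) : ℂ) * I)) := by
  have h := bb_sq (m := m) (Z := Z) n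
  rw [mul_add, ofReal_add, ofReal_mul _ (‖bb m Z n‖ ^ 2), h]
  congr 1
  · simp
    ring
  · rw [Finset.mul_sum]
    refine Finset.sum_congr rfl fun z _ => ?_
    rw [Finset.mul_sum]
    refine Finset.sum_congr rfl fun z' _ => ?_
    ring

theorem Q_summ (B : ℝ) {x : ℝ} (hx : 1 < x) :
    Summable fun n : ℕ => Λ n * (n : ℝ) ^ (-x) * (B + ‖bb m Z n‖ ^ 2) := by
  rw [← Complex.summable_ofReal]
  simp_rw [Q_term]
  refine ((summ_term hx 0).mul_left _).add ?_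
  refine summable_sum fun z _ => summable_sum fun z' _ => ?_
  exact (summ_term hx _).mul_left _

theorem Q_eq (B : ℝ) {x : ℝ} (hx : 1 < x) :
    ((∑' n : ℕ, Λ n * (n : ℝ) ^ (-x) * (B + ‖bb m Z n‖ ^ 2) : ℝ) : ℂ) =
      (B : ℂ) * VL ((x : ℂ) + (0 : ℝ) * I) + ∑ z ∈ Z, ∑ z' ∈ Z, ((m z * m z' : ℝ) : ℂ) *
        VL ((x : ℂ) + (2 * (z.im - z'.im) : ℝ) * I) := by
  rw [ofReal_tsum]
  simp_rw [Q_term]
  have h1 : ∀ u : ℝ, Summable fun n : ℕ => ((Λ n * (n : ℝ) ^ (-x) : ℝ) : ℂ) *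
      exp (-((u * Real.log n : ℝ) : ℂ) * I) := summ_term hx
  rw [Summable.tsum_add ((h1 0).mul_left _) (summable_sum fun z _ => summable_sum fun z' _ =>
    (h1 _).mul_left _), tsum_mul_left, VL_tsum hx]
  congr 1
  rw [Summable.tsum_finsetSum (fun z _ => summable_sum fun z' _ => (h1 _).mul_left _)]
  refine Finset.sum_congr rfl fun z _ => ?_
  rw [Summable.tsum_finsetSum (fun z' _ => (h1 _).mul_left _)]
  refine Finset.sum_congr rfl fun z' _ => ?_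
  rw [tsum_mul_left, VL_tsum hx]

theorem Q_lim (B : ℝ) (hZ : ∀ z ∈ Z, z.re = 1 / 2) :
    Tendsto (fun δ : ℝ => δ * ∑' n : ℕ, Λ n * (n : ℝ) ^ (-(1 + 2 * δ)) * (B + ‖bb m Z n‖ ^ 2))
      (𝓝[>] 0) (𝓝 (B / 2 + (∑ z ∈ Z, (m z) ^ 2) / 2)) := by
  have h1 : Tendsto (fun δ : ℝ => (B : ℂ) * ((δ : ℂ) * VL (1 + 2 * δ + (0 : ℝ) * I)) +
      ∑ z ∈ Z, ∑ z' ∈ Z, ((m z * m z' : ℝ) : ℂ) * ((δ : ℂ) * VL (1 + 2 * δ +
        (2 * (z.im - z'.im) : ℝ) * I))) (𝓝[>] 0) (𝓝 ((B : ℂ) * (if (0 : ℝ) = 0 then 1 / 2 else 0) +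
        ∑ z ∈ Z, ∑ z' ∈ Z, ((m z * m z' : ℝ) : ℂ) *
          (if 2 * (z.im - z'.im) = 0 then 1 / 2 else 0))) := by
    refine ((VL_lim 0).const_mul _).add ?_
    refine tendsto_finsetSum _ fun z _ => tendsto_finsetSum _ fun z' _ => ?_
    exact (VL_lim _).const_mul _
  have h2 : (B : ℂ) * (if (0 : ℝ) = 0 then 1 / 2 else 0) +
        ∑ z ∈ Z, ∑ z' ∈ Z, ((m z * m z' : ℝ) : ℂ) *
          (if 2 * (z.im - z'.im) = 0 then 1 / 2 else 0) =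
      ((B / 2 + (∑ z ∈ Z, (m z) ^ 2) / 2 : ℝ) : ℂ) := by
    have h3 : ∀ z ∈ Z, ∑ z' ∈ Z, ((m z * m z' : ℝ) : ℂ) *
        (if 2 * (z.im - z'.im) = 0 then (1 / 2 : ℂ) else 0) = ((m z) ^ 2 / 2 : ℝ) := by
      intro z hz
      rw [Finset.sum_eq_single z]
      · rw [if_pos (by ring)]
        push_cast
        ring
      · intro z' hz' hne
        rw [if_neg, mul_zero]
        intro h4
        apply hne
        apply Complex.ext
        · rw [hZ z hz, hZ z' hz']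
        · linarith
      · intro h4
        exact absurd hz h4
    rw [Finset.sum_congr rfl h3, if_pos rfl, ← ofReal_sum, ← Finset.sum_div]
    push_cast
    ring
  rw [h2] at h1
  have h3 := (continuous_re.tendsto _).comp h1
  rw [ofReal_re] at h3
  refine h3.congr' ?_
  filter_upwards [self_mem_nhdsWithin] with δ hδ
  have hδ : (0 : ℝ) < δ := hδ
  have hx : (1 : ℝ) < 1 + 2 * δ := by linarith
  simp only [Function.comp_apply]
  rw [← ofReal_re (δ * ∑' n : ℕ, Λ n * (n : ℝ) ^ (-(1 + 2 * δ)) * (B + ‖bb m Z n‖ ^ 2)),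
    ofReal_mul, Q_eq B hx]
  congr 1
  push_cast
  rw [mul_add, Finset.mul_sum]
  congr 1
  · ring
  · refine Finset.sum_congr rfl fun z _ => ?_
    rw [Finset.mul_sum]
    refine Finset.sum_congr rfl fun z' _ => ?_
    ring

/-- the sum over the primes -/
noncomputable def D2 (S : Finset ℕ) (F : ℕ → ℕ → ℂ) (s : ℂ) : ℂ :=
  ∑' p : PS S, F p 2 * (Real.log (p : ℕ) : ℝ) * exp (-((2 * Real.log (p : ℕ) : ℝ) : ℂ) * s)

variable {S : Finset ℕ} {F : ℕ → ℕ → ℂ} {M ρ : ℝ}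

theorem exp_z {z : ℂ} (hz : z.re = 1 / 2) (p : PS S) (δ : ℝ) :
    exp (-((2 * Real.log (p : ℕ) : ℝ) : ℂ) * (z + δ)) = ((((p : ℕ) : ℝ) ^ (-(1 + 2 * δ)) : ℝ) : ℂ) *
      exp (-((2 * z.im * Real.log (p : ℕ) : ℝ) : ℂ) * I) := by
  rw [Real.rpow_def_of_pos p.pos, ofReal_exp, ← exp_add]
  congr 1
  conv_lhs => rw [← re_add_im z, hz]
  push_cast
  ring

theorem D2_term {z : ℂ} (hz : z.re = 1 / 2) (p : PS S) (δ : ℝ) :
    F p 2 * (Real.log (p : ℕ) : ℝ) * exp (-((2 * Real.log (p : ℕ) : ℝ) : ℂ) * (z + δ)) =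
      F p 2 * ((Λ (p : ℕ) * ((p : ℕ) : ℝ) ^ (-(1 + 2 * δ)) : ℝ) : ℂ) *
        exp (-((2 * z.im * Real.log (p : ℕ) : ℝ) : ℂ) * I) := by
  rw [exp_z hz, PS.lam]
  push_cast
  ring

theorem Bnd.two (h : Bnd S F M ρ) (p : PS S) : ‖F p 2‖ ≤ M * ρ ^ 2 := h.bd p 2

theorem Bnd.D2_summ (h : Bnd S F M ρ) {z : ℂ} (hz : z.re = 1 / 2) {δ : ℝ} (hδ : 0 < δ) :
    Summable fun p : PS S => F p 2 * (Real.log (p : ℕ) : ℝ) *
      exp (-((2 * Real.log (p : ℕ) : ℝ) : ℂ) * (z + δ)) := by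
  refine Summable.of_norm_bounded (g := fun p : PS S => M * ρ ^ 2 *
    (Λ (p : ℕ) * ((p : ℕ) : ℝ) ^ (-(1 + 2 * δ)))) ((summ_P (by linarith)).mul_left _) fun p => ?_
  rw [D2_term hz, norm_mul, norm_mul, Complex.norm_real, Real.norm_of_nonneg]
  · have e : ‖exp (-((2 * z.im * Real.log (p : ℕ) : ℝ) : ℂ) * I)‖ = 1 := by
      rw [← ofReal_neg, Complex.norm_exp_ofReal_mul_I]
    rw [e, mul_one]
    have h1 := h.two p
    have h2 : 0 ≤ Λ (p : ℕ) * ((p : ℕ) : ℝ) ^ (-(1 + 2 * δ)) :=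
      mul_nonneg ArithmeticFunction.vonMangoldt_nonneg (Real.rpow_nonneg p.pos.le _)
    gcongr
  · exact mul_nonneg ArithmeticFunction.vonMangoldt_nonneg (Real.rpow_nonneg p.pos.le _)

theorem Bnd.dual (h : Bnd S F M ρ) (hZ : ∀ z ∈ Z, z.re = 1 / 2) {δ : ℝ} (hδ : 0 < δ) :
    ‖∑ z ∈ Z, (m z : ℂ) * D2 S F (z + δ)‖ ≤
      ∑' n : ℕ, Λ n * (n : ℝ) ^ (-(1 + 2 * δ)) * ((M * ρ ^ 2) ^ 2 / 4 + ‖bb m Z n‖ ^ 2) := by
  have hx : (1 : ℝ) < 1 + 2 * δ := by linarith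
  have e1 : ∑ z ∈ Z, (m z : ℂ) * D2 S F (z + δ) = ∑' p : PS S, F p 2 *
      ((Λ (p : ℕ) * ((p : ℕ) : ℝ) ^ (-(1 + 2 * δ)) : ℝ) : ℂ) * bb m Z (p : ℕ) := by
    have h1 : ∀ z ∈ Z, (m z : ℂ) * D2 S F (z + δ) = ∑' p : PS S, (m z : ℂ) *
        (F p 2 * (Real.log (p : ℕ) : ℝ) * exp (-((2 * Real.log (p : ℕ) : ℝ) : ℂ) * (z + δ))) :=
      fun z _ => tsum_mul_left.symm
    rw [Finset.sum_congr rfl h1, ← Summable.tsum_finsetSum]
    · refine tsum_congr fun p => ?_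
      unfold bb
      rw [Finset.mul_sum]
      refine Finset.sum_congr rfl fun z hz => ?_
      rw [D2_term (hZ z hz)]
      ring
    · intro z hz
      exact (h.D2_summ (hZ z hz) hδ).mul_left _
  rw [e1]
  have hQ := Q_summ (m := m) (Z := Z) ((M * ρ ^ 2) ^ 2 / 4) hx
  have hQP : Summable fun p : PS S => Λ (p : ℕ) * ((p : ℕ) : ℝ) ^ (-(1 + 2 * δ)) *
      ((M * ρ ^ 2) ^ 2 / 4 + ‖bb m Z (p : ℕ)‖ ^ 2) := hQ.comp_injective Subtype.val_injective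
  refine (tsum_of_norm_bounded hQP.hasSum fun p => ?_).trans ?_
  · rw [norm_mul, norm_mul, Complex.norm_real, Real.norm_of_nonneg]
    · have h1 := h.two p
      have h2 : 0 ≤ Λ (p : ℕ) * ((p : ℕ) : ℝ) ^ (-(1 + 2 * δ)) :=
        mul_nonneg ArithmeticFunction.vonMangoldt_nonneg (Real.rpow_nonneg p.pos.le _)
      have h3 : ‖F p 2‖ * ‖bb m Z (p : ℕ)‖ ≤ (M * ρ ^ 2) ^ 2 / 4 + ‖bb m Z (p : ℕ)‖ ^ 2 := by
        have h4 := norm_nonneg (bb m Z (p : ℕ))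
        have h5 := norm_nonneg (F p 2)
        nlinarith [sq_nonneg (M * ρ ^ 2 / 2 - ‖bb m Z (p : ℕ)‖),
          mul_le_mul_of_nonneg_right h1 h4]
      calc ‖F p 2‖ * (Λ (p : ℕ) * ((p : ℕ) : ℝ) ^ (-(1 + 2 * δ))) * ‖bb m Z (p : ℕ)‖ =
          (Λ (p : ℕ) * ((p : ℕ) : ℝ) ^ (-(1 + 2 * δ))) * (‖F p 2‖ * ‖bb m Z (p : ℕ)‖) := by ring
        _ ≤ _ := by gcongr
    · exact mul_nonneg ArithmeticFunction.vonMangoldt_nonneg (Real.rpow_nonneg p.pos.le _)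
  · refine Summable.tsum_le_tsum_of_inj (fun p : PS S => (p : ℕ)) Subtype.val_injective
      (fun n _ => ?_) (fun p => le_rfl) hQP hQ
    have h1 : 0 ≤ (M * ρ ^ 2) ^ 2 / 4 := by positivity
    have h2 : 0 ≤ ‖bb m Z n‖ ^ 2 := by positivity
    exact mul_nonneg (mul_nonneg ArithmeticFunction.vonMangoldt_nonneg
      (Real.rpow_nonneg (Nat.cast_nonneg n) _)) (add_nonneg h1 h2)

variable {J : Type*} [Fintype J] {w : J → ℝ} {g : J → ℂ → ℂ}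

theorem Bnd.D2_lim (h : Bnd S F M ρ) (hg : ∀ i, Differentiable ℂ (g i))
    (hne : ∀ i, ∃ s, g i s ≠ 0)
    (hr : ∀ s : ℂ, 1 / 2 < s.re → AA w g s = -Ds (aa S 2 F) (oo S 2) s) {z : ℂ}
    (hz : z.re = 1 / 2) :
    Tendsto (fun δ : ℝ => (δ : ℂ) * D2 S F (z + δ)) (𝓝[>] 0) (𝓝 (-(mm w g z : ℂ))) := by
  obtain ⟨CV, hCV0, hCV⟩ := V_bound
  have h0 : Tendsto (fun δ : ℝ => (δ : ℂ)) (𝓝[>] 0) (𝓝 0) := by
    have := (continuous_ofReal.tendsto (0 : ℝ))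
    rw [ofReal_zero] at this
    exact this.mono_left nhdsWithin_le_nhds
  have h1 : Tendsto (fun δ : ℝ => z + (δ : ℂ)) (𝓝[>] 0) (𝓝[≠] z) := by
    rw [tendsto_nhdsWithin_iff]
    constructor
    · simpa using h0.const_add z
    · filter_upwards [self_mem_nhdsWithin] with δ hδ
      have hδ : (0 : ℝ) < δ := hδ
      simp [hδ.ne']
  have h2 := (AA_pole (w := w) hg hne z).comp h1
  have h3 := h0.mul h2
  rw [zero_mul] at h3
  -- the rest of the series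
  have h4 : Tendsto (fun δ : ℝ => (δ : ℂ) * Ds (aa S 3 F) (oo S 3) (z + δ)) (𝓝[>] 0) (𝓝 0) := by
    have hK : ∀ᶠ δ : ℝ in 𝓝[>] 0, ‖(δ : ℂ) * Ds (aa S 3 F) (oo S 3) (z + δ)‖ ≤
        ‖(δ : ℂ)‖ * (2 * (M * ρ ^ 3) * (CV / (1 / 2))) := by
      have h5 : ∀ᶠ δ : ℝ in 𝓝[>] 0, δ < 1 / 2 :=
        mem_nhdsWithin_of_mem_nhds (gt_mem_nhds (by norm_num))
      filter_upwards [self_mem_nhdsWithin, h5] with δ hδ hδ2
      have hδ : (0 : ℝ) < δ := hδ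
      have e : (z + (δ : ℂ)).re = 1 / 2 + δ := by rw [add_re, hz, ofReal_re]
      have h6 := h.norm_le 3 (s := z + δ) (by rw [e]; linarith) (by rw [e]; push_cast; linarith)
      rw [norm_mul]
      refine mul_le_mul_of_nonneg_left (h6.trans ?_) (norm_nonneg _)
      have hM := h.M0
      have hr := h.r1
      have h7 := hCV (3 * (1 / 2 + δ)) (by linarith) (by linarith)
      have h8 : CV / (3 * (1 / 2 + δ) - 1) ≤ CV / (1 / 2) := by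
        gcongr
        linarith
      have h9 : ((3 : ℕ) : ℝ) * (z + (δ : ℂ)).re = 3 * (1 / 2 + δ) := by rw [e]; norm_num
      rw [h9]
      gcongr
      exact h7.trans h8
    refine squeeze_zero_norm' hK ?_
    have h5 := h0.norm.mul_const (2 * (M * ρ ^ 3) * (CV / (1 / 2)))
    simpa using h5
  have h5 := (h3.neg.sub h4).add (tendsto_const_nhds (x := -(mm w g z : ℂ)))
  simp only [neg_zero, sub_zero, zero_add] at h5
  refine h5.congr' ?_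
  filter_upwards [self_mem_nhdsWithin] with δ hδ
  have hδ : (0 : ℝ) < δ := hδ
  have e : (z + (δ : ℂ)).re = 1 / 2 + δ := by rw [add_re, hz, ofReal_re]
  simp only [Function.comp_apply]
  rw [hr _ (by rw [e]; linarith)]
  have h6 := h.split 2 (s := z + δ) (by rw [e]; linarith) (by rw [e]; push_cast; linarith)
  have h7 : D2 S F (z + δ) = Ds (aa S 2 F) (oo S 2) (z + δ) -
      Ds (aa S 3 F) (oo S 3) (z + δ) := by
    rw [h6]
    unfold D2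
    push_cast
    ring
  rw [h7, add_sub_cancel_left]
  have hδ0 : (δ : ℂ) ≠ 0 := by exact_mod_cast hδ.ne'
  field_simp
  ring

/-- the residues are square summable -/
theorem Bnd.sq_bound (h : Bnd S F M ρ) (hg : ∀ i, Differentiable ℂ (g i))
    (hne : ∀ i, ∃ s, g i s ≠ 0)
    (hr : ∀ s : ℂ, 1 / 2 < s.re → AA w g s = -Ds (aa S 2 F) (oo S 2) s) (Z : Finset ℂ)
    (hZ : ∀ z ∈ Z, z.re = 1 / 2) : ∑ z ∈ Z, (mm w g z) ^ 2 ≤ (M * ρ ^ 2) ^ 2 / 4 := by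
  have h1 : Tendsto (fun δ : ℝ => ‖∑ z ∈ Z, (mm w g z : ℂ) * ((δ : ℂ) * D2 S F (z + δ))‖) (𝓝[>] 0)
      (𝓝 ‖∑ z ∈ Z, (mm w g z : ℂ) * (-(mm w g z : ℂ))‖) := by
    refine Tendsto.norm (tendsto_finsetSum _ fun z hz => ?_)
    exact (h.D2_lim hg hne hr (hZ z hz)).const_mul _
  have h2 : ‖∑ z ∈ Z, (mm w g z : ℂ) * (-(mm w g z : ℂ))‖ = ∑ z ∈ Z, (mm w g z) ^ 2 := by
    have : ∑ z ∈ Z, (mm w g z : ℂ) * (-(mm w g z : ℂ)) = -((∑ z ∈ Z, (mm w g z) ^ 2 : ℝ) : ℂ) := by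
      push_cast
      rw [← Finset.sum_neg_distrib]
      exact Finset.sum_congr rfl fun z _ => by ring
    rw [this, norm_neg, Complex.norm_real, Real.norm_of_nonneg]
    exact Finset.sum_nonneg fun z _ => sq_nonneg _
  rw [h2] at h1
  have h3 := Q_lim (m := mm w g) ((M * ρ ^ 2) ^ 2 / 4) hZ
  have h4 := le_of_tendsto_of_tendsto h1 h3 (by
    filter_upwards [self_mem_nhdsWithin] with δ hδ
    have hδ : (0 : ℝ) < δ := hδ
    have h5 : ∑ z ∈ Z, (mm w g z : ℂ) * ((δ : ℂ) * D2 S F (z + δ)) =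
        (δ : ℂ) * ∑ z ∈ Z, (mm w g z : ℂ) * D2 S F (z + δ) := by
      rw [Finset.mul_sum]
      exact Finset.sum_congr rfl fun z _ => by ring
    rw [h5, norm_mul, Complex.norm_real, Real.norm_of_nonneg hδ.le]
    exact mul_le_mul_of_nonneg_left (h.dual hZ hδ) hδ.le)
  linarith

end Pool.Agent.N210.FV
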