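import Pool.Agent.N210.FV.Psi

/-!
# Functional equations and logarithmic derivatives
-/

set_option autoImplicit false

namespace Pool.Agent.N210.FV

open Filter Topology Complex MeasureTheory Set

/-- product of inverse gamma factors -/
noncomputable def gi (μ : List ℂ) (s : ℂ) : ℂ := (μ.map fun m => (Gammaℝ (s + m))⁻¹).prod

/-- finite product of Euler factors -/
noncomputable def ef (l : List (ℕ × ℂ)) (s : ℂ) : ℂ :=
  (l.map fun x => 1 - x.2 * (x.1 : ℂ) ^ (-s)).prod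

/-- logarithmic derivative of an inverse gamma factor -/
noncomputable def hg (m s : ℂ) : ℂ :=
  ((Real.log Real.pi / 2 : ℝ) : ℂ) + (-(1 / 2)) * logDeriv Gamma (((1 / 2 : ℝ) : ℂ) * s + m / 2)

/-- logarithmic derivative of an Euler factor -/
noncomputable def he (x : ℕ × ℂ) (s : ℂ) : ℂ :=
  if x.2 = 0 then 0 else ((Real.log x.1 : ℝ) : ℂ) * ge x.2 (Real.log x.1) s

theorem cp {p : ℕ} (hp : p ≠ 0) (s : ℂ) : (p : ℂ) ^ (-s) = exp (-((Real.log p : ℝ) : ℂ) * s) := by
  have h : (p : ℂ) ≠ 0 := by exact_mod_cast hp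
  rw [cpow_def_of_ne_zero h, ofReal_log (Nat.cast_nonneg p), ofReal_natCast]
  congr 1
  ring

theorem ld_refl {f : ℂ → ℂ} (hf : Differentiable ℂ f) (s : ℂ) :
    logDeriv (fun s => f (1 - s)) s = -logDeriv f (1 - s) := by
  have h1 : HasDerivAt (fun s : ℂ => 1 - s) (-1) s := (hasDerivAt_id s).const_sub 1
  have h2 := logDeriv_comp (f := f) (g := fun s : ℂ => 1 - s) (x := s) (hf _) h1.differentiableAt
  rw [h1.deriv] at h2
  have h3 : (f ∘ fun s : ℂ => 1 - s) = fun s => f (1 - s) := rfl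
  rw [h3] at h2
  rw [h2]
  ring

theorem ld_inv {F : ℂ → ℂ} {s : ℂ} (hd : DifferentiableAt ℂ F s) (h : F s ≠ 0) :
    logDeriv (fun s => (F s)⁻¹) s = -logDeriv F s := by
  rw [logDeriv_apply, logDeriv_apply]
  have h1 : HasDerivAt (fun s => (F s)⁻¹) (-deriv F s / (F s) ^ 2) s := hd.hasDerivAt.fun_inv h
  rw [h1.deriv]
  field_simp

theorem gi_one_diff (m : ℂ) : Differentiable ℂ fun s => (Gammaℝ (s + m))⁻¹ :=
  differentiable_Gammaℝ_inv.comp (differentiable_id.add_const m)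

theorem gi_one_ld {m s : ℂ} (h : (Gammaℝ (s + m))⁻¹ ≠ 0) :
    logDeriv (fun s => (Gammaℝ (s + m))⁻¹) s = hg m s := by
  have h0 : Gammaℝ (s + m) ≠ 0 := fun h1 => h (by rw [h1, inv_zero])
  have h00 := h0
  have hpi : (Real.pi : ℂ) ≠ 0 := by exact_mod_cast Real.pi_ne_zero
  rw [Gammaℝ_def] at h0
  have hG : Gamma ((s + m) / 2) ≠ 0 := right_ne_zero_of_mul h0
  have hP := left_ne_zero_of_mul h0
  have hne : ∀ n : ℕ, (s + m) / 2 ≠ -n := by
    intro n h1
    rw [h1, Gamma_neg_nat_eq_zero] at hG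
    exact hG rfl
  have hGd := differentiableAt_Gamma _ hne
  have h1 : HasDerivAt (fun s : ℂ => -(s + m) / 2) (-1 / 2) s := by
    have := (((hasDerivAt_id s).add_const m).fun_neg).div_const 2
    simpa using this
  have h2 : HasDerivAt (fun s : ℂ => (s + m) / 2) (1 / 2) s :=
    ((hasDerivAt_id s).add_const m).div_const 2
  have h3 : HasDerivAt (fun s : ℂ => (Real.pi : ℂ) ^ (-(s + m) / 2))
      ((Real.pi : ℂ) ^ (-(s + m) / 2) * log Real.pi * (-1 / 2)) s :=
    h1.const_cpow (Or.inl hpi)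
  have h4 : DifferentiableAt ℂ (fun s : ℂ => Gamma ((s + m) / 2)) s :=
    hGd.comp s h2.differentiableAt
  have e : (fun s => Gammaℝ (s + m)) = fun s => (Real.pi : ℂ) ^ (-(s + m) / 2) *
      Gamma ((s + m) / 2) := rfl
  have hd : DifferentiableAt ℂ (fun s => Gammaℝ (s + m)) s := by
    rw [e]
    exact h3.differentiableAt.mul h4
  rw [ld_inv hd h00, e, logDeriv_mul (f := fun s : ℂ =>
    (Real.pi : ℂ) ^ (-(s + m) / 2)) (g := fun s : ℂ => Gamma ((s + m) / 2)) s hP hG
    h3.differentiableAt h4]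
  have h5 : logDeriv (fun s : ℂ => (Real.pi : ℂ) ^ (-(s + m) / 2)) s =
      log Real.pi * (-1 / 2) := by
    rw [logDeriv_apply, h3.deriv, mul_assoc, mul_div_cancel_left₀ _ hP]
  have h6 : logDeriv (fun s : ℂ => Gamma ((s + m) / 2)) s =
      logDeriv Gamma ((s + m) / 2) * (1 / 2) := by
    have := logDeriv_comp (f := Gamma) (g := fun s : ℂ => (s + m) / 2) (x := s) hGd
      h2.differentiableAt
    rw [h2.deriv] at this
    exact this
  rw [h5, h6]
  unfold hg
  have h7 : (((1 / 2 : ℝ) : ℂ) * s + m / 2) = (s + m) / 2 := by push_cast; ring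
  rw [h7]
  push_cast
  rw [ofReal_log Real.pi_pos.le]
  ring

theorem ef_one_diff {p : ℕ} (hp : p ≠ 0) (b : ℂ) :
    Differentiable ℂ fun s : ℂ => 1 - b * (p : ℂ) ^ (-s) := by
  simp_rw [cp hp]
  fun_prop

theorem ef_one_ld {p : ℕ} (hp : p ≠ 0) (b s : ℂ) :
    logDeriv (fun s : ℂ => 1 - b * (p : ℂ) ^ (-s)) s = he (p, b) s := by
  simp_rw [cp hp]
  have h1 : HasDerivAt (fun s : ℂ => 1 - b * exp (-((Real.log p : ℝ) : ℂ) * s))
      (-(b * (exp (-((Real.log p : ℝ) : ℂ) * s) * -((Real.log p : ℝ) : ℂ)))) s := by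
    have h2 : HasDerivAt (fun s : ℂ => -((Real.log p : ℝ) : ℂ) * s)
        (-((Real.log p : ℝ) : ℂ)) s := by
      simpa using (hasDerivAt_id s).const_mul (-((Real.log p : ℝ) : ℂ))
    exact ((h2.cexp).const_mul b).const_sub 1
  rw [logDeriv_apply, h1.deriv]
  unfold he
  split_ifs with hb
  · have hb' : b = 0 := hb
    simp [hb']
  · unfold ge
    simp only
    ring

theorem gi_diff (μ : List ℂ) : Differentiable ℂ (gi μ) := by
  induction μ with
  | nil =>
    unfold gi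
    simp
  | cons a μ ih =>
    have : gi (a :: μ) = fun s => (Gammaℝ (s + a))⁻¹ * gi μ s := by
      funext s
      unfold gi
      simp
    rw [this]
    exact (gi_one_diff a).mul ih

theorem ef_diff {l : List (ℕ × ℂ)} (hl : ∀ x ∈ l, x.1 ≠ 0) : Differentiable ℂ (ef l) := by
  induction l with
  | nil =>
    unfold ef
    simp
  | cons a l ih =>
    have : ef (a :: l) = fun s => (1 - a.2 * (a.1 : ℂ) ^ (-s)) * ef l s := by
      funext s
      unfold ef
      simp
    rw [this]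
    exact (ef_one_diff (hl a List.mem_cons_self) a.2).mul
      (ih fun x hx => hl x (List.mem_cons_of_mem _ hx))

theorem gi_ld {μ : List ℂ} {s : ℂ} (h : gi μ s ≠ 0) :
    logDeriv (gi μ) s = (μ.map fun m => hg m s).sum := by
  induction μ with
  | nil =>
    have : gi [] = fun _ => 1 := by
      funext s
      unfold gi
      simp
    rw [this, logDeriv_const]
    simp
  | cons a μ ih =>
    have e : gi (a :: μ) = fun s => (Gammaℝ (s + a))⁻¹ * gi μ s := by
      funext s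
      unfold gi
      simp
    rw [e] at h ⊢
    rw [logDeriv_mul (f := fun s => (Gammaℝ (s + a))⁻¹) (g := gi μ) s (left_ne_zero_of_mul h)
      (right_ne_zero_of_mul h) (gi_one_diff a s) (gi_diff μ s), ih (right_ne_zero_of_mul h),
      gi_one_ld (left_ne_zero_of_mul h)]
    simp

theorem ef_ld {l : List (ℕ × ℂ)} (hl : ∀ x ∈ l, x.1 ≠ 0) {s : ℂ} (h : ef l s ≠ 0) :
    logDeriv (ef l) s = (l.map fun x => he x s).sum := by
  induction l with
  | nil =>
    have : ef [] = fun _ => 1 := by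
      funext s
      unfold ef
      simp
    rw [this, logDeriv_const]
    simp
  | cons a l ih =>
    have e : ef (a :: l) = fun s => (1 - a.2 * (a.1 : ℂ) ^ (-s)) * ef l s := by
      funext s
      unfold ef
      simp
    have hl' : ∀ x ∈ l, x.1 ≠ 0 := fun x hx => hl x (List.mem_cons_of_mem _ hx)
    rw [e] at h ⊢
    rw [logDeriv_mul (f := fun s => (1 - a.2 * (a.1 : ℂ) ^ (-s))) (g := ef l) s
      (left_ne_zero_of_mul h) (right_ne_zero_of_mul h)
      (ef_one_diff (hl a List.mem_cons_self) a.2 s) (ef_diff hl' s),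
      ih hl' (right_ne_zero_of_mul h), ef_one_ld (hl a List.mem_cons_self)]
    simp

/-- the elementary term of the functional equation -/
noncomputable def HH (μ : List ℂ) (l l' : List (ℕ × ℂ)) (q : ℝ) (s : ℂ) : ℂ :=
  -2 * Real.log q + (μ.map fun m => hg m s + hg m (1 - s)).sum +
    (l.map fun x => he x s + he x (1 - s)).sum + (-1) * (l'.map fun x => he x s + he x (1 - s)).sum

theorem sum_map_add {α : Type*} (l : List α) (f g : α → ℂ) :
    (l.map fun x => f x + g x).sum = (l.map f).sum + (l.map g).sum := by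
  induction l with
  | nil => simp
  | cons a l ih =>
    simp only [List.map_cons, List.sum_cons, ih]
    ring

theorem ld_mul6 {a b c d e f : ℂ → ℂ} {s : ℂ} (ha : Differentiable ℂ a) (hb : Differentiable ℂ b)
    (hc : Differentiable ℂ c) (hd : Differentiable ℂ d) (he : Differentiable ℂ e)
    (hf : Differentiable ℂ f) (a0 : a s ≠ 0) (b0 : b s ≠ 0) (c0 : c s ≠ 0) (d0 : d s ≠ 0)
    (e0 : e s ≠ 0) (f0 : f s ≠ 0) :
    logDeriv (fun s => a s * b s * c s * d s * (e s * f s)) s = logDeriv a s + logDeriv b s +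
      logDeriv c s + logDeriv d s + (logDeriv e s + logDeriv f s) := by
  rw [logDeriv_mul (f := fun s => a s * b s * c s * d s) (g := fun s => e s * f s) s
      (mul_ne_zero (mul_ne_zero (mul_ne_zero a0 b0) c0) d0) (mul_ne_zero e0 f0)
      ((((ha.mul hb).mul hc).mul hd) s) ((he.mul hf) s),
    logDeriv_mul (f := fun s => a s * b s * c s) (g := d) s
      (mul_ne_zero (mul_ne_zero a0 b0) c0) d0 (((ha.mul hb).mul hc) s) (hd s),
    logDeriv_mul (f := fun s => a s * b s) (g := c) s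
      (mul_ne_zero a0 b0) c0 ((ha.mul hb) s) (hc s),
    logDeriv_mul (f := a) (g := b) s a0 b0 (ha s) (hb s),
    logDeriv_mul (f := e) (g := f) s e0 f0 (he s) (hf s)]

theorem fe_ld {N D : ℂ → ℂ} {μ : List ℂ} {l l' : List (ℕ × ℂ)} {q : ℝ} {ε : ℂ}
    (hN : Differentiable ℂ N) (hD : Differentiable ℂ D) (hq : 0 < q) (hε : ε ≠ 0)
    (hl : ∀ x ∈ l, x.1 ≠ 0) (hl' : ∀ x ∈ l', x.1 ≠ 0)
    (h : ∀ s, (q : ℂ) ^ s * gi μ (1 - s) * ef l (1 - s) * ef l' s * (N s * D (1 - s)) =
      ε * (q : ℂ) ^ (1 - s) * gi μ s * ef l s * ef l' (1 - s) * (N (1 - s) * D s)) {s : ℂ}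
    (h1 : N s ≠ 0) (h2 : N (1 - s) ≠ 0) (h3 : D s ≠ 0) (h4 : D (1 - s) ≠ 0)
    (h5 : gi μ s ≠ 0) (h6 : gi μ (1 - s) ≠ 0) (h7 : ef l s ≠ 0) (h8 : ef l (1 - s) ≠ 0)
    (h9 : ef l' s ≠ 0) (h10 : ef l' (1 - s) ≠ 0) :
    logDeriv N s - logDeriv D s = -(logDeriv N (1 - s) - logDeriv D (1 - s)) +
      HH μ l l' q s := by
  have hq0 : (q : ℂ) ≠ 0 := by exact_mod_cast hq.ne'
  have qe : (fun s : ℂ => (q : ℂ) ^ s) = fun s => exp ((Real.log q : ℝ) * s) := by
    funext s
    rw [cpow_def_of_ne_zero hq0, ofReal_log hq.le]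
  have dr : ∀ {f : ℂ → ℂ}, Differentiable ℂ f → Differentiable ℂ fun s => f (1 - s) :=
    fun hf => hf.comp ((differentiable_const _).sub differentiable_id)
  have dq : Differentiable ℂ fun s : ℂ => (q : ℂ) ^ s := by
    rw [qe]
    fun_prop
  have q0 : ∀ s : ℂ, (q : ℂ) ^ s ≠ 0 := by
    intro s
    have h0 : (q : ℂ) ^ s = exp ((Real.log q : ℝ) * s) := congrFun qe s
    rw [h0]
    exact exp_ne_zero _
  have lq : ∀ s : ℂ, logDeriv (fun s : ℂ => (q : ℂ) ^ s) s = (Real.log q : ℝ) := by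
    intro s
    have h2 : HasDerivAt (fun s : ℂ => ((Real.log q : ℝ) : ℂ) * s) ((Real.log q : ℝ) : ℂ) s := by
      simpa using (hasDerivAt_id s).const_mul ((Real.log q : ℝ) : ℂ)
    rw [qe, logDeriv_apply, h2.cexp.deriv, mul_div_cancel_left₀ _ (exp_ne_zero _)]
  have lq' : logDeriv (fun s : ℂ => ε * (q : ℂ) ^ (1 - s)) s = -(Real.log q : ℝ) := by
    rw [logDeriv_const_mul (f := fun s : ℂ => (q : ℂ) ^ (1 - s)) s ε hε,
      ld_refl (f := fun s : ℂ => (q : ℂ) ^ s) dq, lq]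
  have e : (fun s : ℂ => (q : ℂ) ^ s * gi μ (1 - s) * ef l (1 - s) * ef l' s *
      (N s * D (1 - s))) = fun s => ε * (q : ℂ) ^ (1 - s) * gi μ s * ef l s * ef l' (1 - s) *
      (N (1 - s) * D s) := funext h
  have e1 := ld_mul6 (s := s) dq (dr (gi_diff μ)) (dr (ef_diff hl)) (ef_diff hl') hN (dr hD)
    (q0 s) h6 h8 h9 h1 h4
  have e2 := ld_mul6 (s := s) ((dr dq).const_mul ε) (gi_diff μ) (ef_diff hl) (dr (ef_diff hl'))
    (dr hN) hD (mul_ne_zero hε (q0 _)) h5 h7 h10 h2 h3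
  rw [e, e2, lq, lq', ld_refl (gi_diff μ), ld_refl (ef_diff hl), ld_refl (ef_diff hl'),
    ld_refl hN, ld_refl hD, gi_ld h5, gi_ld h6, ef_ld hl h7, ef_ld hl h8, ef_ld hl' h9,
    ef_ld hl' h10] at e1
  unfold HH
  rw [sum_map_add, sum_map_add, sum_map_add]
  linear_combination -e1

variable {ω : ℝ}

theorem hg_tame (hω : ω ≠ 0) (m : ℂ) : Tame ω (hg m) := by
  unfold hg
  exact (Tame.const hω _).add ((psi_tame hω (κ := 1 / 2) (by norm_num) (m / 2)).const_mul _)

theorem hg_tame' (hω : ω ≠ 0) (m : ℂ) : Tame ω fun s => hg m (1 - s) := by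
  have e : (fun s => hg m (1 - s)) = fun s => ((Real.log Real.pi / 2 : ℝ) : ℂ) + (-(1 / 2)) *
      logDeriv Gamma (((-(1 / 2) : ℝ) : ℂ) * s + (1 / 2 + m / 2)) := by
    funext s
    unfold hg
    congr 3
    push_cast
    ring
  rw [e]
  exact (Tame.const hω _).add ((psi_tame hω (κ := -(1 / 2)) (by
    rw [abs_neg]
    norm_num) (1 / 2 + m / 2)).const_mul _)

theorem he_tame (hω : ω ≠ 0) {x : ℕ × ℂ} (hx : Real.log x.1 ≠ 0)
    (hn : ∀ n : ℤ, ω ≠ n * Real.log x.1) : Tame ω (he x) := by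
  unfold he
  by_cases hb : x.2 = 0
  · simp only [hb, if_true]
    exact Tame.const hω 0
  · simp only [hb, if_false]
    exact (ge_tame hb hx hω hn).const_mul _

theorem he_tame' (hω : ω ≠ 0) {x : ℕ × ℂ} (hx : Real.log x.1 ≠ 0)
    (hn : ∀ n : ℤ, ω ≠ n * Real.log x.1) : Tame ω fun s => he x (1 - s) := by
  by_cases hb : x.2 = 0
  · have e : (fun s => he x (1 - s)) = fun _ => 0 := by
      funext s
      unfold he
      rw [if_pos hb]
    rw [e]
    exact Tame.const hω 0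
  · have e : ∀ s : ℂ, ge x.2 (Real.log x.1) (1 - s) =
        ge (x.2 * exp (-((Real.log x.1 : ℝ) : ℂ))) (-Real.log x.1) s := by
      intro s
      have h1 : x.2 * exp (-((Real.log x.1 : ℝ) : ℂ) * (1 - s)) =
          x.2 * exp (-((Real.log x.1 : ℝ) : ℂ)) * exp (-((-Real.log x.1 : ℝ) : ℂ) * s) := by
        rw [mul_assoc, ← exp_add]
        congr 2
        push_cast
        ring
      unfold ge
      rw [h1]
    have e2 : (fun s => he x (1 - s)) = fun s => ((Real.log x.1 : ℝ) : ℂ) *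
        ge (x.2 * exp (-((Real.log x.1 : ℝ) : ℂ))) (-Real.log x.1) s := by
      funext s
      unfold he
      rw [if_neg hb, e]
    rw [e2]
    refine (ge_tame (mul_ne_zero hb (exp_ne_zero _)) (neg_ne_zero.2 hx) hω fun n h => ?_).const_mul _
    exact hn (-n) (by rw [h]; push_cast; ring)

theorem HH_tame (hω : ω ≠ 0) (μ : List ℂ) {l l' : List (ℕ × ℂ)} (q : ℝ)
    (hl : ∀ x ∈ l, Real.log x.1 ≠ 0 ∧ ∀ n : ℤ, ω ≠ n * Real.log x.1)
    (hl' : ∀ x ∈ l', Real.log x.1 ≠ 0 ∧ ∀ n : ℤ, ω ≠ n * Real.log x.1) :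
    Tame ω (HH μ l l' q) := by
  unfold HH
  refine (((Tame.const hω _).add (Tame.list hω μ fun m _ => ?_)).add
    (Tame.list hω l fun x hx => ?_)).add ((Tame.list hω l' fun x hx => ?_).const_mul (-1))
  · exact (hg_tame hω m).add (hg_tame' hω m)
  · exact (he_tame hω (hl x hx).1 (hl x hx).2).add (he_tame' hω (hl x hx).1 (hl x hx).2)
  · exact (he_tame hω (hl' x hx).1 (hl' x hx).2).add (he_tame' hω (hl' x hx).1 (hl' x hx).2)

/-! ### the functions do not vanish identically -/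

theorem ev_ne {f : ℂ → ℂ} (hf : Differentiable ℂ f) (hne : ∃ s, f s ≠ 0) (z : ℂ) :
    ∀ᶠ u in 𝓝[≠] z, f u ≠ 0 := by
  obtain ⟨s, hs⟩ := hne
  have h1 : AnalyticOnNhd ℂ f univ := fun x _ => hf.analyticAt x
  rcases (h1 z (mem_univ z)).eventually_eq_zero_or_eventually_ne_zero with h | h
  · exfalso
    apply hs
    exact h1.eqOn_zero_of_preconnected_of_eventuallyEq_zero isPreconnected_univ (mem_univ z) h
      (mem_univ s)
  · exact h

theorem gi_ne (μ : List ℂ) : ∃ s, gi μ s ≠ 0 := by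
  by_contra hcon
  push Not at hcon
  have key : ∀ᶠ u in 𝓝[≠] (0 : ℂ), gi μ u ≠ 0 := by
    clear hcon
    induction μ with
    | nil => exact Eventually.of_forall fun u => by simp [gi]
    | cons a μ ih =>
      have h1 : ∃ s, (Gammaℝ (s + a))⁻¹ ≠ 0 := by
        refine ⟨2 - a, inv_ne_zero ?_⟩
        rw [sub_add_cancel]
        exact Gammaℝ_ne_zero_of_re_pos (by norm_num)
      filter_upwards [ih, ev_ne (gi_one_diff a) h1 0] with u hu hu2
      have : gi (a :: μ) u = (Gammaℝ (u + a))⁻¹ * gi μ u := by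
        unfold gi
        simp
      rw [this]
      exact mul_ne_zero hu2 hu
  obtain ⟨u, hu⟩ := key.exists
  exact hu (hcon u)

theorem ef_ev {l : List (ℕ × ℂ)} (hl : ∀ x ∈ l, 1 < x.1) (z : ℂ) : ∀ᶠ u in 𝓝[≠] z, ef l u ≠ 0 := by
  induction l with
  | nil => exact Eventually.of_forall fun u => by simp [ef]
  | cons a l ih =>
    have ha : 1 < a.1 := hl a List.mem_cons_self
    have hlog : 0 < Real.log a.1 := Real.log_pos (by exact_mod_cast ha)
    have h1 : ∃ s : ℂ, 1 - a.2 * (a.1 : ℂ) ^ (-s) ≠ 0 := by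
      by_contra hcon
      push Not at hcon
      have h2 := hcon 0
      have h3 := hcon 1
      rw [neg_zero, cpow_zero, mul_one] at h2
      have h4 : a.2 = 1 := by linear_combination -h2
      rw [h4, one_mul, cpow_neg_one, sub_eq_zero] at h3
      have h5 : (a.1 : ℂ) = 1 := by rw [← inv_inv (a.1 : ℂ), ← h3, inv_one]
      have h6 : a.1 = 1 := by exact_mod_cast h5
      omega
    filter_upwards [ih fun x hx => hl x (List.mem_cons_of_mem _ hx),
      ev_ne (ef_one_diff (by omega) a.2) h1 z] with u hu hu2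
    have : ef (a :: l) u = (1 - a.2 * (a.1 : ℂ) ^ (-u)) * ef l u := by
      unfold ef
      simp
    rw [this]
    exact mul_ne_zero hu2 hu

theorem ev_refl {f : ℂ → ℂ} (hf : ∀ z, ∀ᶠ u in 𝓝[≠] z, f u ≠ 0) (z : ℂ) :
    ∀ᶠ u in 𝓝[≠] z, f (1 - u) ≠ 0 := by
  have h1 : Tendsto (fun u : ℂ => 1 - u) (𝓝[≠] z) (𝓝[≠] (1 - z)) := by
    rw [tendsto_nhdsWithin_iff]
    constructor
    · have : Continuous fun u : ℂ => 1 - u := by fun_prop
      exact (this.tendsto z).mono_left nhdsWithin_le_nhds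
    · filter_upwards [self_mem_nhdsWithin] with u hu h2
      apply hu
      have h3 : 1 - u = 1 - z := h2
      exact sub_right_injective h3
  exact h1.eventually (hf (1 - z))

end Pool.Agent.N210.FV
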