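import Pool.Agent.N210.FV.Pw
import Pool.Agent.N210.FV.FE

/-!
# Euler products and the Dirichlet series of their logarithmic derivatives
-/

set_option autoImplicit false

namespace Pool.Agent.N210.FV

open Filter Topology Complex

variable {κ : Type*} {I : Finset κ} {β : ℕ → κ → ℂ} {S S' : Finset ℕ} {F : ℕ → ℕ → ℂ} {M ρ : ℝ}

/-- power sums of the parameters -/
noncomputable def ps (I : Finset κ) (β : ℕ → κ → ℂ) (p k : ℕ) : ℂ := ∑ i ∈ I, β p i ^ k

/-- the logarithm of the Euler product, term by term -/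
noncomputable def bt (S : Finset ℕ) (F : ℕ → ℕ → ℂ) (i : PS S × ℕ) : ℂ := F i.1 (i.2 + 1) / (i.2 + 1)

theorem exp_log_series {u : ℂ} (hu : ‖u‖ < 1) :
    HasSum (fun k : ℕ => u ^ (k + 1) / (k + 1)) (-log (1 - u)) := by
  have h := Complex.hasSum_taylorSeries_neg_log hu
  have h2 := (hasSum_nat_add_iff' (f := fun n : ℕ => u ^ n / n) 1).2 h
  simpa using h2

theorem exp_neg_log {u : ℂ} (hu : ‖u‖ < 1) : exp (-log (1 - u)) = (1 - u)⁻¹ := by
  have h : 1 - u ≠ 0 := one_sub_ne hu.ne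
  rw [exp_neg, exp_log h]

/-- derivative of a general Dirichlet series -/
theorem Ds_hasDeriv {ι : Type*} {b : ι → ℂ} {om : ι → ℝ} {σ : ℝ}
    (hs : Summable fun i => ‖b i‖ * Real.exp (-(om i * σ))) (h0 : ∀ i, 0 ≤ om i) {s : ℂ}
    (h : σ < s.re) : HasDerivAt (Ds b om) (-Ds (fun i => b i * om i) om s) s := by
  have hU : IsOpen {w : ℂ | σ < w.re} := isOpen_lt continuous_const continuous_re
  have hle : ∀ i (w : ℂ), w ∈ {w : ℂ | σ < w.re} → ‖b i * exp (-(om i : ℂ) * w)‖ ≤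
      ‖b i‖ * Real.exp (-(om i * σ)) := by
    intro i w hw
    have hw : σ < w.re := hw
    rw [norm_mul, Complex.norm_exp]
    gcongr
    rw [neg_mul, neg_re, re_ofReal_mul]
    have := h0 i
    nlinarith
  have hdi : ∀ i (w : ℂ), HasDerivAt (fun w => b i * exp (-(om i : ℂ) * w))
      (b i * (exp (-(om i : ℂ) * w) * -(om i : ℂ))) w := by
    intro i w
    have h2 : HasDerivAt (fun w : ℂ => -(om i : ℂ) * w) (-(om i : ℂ)) w := by
      simpa using (hasDerivAt_id w).const_mul (-(om i : ℂ))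
    exact (h2.cexp).const_mul _
  have h1 := Complex.hasSum_deriv_of_summable_norm (z := s) hs
    (F := fun i (w : ℂ) => b i * exp (-(om i : ℂ) * w))
    (fun i w _ => (hdi i w).differentiableAt.differentiableWithinAt) hU hle h
  have h2 := Complex.differentiableOn_tsum_of_summable_norm hs
    (F := fun i (w : ℂ) => b i * exp (-(om i : ℂ) * w))
    (fun i w _ => (hdi i w).differentiableAt.differentiableWithinAt) hU hle
  have h3 : DifferentiableAt ℂ (Ds b om) s := h2.differentiableAt (hU.mem_nhds h)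
  have h4 : deriv (Ds b om) s = -Ds (fun i => b i * om i) om s := by
    have h5 : deriv (Ds b om) s = ∑' i, deriv (fun w => b i * exp (-(om i : ℂ) * w)) s := h1.tsum_eq.symm
    rw [h5]
    unfold Ds
    rw [← tsum_neg]
    refine tsum_congr fun i => ?_
    rw [(hdi i s).deriv]
    ring
  rw [← h4]
  exact h3.hasDerivAt

theorem Bnd.summ_bt (h : Bnd S F M ρ) {σ : ℝ} (hσ : 1 < σ) :
    Summable fun i : PS S × ℕ => ‖bt S F i‖ * Real.exp (-(oo S 1 i * σ)) := by
  have h1 := (h.summ 1 (σ := σ) (by linarith) (by push_cast; linarith)).mul_left (1 / Real.log 2)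
  refine Summable.of_nonneg_of_le (fun i => by positivity) (fun i => ?_) h1
  have hl : Real.log 2 ≤ Real.log (i.1 : ℕ) := Real.log_le_log (by norm_num)
    (by exact_mod_cast i.1.2.1.two_le)
  have hl2 : 0 < Real.log 2 := Real.log_pos (by norm_num)
  have h2 : ‖bt S F i‖ ≤ 1 / Real.log 2 * ‖aa S 1 F i‖ := by
    unfold bt aa
    rw [norm_div, norm_mul, Complex.norm_real, Real.norm_of_nonneg i.1.log_pos.le]
    have h3 : (1 : ℝ) ≤ ‖((i.2 : ℂ) + 1)‖ := by
      have : ((i.2 : ℂ) + 1) = ((i.2 + 1 : ℝ) : ℂ) := by push_cast; rfl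
      rw [this, Complex.norm_real, Real.norm_of_nonneg (by positivity)]
      have : (0 : ℝ) ≤ i.2 := Nat.cast_nonneg _
      linarith
    calc ‖F i.1 (i.2 + 1)‖ / ‖((i.2 : ℂ) + 1)‖ ≤ ‖F i.1 (i.2 + 1)‖ := div_le_self (norm_nonneg _) h3
      _ = 1 / Real.log 2 * (‖F i.1 (i.2 + 1)‖ * Real.log 2) := by field_simp
      _ ≤ 1 / Real.log 2 * (‖F i.1 (i.2 + 1)‖ * Real.log (i.1 : ℕ)) := by gcongr
  calc _ ≤ (1 / Real.log 2 * ‖aa S 1 F i‖) * Real.exp (-(oo S 1 i * σ)) := by gcongr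
    _ = _ := by ring

theorem bt_mul (i : PS S × ℕ) (F : ℕ → ℕ → ℂ) : bt S F i * oo S 1 i = aa S 1 F i := by
  unfold bt oo aa
  have : ((i.2 : ℂ) + 1) ≠ 0 := by exact_mod_cast Nat.succ_ne_zero i.2
  push_cast
  field_simp

/-- the sum over the powers of one prime -/
theorem one_prime (hb : Bnd S (ps I β) M ρ) (p : PS S) (hβ : ∀ i ∈ I, ‖β p i‖ ≤ ρ) {s : ℂ}
    (hs : 1 < s.re) :
    exp (∑' k : ℕ, bt S (ps I β) (p, k) * exp (-(oo S 1 (p, k) : ℂ) * s)) =
      ∏ i ∈ I, (1 - β p i * ((p : ℕ) : ℂ) ^ (-s))⁻¹ := by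
  have hu : ∀ i ∈ I, ‖β p i * ((p : ℕ) : ℂ) ^ (-s)‖ < 1 := by
    intro i hi
    have h1 : ‖((p : ℕ) : ℂ) ^ (-s)‖ = ((p : ℕ) : ℝ) ^ (-s.re) := by
      rw [← ofReal_natCast, Complex.norm_cpow_eq_rpow_re_of_pos p.pos, neg_re]
    rw [norm_mul, h1]
    have h2 := hb.half p (σ := s.re) (by linarith)
    have h3 := hβ i hi
    have h4 : 0 < ((p : ℕ) : ℝ) ^ (-s.re) := Real.rpow_pos_of_pos p.pos _
    nlinarith
  have h1 : ∀ k : ℕ, bt S (ps I β) (p, k) * exp (-(oo S 1 (p, k) : ℂ) * s) =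
      ∑ i ∈ I, (β p i * ((p : ℕ) : ℂ) ^ (-s)) ^ (k + 1) / (k + 1) := by
    intro k
    unfold bt ps oo
    rw [Finset.sum_div, Finset.sum_mul]
    refine Finset.sum_congr rfl fun i _ => ?_
    rw [mul_pow, cp p.2.1.ne_zero, ← exp_nat_mul]
    push_cast
    have e : -(((k : ℂ) + 1) * log ((p : ℕ) : ℂ)) * s = ((k : ℂ) + 1) * (-log ((p : ℕ) : ℂ) * s) := by
      ring
    simp only [e]
    ring
  simp_rw [h1]
  rw [Summable.tsum_finsetSum (fun i hi => (exp_log_series (hu i hi)).summable), exp_sum]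
  refine Finset.prod_congr rfl fun i hi => ?_
  rw [(exp_log_series (hu i hi)).tsum_eq, exp_neg_log (hu i hi)]

/-- the partial Euler products converge -/
theorem eul (hb : Bnd S (ps I β) M ρ) (hβ : ∀ p : PS S, ∀ i ∈ I, ‖β p i‖ ≤ ρ) {s : ℂ}
    (hs : 1 < s.re) :
    Tendsto (fun X : ℕ => ∏ p ∈ (Finset.range X).filter (fun p => p.Prime ∧ p ∉ S), ∏ i ∈ I,
      (1 - β p i * (p : ℂ) ^ (-s))⁻¹) atTop (𝓝 (exp (Ds (bt S (ps I β)) (oo S 1) s))) := by
  classical
  have h1 : Summable fun i : PS S × ℕ => bt S (ps I β) i * exp (-(oo S 1 i : ℂ) * s) := by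
    refine Summable.of_norm ((hb.summ_bt hs).congr fun i => ?_)
    rw [norm_mul, Complex.norm_exp, neg_mul, neg_re, re_ofReal_mul]
  have h2 := h1.hasSum.prod_fiberwise (fun p => (h1.prod_factor p).hasSum)
  set g : ℕ → ℂ := fun p => if hp : p.Prime ∧ p ∉ S then
    ∑' k : ℕ, bt S (ps I β) (⟨p, hp⟩, k) * exp (-(oo S 1 (⟨p, hp⟩, k) : ℂ) * s) else 0 with hg
  have h3 : HasSum g (Ds (bt S (ps I β)) (oo S 1) s) := by
    rw [← Function.Injective.hasSum_iff (g := fun p : PS S => (p : ℕ)) Subtype.val_injective]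
    · have e : (g ∘ fun p : PS S => (p : ℕ)) = fun p : PS S =>
          ∑' k : ℕ, bt S (ps I β) (p, k) * exp (-(oo S 1 (p, k) : ℂ) * s) := by
        funext p
        simp only [Function.comp_apply, hg]
        rw [dif_pos p.2]
      rw [e]
      exact h2
    · intro x hx
      simp only [hg]
      rw [dif_neg]
      intro hp
      exact hx ⟨⟨x, hp⟩, rfl⟩
  have h4 := (continuous_exp.tendsto _).comp h3.tendsto_sum_nat
  refine h4.congr fun X => ?_
  simp only [Function.comp_apply]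
  rw [exp_sum, Finset.prod_filter]
  refine Finset.prod_congr rfl fun p _ => ?_
  simp only [hg]
  split_ifs with hp
  · exact one_prime hb ⟨p, hp⟩ (hβ ⟨p, hp⟩) hs
  · exact exp_zero

/-- the list of the Euler factors at the primes of `S' \ S` -/
noncomputable def lst (I : Finset κ) (β : ℕ → κ → ℂ) (S S' : Finset ℕ) : List (ℕ × ℂ) :=
  (((S' \ S).filter Nat.Prime ×ˢ I).toList).map fun x => (x.1, β x.1 x.2)

theorem lst_mem {x : ℕ × ℂ} (hx : x ∈ lst I β S S') : x.1.Prime ∧ x.1 ∈ S' := by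
  unfold lst at hx
  rw [List.mem_map] at hx
  obtain ⟨y, hy, rfl⟩ := hx
  rw [Finset.mem_toList, Finset.mem_product, Finset.mem_filter, Finset.mem_sdiff] at hy
  exact ⟨hy.1.2, hy.1.1.1⟩

theorem ef_lst (s : ℂ) : ef (lst I β S S') s =
    ∏ p ∈ (S' \ S).filter Nat.Prime, ∏ i ∈ I, (1 - β p i * (p : ℂ) ^ (-s)) := by
  unfold ef lst
  rw [List.map_map, Finset.prod_map_toList, Finset.prod_product]
  rfl

/-- enlarging `S` -/
theorem nd_eq (hSS : S ⊆ S') (hb : Bnd S' (ps I β) M ρ) (hβ : ∀ p : PS S', ∀ i ∈ I, ‖β p i‖ ≤ ρ)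
    {N D : ℂ → ℂ} (hN : Differentiable ℂ N) (hD : Differentiable ℂ D)
    (hDne : ∀ s : ℂ, 1 < s.re → D s ≠ 0)
    (heul : ∀ s : ℂ, 1 < s.re → Tendsto (fun X : ℕ =>
      ∏ p ∈ (Finset.range X).filter (fun p => p.Prime ∧ p ∉ S), ∏ i ∈ I,
        (1 - β p i * (p : ℂ) ^ (-s))⁻¹) atTop (𝓝 (N s / D s))) {s : ℂ} (hs : 1 < s.re) :
    N s * ef (lst I β S S') s = D s * exp (Ds (bt S' (ps I β)) (oo S' 1) s) := by
  classical
  have hl1 : ∀ x ∈ lst I β S S', 1 < x.1 := fun x hx => (lst_mem hx).1.one_lt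
  have hl0 : ∀ x ∈ lst I β S S', x.1 ≠ 0 := fun x hx => (lst_mem hx).1.ne_zero
  have key : ∀ s : ℂ, 1 < s.re → ef (lst I β S S') s ≠ 0 →
      N s * ef (lst I β S S') s = D s * exp (Ds (bt S' (ps I β)) (oo S' 1) s) := by
    intro s hs hE
    have h1 := heul s hs
    have h2 := (eul hb hβ hs).mul_const (ef (lst I β S S') s)⁻¹
    have h3 : N s / D s = exp (Ds (bt S' (ps I β)) (oo S' 1) s) * (ef (lst I β S S') s)⁻¹ := by
      refine tendsto_nhds_unique h1 (h2.congr' ?_)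
      filter_upwards [eventually_gt_atTop (S'.sup id)] with X hX
      have h4 : (Finset.range X).filter (fun p => p.Prime ∧ p ∉ S) =
          (Finset.range X).filter (fun p => p.Prime ∧ p ∉ S') ∪ (S' \ S).filter Nat.Prime := by
        ext p
        simp only [Finset.mem_filter, Finset.mem_range, Finset.mem_union, Finset.mem_sdiff]
        constructor
        · rintro ⟨a, b, c⟩
          by_cases hp : p ∈ S'
          · exact Or.inr ⟨⟨hp, c⟩, b⟩
          · exact Or.inl ⟨a, b, hp⟩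
        · rintro (⟨a, b, c⟩ | ⟨⟨a, b⟩, c⟩)
          · exact ⟨a, b, fun h => c (hSS h)⟩
          · exact ⟨lt_of_le_of_lt (Finset.le_sup (f := id) a) hX, c, b⟩
      have h5 : Disjoint ((Finset.range X).filter (fun p => p.Prime ∧ p ∉ S'))
          ((S' \ S).filter Nat.Prime) := by
        rw [Finset.disjoint_left]
        intro p hp hp2
        simp only [Finset.mem_filter, Finset.mem_sdiff] at hp hp2
        exact hp.2.2 hp2.1.1
      rw [h4, Finset.prod_union h5, ef_lst]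
      congr 1
      rw [← Finset.prod_inv_distrib]
      exact Finset.prod_congr rfl fun p _ => by rw [Finset.prod_inv_distrib]
    have hD0 := hDne s hs
    rw [div_eq_iff hD0] at h3
    rw [h3]
    field_simp
  by_cases hE : ef (lst I β S S') s = 0
  · -- by continuity
    have h1 : Tendsto (fun u => N u * ef (lst I β S S') u) (𝓝[≠] s)
        (𝓝 (N s * ef (lst I β S S') s)) :=
      ((hN.mul (ef_diff hl0)).continuous.tendsto s).mono_left nhdsWithin_le_nhds
    have hd : HasDerivAt (Ds (bt S' (ps I β)) (oo S' 1)) _ s :=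
      Ds_hasDeriv (σ := (1 + s.re) / 2) (hb.summ_bt (by linarith)) (fun i => oo_nonneg 1 i)
        (by linarith)
    have h2 : Tendsto (fun u => D u * exp (Ds (bt S' (ps I β)) (oo S' 1) u)) (𝓝[≠] s)
        (𝓝 (D s * exp (Ds (bt S' (ps I β)) (oo S' 1) s))) :=
      (hD.continuous.continuousAt.mul hd.continuousAt.cexp).tendsto.mono_left nhdsWithin_le_nhds
    refine tendsto_nhds_unique h1 (h2.congr' ?_)
    have h3 : ∀ᶠ u in 𝓝[≠] s, 1 < u.re :=
      mem_nhdsWithin_of_mem_nhds ((isOpen_lt continuous_const continuous_re).mem_nhds hs)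
    filter_upwards [ef_ev hl1 s, h3] with u hu hu2
    exact (key u hu2 hu).symm
  · exact key s hs hE

/-- the logarithmic derivative of the Euler product -/
theorem ld_eul (hSS : S ⊆ S') (hb : Bnd S' (ps I β) M ρ)
    (hβ : ∀ p : PS S', ∀ i ∈ I, ‖β p i‖ ≤ ρ)
    {N D : ℂ → ℂ} (hN : Differentiable ℂ N) (hD : Differentiable ℂ D)
    (hDne : ∀ s : ℂ, 1 < s.re → D s ≠ 0)
    (heul : ∀ s : ℂ, 1 < s.re → Tendsto (fun X : ℕ =>
      ∏ p ∈ (Finset.range X).filter (fun p => p.Prime ∧ p ∉ S), ∏ i ∈ I,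
        (1 - β p i * (p : ℂ) ^ (-s))⁻¹) atTop (𝓝 (N s / D s))) {s : ℂ} (hs : 1 < s.re) :
    logDeriv (fun s => N s * ef (lst I β S S') s) s - logDeriv D s =
      -Ds (aa S' 1 (ps I β)) (oo S' 1) s := by
  have hd : HasDerivAt (Ds (bt S' (ps I β)) (oo S' 1)) _ s :=
    Ds_hasDeriv (σ := (1 + s.re) / 2) (hb.summ_bt (by linarith)) (fun i => oo_nonneg 1 i)
      (by linarith)
  have h1 : (fun s => N s * ef (lst I β S S') s) =ᶠ[𝓝 s]
      fun s => D s * exp (Ds (bt S' (ps I β)) (oo S' 1) s) := by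
    filter_upwards [(isOpen_lt continuous_const continuous_re).mem_nhds hs] with u hu
    exact nd_eq hSS hb hβ hN hD hDne heul hu
  rw [(logDeriv_congr_nhds h1).eq_of_nhds, logDeriv_mul (f := D) (g := fun s =>
    exp (Ds (bt S' (ps I β)) (oo S' 1) s)) s (hDne s hs) (exp_ne_zero _) (hD s)
    hd.cexp.differentiableAt]
  have h2 : logDeriv (fun s => exp (Ds (bt S' (ps I β)) (oo S' 1) s)) s =
      -Ds (aa S' 1 (ps I β)) (oo S' 1) s := by
    rw [logDeriv_apply, hd.cexp.deriv, mul_div_cancel_left₀ _ (exp_ne_zero _)]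
    simp_rw [bt_mul]
  rw [h2]
  ring

end Pool.Agent.N210.FV
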