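import Pool.Agent.N210.FV.Fin
import Pool.Agent.N210.FV.Dual
import Pool.Agent.N210.FV.Eul

/-!
# Families of L-functions and the vanishing of the coefficients at prime powers
-/

set_option autoImplicit false

namespace Pool.Agent.N210.FV

open Filter Topology Complex Set
open scoped ArithmeticFunction.vonMangoldt

section

variable {J : Type*} [Fintype J] {w : J → ℝ} {g : J → ℂ → ℂ}

theorem ev_all (hg : ∀ i, Differentiable ℂ (g i)) (hne : ∀ i, ∃ s, g i s ≠ 0) (z : ℂ) :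
    ∀ᶠ u in 𝓝[≠] z, ∀ i, g i u ≠ 0 := by
  obtain ⟨φ, -, -, h⟩ := loc (w := fun _ => 0) hg hne z
  filter_upwards [h] with u hu
  exact hu.1

/-- analytic continuation of the combination of logarithmic derivatives -/
theorem right_of (hg : ∀ i, Differentiable ℂ (g i)) (hne : ∀ i, ∃ s, g i s ≠ 0) {σ σ₁ : ℝ}
    {B : ℂ → ℂ} (hB : DifferentiableOn ℂ B {s | σ < s.re})
    (h1 : ∀ s : ℂ, σ₁ < s.re → (∀ i, g i s ≠ 0) → A0 w g s = B s) :
    ∀ s : ℂ, σ < s.re → mm w g s = 0 ∧ AA w g s = B s := by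
  classical
  have hU : IsOpen {s : ℂ | σ < s.re} := isOpen_lt continuous_const continuous_re
  have hUc : IsPreconnected {s : ℂ | σ < s.re} := (convex_halfSpace_re_gt σ).isPreconnected
  set P : ℂ → ℂ := fun s => ∏ i, g i s with hP
  set Q : ℂ → ℂ := fun s => ∑ i, (w i : ℂ) * deriv (g i) s * ∏ k ∈ Finset.univ.erase i, g k s with hQ
  have hPan : ∀ z, AnalyticAt ℂ P z := fun z =>
    Finset.analyticAt_fun_prod _ fun i _ => (hg i).analyticAt z
  have hQan : ∀ z, AnalyticAt ℂ Q z := fun z =>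
    Finset.analyticAt_fun_sum _ fun i _ => (analyticAt_const.mul ((hg i).analyticAt z).deriv).mul
      (Finset.analyticAt_fun_prod _ fun k _ => (hg k).analyticAt z)
  have hPQ : ∀ s, (∀ i, g i s ≠ 0) → Q s = P s * A0 w g s := by
    intro s hs
    simp only [hP, hQ, A0]
    rw [Finset.mul_sum]
    refine Finset.sum_congr rfl fun i _ => ?_
    rw [logDeriv_apply, ← Finset.mul_prod_erase Finset.univ (fun i => g i s) (Finset.mem_univ i)]
    have := hs i
    field_simp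
  have hBan : ∀ z, σ < z.re → AnalyticAt ℂ B z := fun z hz => hB.analyticAt (hU.mem_nhds hz)
  set z₀ : ℂ := ((max σ σ₁ + 1 : ℝ) : ℂ) with hz₀
  have hz₀1 : σ < z₀.re := by
    rw [hz₀, ofReal_re]
    have := le_max_left σ σ₁
    linarith
  have hz₀2 : σ₁ < z₀.re := by
    rw [hz₀, ofReal_re]
    have := le_max_right σ σ₁
    linarith
  have hEq : EqOn Q (fun s => P s * B s) {s | σ < s.re} := by
    refine AnalyticOnNhd.eqOn_of_preconnected_of_frequently_eq (z₀ := z₀) (fun z _ => hQan z)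
      (fun z hz => (hPan z).mul (hBan z hz)) hUc hz₀1 ?_
    refine Eventually.frequently ?_
    have h2 : ∀ᶠ u in 𝓝[≠] z₀, σ₁ < u.re :=
      mem_nhdsWithin_of_mem_nhds ((isOpen_lt continuous_const continuous_re).mem_nhds hz₀2)
    filter_upwards [ev_all hg hne z₀, h2] with u hu hu2
    rw [hPQ u hu, h1 u hu2 hu]
  intro s hs
  refine AA_of_eq hg hne (hBan s hs).continuousAt ?_
  have h2 : ∀ᶠ u in 𝓝[≠] s, σ < u.re := mem_nhdsWithin_of_mem_nhds (hU.mem_nhds hs)
  filter_upwards [h2] with u hu hu2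
  have h3 := hEq hu
  simp only at h3
  rw [hPQ u hu2] at h3
  exact mul_left_cancel₀ (Finset.prod_ne_zero_iff.2 fun i _ => hu2 i) h3

end

/-- the data of one L-function `N/D` -/
structure LF (S : Finset ℕ) (F : ℕ → ℕ → ℂ) (N D : ℂ → ℂ) : Prop where
  entN : Ent N
  entD : Ent D
  ld : ∀ s : ℂ, 1 < s.re → logDeriv N s - logDeriv D s = -Ds (aa S 1 F) (oo S 1) s
  fe : ∃ (μ : List ℂ) (l l' : List (ℕ × ℂ)) (q : ℝ) (ε : ℂ), 0 < q ∧ ε ≠ 0 ∧
    (∀ x ∈ l, x.1.Prime ∧ x.1 ∈ S) ∧ (∀ x ∈ l', x.1.Prime ∧ x.1 ∈ S) ∧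
    ∀ s, (q : ℂ) ^ s * gi μ (1 - s) * ef l (1 - s) * ef l' s * (N s * D (1 - s)) =
      ε * (q : ℂ) ^ (1 - s) * gi μ s * ef l s * ef l' (1 - s) * (N (1 - s) * D s)
  one : ∃ c : ℂ, c ≠ 0 ∧ Tendsto (fun s => N s / D s) (𝓝[≠] 1) (𝓝 c)

section

variable {J' : Type*} [Fintype J'] {c : J' → ℝ} {S : Finset ℕ} {F : J' → ℕ → ℕ → ℂ}
  {N D : J' → ℂ → ℂ} {M ρ : ℝ}

/-- the family of numerators and denominators -/
def gg (N D : J' → ℂ → ℂ) (x : J' × Bool) : ℂ → ℂ := if x.2 then N x.1 else D x.1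

/-- the weights -/
def ww (c : J' → ℝ) (x : J' × Bool) : ℝ := if x.2 then c x.1 else -c x.1

/-- the combination of the coefficients -/
noncomputable def GG (c : J' → ℝ) (F : J' → ℕ → ℕ → ℂ) (p k : ℕ) : ℂ := ∑ j, (c j : ℂ) * F j p k

theorem A0_gg (s : ℂ) : A0 (ww c) (gg N D) s =
    ∑ j, (c j : ℂ) * (logDeriv (N j) s - logDeriv (D j) s) := by
  unfold A0
  rw [Fintype.sum_prod_type]
  refine Finset.sum_congr rfl fun j _ => ?_
  rw [Fintype.sum_bool]
  simp only [gg, ww, if_true, Bool.false_eq_true, if_false]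
  push_cast
  ring

theorem gg_ent (h : ∀ j, LF S (F j) (N j) (D j)) (x : J' × Bool) : Ent (gg N D x) := by
  unfold gg
  split_ifs
  · exact (h x.1).entN
  · exact (h x.1).entD

theorem GG_bnd (hb : ∀ j, Bnd S (F j) M ρ) [Nonempty J'] :
    Bnd S (GG c F) ((∑ j, |c j|) * M) ρ := by
  obtain ⟨j₀⟩ := ‹Nonempty J'›
  have h0 := hb j₀
  have hM := h0.M0
  refine ⟨mul_nonneg (Finset.sum_nonneg fun j _ => abs_nonneg _) hM, h0.r1, fun p k => ?_, h0.large⟩
  unfold GG
  refine (norm_sum_le _ _).trans ?_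
  rw [mul_assoc, Finset.sum_mul]
  refine Finset.sum_le_sum fun j _ => ?_
  rw [norm_mul, Complex.norm_real, Real.norm_eq_abs]
  exact mul_le_mul_of_nonneg_left ((hb j).bd p k) (abs_nonneg _)

theorem Ds_lin {b : ℕ} (hb : ∀ j, Bnd S (F j) M ρ) {s : ℂ} (h1 : 1 / 2 ≤ s.re)
    (h2 : 1 < b * s.re) :
    ∑ j, (c j : ℂ) * Ds (aa S b (F j)) (oo S b) s = Ds (aa S b (GG c F)) (oo S b) s := by
  unfold Ds
  have h3 : ∀ j ∈ Finset.univ, (c j : ℂ) * ∑' i : PS S × ℕ, aa S b (F j) i *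
      exp (-(oo S b i : ℂ) * s) = ∑' i : PS S × ℕ, (c j : ℂ) * (aa S b (F j) i *
      exp (-(oo S b i : ℂ) * s)) := fun j _ => tsum_mul_left.symm
  rw [Finset.sum_congr rfl h3, ← Summable.tsum_finsetSum]
  · refine tsum_congr fun i => ?_
    unfold aa GG
    rw [Finset.sum_mul, Finset.sum_mul]
    exact Finset.sum_congr rfl fun j _ => by ring
  · intro j _
    exact ((hb j).summC b h1 h2).mul_left _

theorem Ds_shift {G : ℕ → ℕ → ℂ} {b : ℕ} (hb : Bnd S G M ρ) (h0 : ∀ p : PS S, G p b = 0) {s : ℂ}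
    (h1 : 1 / 2 ≤ s.re) (h2 : 1 < b * s.re) :
    Ds (aa S b G) (oo S b) s = Ds (aa S (b + 1) G) (oo S (b + 1)) s := by
  rw [hb.split b h1 h2]
  have : ∑' p : PS S, G p b * (Real.log (p : ℕ) : ℝ) *
      exp (-((b * Real.log (p : ℕ) : ℝ) : ℂ) * s) = 0 := by
    rw [← tsum_zero]
    refine tsum_congr fun p => ?_
    rw [h0 p]
    ring
  rw [this, zero_add]

theorem Ds_diffOn {G : ℕ → ℕ → ℂ} (hb : Bnd S G M ρ) :
    DifferentiableOn ℂ (Ds (aa S 2 G) (oo S 2)) {s | 1 / 2 < s.re} := by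
  intro s hs
  have hs : 1 / 2 < s.re := hs
  have h1 := Ds_hasDeriv (σ := (1 / 2 + s.re) / 2) (b := aa S 2 G) (om := oo S 2)
    (hb.summ 2 (by linarith) (by push_cast; linarith)) (fun i => oo_nonneg 2 i)
    (s := s) (by linarith)
  exact h1.differentiableAt.differentiableWithinAt

theorem right_G (h : ∀ j, LF S (F j) (N j) (D j)) (hb : ∀ j, Bnd S (F j) M ρ) [Nonempty J']
    (h0 : ∀ p : PS S, GG c F p 1 = 0) (s : ℂ) (hs : 1 / 2 < s.re) :
    mm (ww c) (gg N D) s = 0 ∧ AA (ww c) (gg N D) s = -Ds (aa S 2 (GG c F)) (oo S 2) s := by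
  have hG := GG_bnd (c := c) hb
  have h1 : DifferentiableOn ℂ (fun s => -Ds (aa S 2 (GG c F)) (oo S 2) s) {s | 1 / 2 < s.re} :=
    (Ds_diffOn hG).neg
  refine right_of (fun i => (gg_ent h i).diff) (fun i => (gg_ent h i).ne) (σ₁ := 1) h1 ?_ s hs
  intro s hs _
  rw [A0_gg]
  have h2 : ∀ j ∈ Finset.univ, (c j : ℂ) * (logDeriv (N j) s - logDeriv (D j) s) =
      -((c j : ℂ) * Ds (aa S 1 (F j)) (oo S 1) s) := by
    intro j _
    rw [(h j).ld s hs]
    ring
  rw [Finset.sum_congr rfl h2, Finset.sum_neg_distrib, Ds_lin hb (by linarith) (by simpa using hs),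
    Ds_shift hG h0 (by linarith) (by simpa using hs)]

theorem prime_pow_log {p q : ℕ} (hp : p.Prime) (hq : q.Prime) {a b : ℕ} (ha : a ≠ 0)
    (h : (a : ℝ) * Real.log p = b * Real.log q) : p = q ∧ a = b := by
  have h1 : Real.log ((p : ℝ) ^ a) = Real.log ((q : ℝ) ^ b) := by
    rw [Real.log_pow, Real.log_pow]
    exact h
  have hp0 : (0 : ℝ) < p := by exact_mod_cast hp.pos
  have hq0 : (0 : ℝ) < q := by exact_mod_cast hq.pos
  have h2 : ((p : ℝ) ^ a) = ((q : ℝ) ^ b) :=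
    Real.log_injOn_pos (by simpa using pow_pos hp0 a) (by simpa using pow_pos hq0 b) h1
  have h3 : p ^ a = q ^ b := by exact_mod_cast h2
  have h4 : p ∣ q ^ b := h3 ▸ dvd_pow_self p ha
  have h5 : p = q := (Nat.prime_dvd_prime_iff_eq hp hq).1 (hp.dvd_of_dvd_pow h4)
  refine ⟨h5, ?_⟩
  subst h5
  exact Nat.pow_right_injective hp.two_le h3

/-- the coefficients vanish -/
theorem zero_all (h : ∀ j, LF S (F j) (N j) (D j)) (hb : ∀ j, Bnd S (F j) M ρ) [Nonempty J']
    (h0 : ∀ p : PS S, GG c F p 1 = 0) (p₀ : PS S) (k₀ : ℕ) : GG c F p₀ (k₀ + 2) = 0 := by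
  classical
  have hG := GG_bnd (c := c) hb
  set MG : ℝ := (∑ j, |c j|) * M with hMG
  choose μ l l' q ε hq hε hl hl' hfe using fun j => (h j).fe
  set i₀ : PS S × ℕ := (p₀, k₀) with hi₀
  set ω : ℝ := oo S 2 i₀ with hω
  have hω0 : 0 < ω := oo_pos (by norm_num) i₀
  have hωe : ω = ((k₀ + 2 : ℕ) : ℝ) * Real.log (p₀ : ℕ) := by
    rw [hω, hi₀]
    unfold oo
    push_cast
    ring
  have hfreq : ∀ x : ℕ, x.Prime → x ∈ S → Real.log x ≠ 0 ∧ ∀ n : ℤ, ω ≠ n * Real.log x := by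
    intro x hx hxS
    have hlog : 0 < Real.log x := Real.log_pos (by exact_mod_cast hx.one_lt)
    refine ⟨hlog.ne', fun n hn => ?_⟩
    have h1 : 0 < (n : ℝ) := by
      by_contra hcon
      push Not at hcon
      have := mul_nonpos_of_nonpos_of_nonneg hcon hlog.le
      linarith
    have h2 : 0 < n := by exact_mod_cast h1
    obtain ⟨m, rfl⟩ := Int.eq_ofNat_of_zero_le h2.le
    rw [hωe] at hn
    have h3 := prime_pow_log p₀.2.1 hx (a := k₀ + 2) (b := m) (by omega) (by exact_mod_cast hn)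
    exact p₀.2.2 (h3.1 ▸ hxS)
  set H : ℂ → ℂ := fun s => ∑ j, (c j : ℂ) * HH (μ j) (l j) (l' j) (q j) s with hH
  have hT : Tame ω H := Tame.sum hω0.ne' Finset.univ fun j _ =>
    (HH_tame hω0.ne' (μ j) (q j) (fun x hx => hfreq x.1 (hl j x hx).1 (hl j x hx).2)
      (fun x hx => hfreq x.1 (hl' j x hx).1 (hl' j x hx).2)).const_mul (c j : ℂ)
  obtain ⟨η₀, hη₀, hT⟩ := hT
  set η : ℝ := min η₀ (1 / 4) / 2 with hη
  have hη1 : 0 < min η₀ (1 / 4) := lt_min hη₀ (by norm_num)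
  have hη0 : 0 < η := by positivity
  have hη2 : η < η₀ := by
    have := min_le_left η₀ (1 / 4)
    linarith
  have hη4 : η < 1 / 4 := by
    have := min_le_right η₀ (1 / 4)
    linarith
  obtain ⟨hc, hn, C1, hC1, hC1b⟩ := hT η hη0 hη2
  obtain ⟨CV, hCV0, hCV⟩ := V_bound
  have hM0 : 0 ≤ MG := hG.M0
  have hr1 := hG.r1
  have hdiff := fun i => (gg_ent h i).diff
  have hne := fun i => (gg_ent h i).ne
  set C : ℝ := 1 + C1 + MG * ρ ^ 2 * CV with hC
  have hK0 : 0 ≤ MG * ρ ^ 2 * CV := by positivity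
  have hset : Setup (ww c) (gg N D) (aa S 2 (GG c F)) (oo S 2) i₀ η H C ((MG * ρ ^ 2) ^ 2 / 4) := by
    refine ⟨gg_ent h, fun i => oo_nonneg 2 i, hω0, ?_, hη0, hη4, by linarith, ?_, ?_, ?_, hn, ?_,
      ?_, ?_⟩
    · rintro ⟨p, k⟩ hne' heq
      apply hne'
      unfold oo at heq
      have h3 := prime_pow_log p.2.1 p₀.2.1 (a := k + 2) (b := k₀ + 2) (by omega) (by
        push_cast
        simpa [hi₀] using heq)
      rw [hi₀]
      refine Prod.ext (Subtype.ext h3.1) ?_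
      have := h3.2
      simp only
      omega
    · exact hG.summ 2 (by linarith) (by push_cast; linarith)
    · exact right_G h hb h0
    · intro s hs hs2
      have hs3 : 1 / 2 < (1 - s).re := by
        rw [sub_re, one_re]
        linarith
      refine AA_of_eq (B := fun s => Ds (aa S 2 (GG c F)) (oo S 2) (1 - s) + H s) hdiff hne ?_ ?_
      · refine ContinuousAt.add ?_ (hc s hs hs2)
        have h3 : ContinuousAt (Ds (aa S 2 (GG c F)) (oo S 2)) (1 - s) :=
          ((Ds_diffOn hG).differentiableAt ((isOpen_lt continuous_const continuous_re).mem_nhds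
            hs3)).continuousAt
        exact ContinuousAt.comp (f := fun s : ℂ => 1 - s) h3 (by fun_prop)
      · have e1 : ∀ᶠ u in 𝓝[≠] s, 1 / 2 < (1 - u).re := by
          refine mem_nhdsWithin_of_mem_nhds ?_
          have : IsOpen {u : ℂ | 1 / 2 < (1 - u).re} :=
            isOpen_lt continuous_const (continuous_re.comp (continuous_const.sub continuous_id))
          exact this.mem_nhds hs3
        have e2 : ∀ᶠ u in 𝓝[≠] s, ∀ i, gg N D i (1 - u) ≠ 0 := by
          rw [eventually_all]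
          exact fun i => ev_refl (fun z => ev_ne (hdiff i) (hne i) z) s
        have e3 : ∀ᶠ u in 𝓝[≠] s, ∀ j, gi (μ j) u ≠ 0 ∧ gi (μ j) (1 - u) ≠ 0 ∧
            ef (l j) u ≠ 0 ∧ ef (l j) (1 - u) ≠ 0 ∧ ef (l' j) u ≠ 0 ∧ ef (l' j) (1 - u) ≠ 0 := by
          rw [eventually_all]
          intro j
          have a1 : ∀ z, ∀ᶠ u in 𝓝[≠] z, gi (μ j) u ≠ 0 := ev_ne (gi_diff _) (gi_ne _)
          have a2 : ∀ z, ∀ᶠ u in 𝓝[≠] z, ef (l j) u ≠ 0 := ef_ev fun x hx => (hl j x hx).1.one_lt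
          have a3 : ∀ z, ∀ᶠ u in 𝓝[≠] z, ef (l' j) u ≠ 0 := ef_ev fun x hx => (hl' j x hx).1.one_lt
          filter_upwards [a1 s, ev_refl a1 s, a2 s, ev_refl a2 s, a3 s, ev_refl a3 s] with
            u b1 b2 b3 b4 b5 b6
          exact ⟨b1, b2, b3, b4, b5, b6⟩
        filter_upwards [e1, e2, e3] with u h1 h2 h3 h4
        have h5 : A0 (ww c) (gg N D) (1 - u) = -Ds (aa S 2 (GG c F)) (oo S 2) (1 - u) := by
          rw [← AA_eq hdiff hne h2]
          exact (right_G h hb h0 (1 - u) h1).2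
        have h6 : A0 (ww c) (gg N D) u = -A0 (ww c) (gg N D) (1 - u) + H u := by
          rw [A0_gg, A0_gg, hH, ← Finset.sum_neg_distrib, ← Finset.sum_add_distrib]
          refine Finset.sum_congr rfl fun j _ => ?_
          obtain ⟨b1, b2, b3, b4, b5, b6⟩ := h3 j
          have t1 := h4 (j, true)
          have t2 := h4 (j, false)
          have t3 := h2 (j, true)
          have t4 := h2 (j, false)
          simp only [gg, if_true, Bool.false_eq_true, if_false] at t1 t2 t3 t4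
          rw [fe_ld (h j).entN.diff (h j).entD.diff (hq j) (hε j)
            (fun x hx => (hl j x hx).1.ne_zero) (fun x hx => (hl' j x hx).1.ne_zero) (hfe j)
            t1 t3 t2 t4 b1 b2 b3 b4 b5 b6]
          ring
        rw [h6, h5, neg_neg]
    · intro s hs hs2
      have h1 := hG.norm_le 2 (s := s) hs.le (by push_cast; linarith)
      refine h1.trans ?_
      have h2 : ((2 : ℕ) : ℝ) * s.re = 2 * s.re := by push_cast; ring
      have h3 := hCV (2 * s.re) (by linarith) (by linarith)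
      have h4 : 0 < s.re - 1 / 2 := by linarith
      rw [h2]
      calc 2 * (MG * ρ ^ 2) * ∑' n : ℕ, Λ n * (n : ℝ) ^ (-(2 * s.re)) ≤
          2 * (MG * ρ ^ 2) * (CV / (2 * s.re - 1)) := by gcongr
        _ = (MG * ρ ^ 2 * CV) / (s.re - 1 / 2) := by
            have : 2 * s.re - 1 = 2 * (s.re - 1 / 2) := by ring
            rw [this]
            field_simp
        _ ≤ C / (s.re - 1 / 2) := by
            gcongr
            linarith
    · intro s hs hs2 hs3
      refine (hC1b s hs hs2 (by linarith)).trans ?_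
      have h4 : 0 < 1 / 2 - s.re := by linarith
      gcongr
      linarith
    · exact fun Z hZ => hG.sq_bound hdiff hne (fun s hs => (right_G h hb h0 s hs).2) Z hZ
  have hz := hset.zero
  unfold aa at hz
  have hlog : ((Real.log (p₀ : ℕ) : ℝ) : ℂ) ≠ 0 := by exact_mod_cast p₀.log_pos.ne'
  exact (mul_eq_zero.1 hz).resolve_right hlog

end

end Pool.Agent.N210.FV
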