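import Pool.Agent.N210.FV.Lg

/-!
# Zeros of entire functions of order less than two: their number, and heights far from them

`factor` and `count_zeros` are taken from the starting file `Pool/Agent/TH735/FO/Jen.lean`.
-/

set_option autoImplicit false

namespace Pool.Agent.N210.FV

open Set Filter Topology Complex Metric

/-- `g` is entire, not identically zero, and of order at most `3/2`. -/
structure Ent (g : ℂ → ℂ) : Prop where
  diff : Differentiable ℂ g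
  ne : ∃ s, g s ≠ 0
  grow : ∃ C : ℝ, ∀ s, ‖g s‖ ≤ Real.exp (C * (1 + ‖s‖) ^ (3 / 2 : ℝ))

theorem factor {g : ℂ → ℂ} (hg : Differentiable ℂ g) (F : Finset ℂ) (hF : ∀ a ∈ F, g a = 0) :
    ∃ h : ℂ → ℂ, Differentiable ℂ h ∧ ∀ x, g x = (∏ a ∈ F, (x - a)) * h x := by
  classical
  induction F using Finset.induction_on with
  | empty => exact ⟨g, hg, fun x => by simp⟩
  | insert a F ha ih =>
    obtain ⟨h, hh, hgh⟩ := ih fun b hb => hF b (Finset.mem_insert_of_mem hb)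
    have h0 : h a = 0 := by
      have h1 := hF a (Finset.mem_insert_self a F)
      rw [hgh a] at h1
      rcases mul_eq_zero.1 h1 with h2 | h2
      · exfalso
        rw [Finset.prod_eq_zero_iff] at h2
        obtain ⟨b, hb, hab⟩ := h2
        rw [sub_eq_zero] at hab
        exact ha (hab ▸ hb)
      · exact h2
    refine ⟨dslope h a, ?_, ?_⟩
    · rw [← differentiableOn_univ]
      rw [Complex.differentiableOn_dslope Filter.univ_mem]
      exact hh.differentiableOn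
    · intro x
      rw [hgh x, Finset.prod_insert ha]
      by_cases hx : x = a
      · rw [hx, h0]
        simp
      · rw [dslope_of_ne _ hx, slope_def_field, h0, sub_zero]
        have : x - a ≠ 0 := sub_ne_zero.2 hx
        field_simp

theorem count_zeros {g : ℂ → ℂ} (hg : Differentiable ℂ g) {r A : ℝ} (hr : 0 < r)
    (hA : ∀ x, ‖x‖ ≤ 4 * r → ‖g x‖ ≤ Real.exp A) (h0 : g 0 ≠ 0) {F : Finset ℂ}
    (hF : ∀ a ∈ F, g a = 0 ∧ ‖a‖ ≤ r) : (F.card : ℝ) ≤ A - Real.log ‖g 0‖ := by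
  obtain ⟨h, hh, hgh⟩ := factor hg F fun a ha => (hF a ha).1
  have hbound : ‖h 0‖ ≤ Real.exp A / (3 * r) ^ F.card := by
    have hd : DiffContOnCl ℂ h (ball 0 (4 * r)) := hh.diffContOnCl
    refine Complex.norm_le_of_forall_mem_frontier_norm_le (U := ball 0 (4 * r)) isBounded_ball hd ?_
      (subset_closure (mem_ball_self (by positivity)))
    intro z hz
    rw [frontier_ball _ (by positivity), mem_sphere_zero_iff_norm] at hz
    have h1 := hA z hz.le
    rw [hgh z, norm_mul, norm_prod] at h1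
    have h2 : (3 * r) ^ F.card ≤ ∏ a ∈ F, ‖z - a‖ := by
      rw [← Finset.prod_const]
      refine Finset.prod_le_prod (fun _ _ => by positivity) fun a ha => ?_
      have := norm_sub_norm_le z a
      have h3 := (hF a ha).2
      linarith
    rw [le_div_iff₀ (by positivity)]
    calc ‖h z‖ * (3 * r) ^ F.card ≤ ‖h z‖ * ∏ a ∈ F, ‖z - a‖ := by gcongr
      _ = (∏ a ∈ F, ‖z - a‖) * ‖h z‖ := mul_comm _ _
      _ ≤ Real.exp A := h1
  have hg0 : ‖g 0‖ ≤ r ^ F.card * (Real.exp A / (3 * r) ^ F.card) := by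
    rw [hgh 0, norm_mul, norm_prod]
    have h2 : ∏ a ∈ F, ‖0 - a‖ ≤ r ^ F.card := by
      rw [← Finset.prod_const]
      refine Finset.prod_le_prod (fun _ _ => norm_nonneg _) fun a ha => ?_
      rw [zero_sub, norm_neg]
      exact (hF a ha).2
    gcongr
  have hg0pos : 0 < ‖g 0‖ := norm_pos_iff.2 h0
  have h3 : ‖g 0‖ * 3 ^ F.card ≤ Real.exp A := by
    calc ‖g 0‖ * 3 ^ F.card ≤ r ^ F.card * (Real.exp A / (3 * r) ^ F.card) * 3 ^ F.card := by gcongr
      _ = Real.exp A := by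
        rw [mul_pow]
        field_simp
  have h4 := Real.log_le_log (by positivity) h3
  rw [Real.log_exp, Real.log_mul hg0pos.ne' (by positivity), Real.log_pow] at h4
  have h5 : (1 : ℝ) ≤ Real.log 3 := by
    rw [Real.le_log_iff_exp_le (by norm_num)]
    have := Real.exp_one_lt_d9
    linarith
  have h6 : (F.card : ℝ) ≤ F.card * Real.log 3 := by
    have : (0 : ℝ) ≤ F.card := Nat.cast_nonneg _
    nlinarith
  linarith

theorem Ent.cnt {g : ℂ → ℂ} (h : Ent g) : ∃ C : ℝ, 0 ≤ C ∧ ∀ R : ℝ, 1 ≤ R → ∀ F : Finset ℂ,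
    (∀ a ∈ F, g a = 0 ∧ ‖a‖ ≤ R) → (F.card : ℝ) ≤ C * R ^ (3 / 2 : ℝ) := by
  classical
  obtain ⟨s₀, hs₀⟩ := h.ne
  obtain ⟨C, hC⟩ := h.grow
  set b : ℝ := 6 * (1 + ‖s₀‖) with hb
  have hb0 : 0 ≤ b := by positivity
  refine ⟨|C| * b ^ (3 / 2 : ℝ) + |Real.log ‖g s₀‖|, by positivity, fun R hR F hF => ?_⟩
  have hR1 : (1 : ℝ) ≤ R ^ (3 / 2 : ℝ) := Real.one_le_rpow hR (by norm_num)
  have h1 := count_zeros (g := fun x => g (x + s₀)) (h.diff.comp (by fun_prop)) (r := R + ‖s₀‖)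
    (A := |C| * b ^ (3 / 2 : ℝ) * R ^ (3 / 2 : ℝ)) (by positivity) (by
      intro x hx
      refine (hC _).trans (Real.exp_le_exp.2 ?_)
      have h2 : 1 + ‖x + s₀‖ ≤ b * R := by
        have h3 := norm_add_le x s₀
        have h4 : 0 ≤ ‖s₀‖ := norm_nonneg _
        have h5 : ‖s₀‖ ≤ ‖s₀‖ * R := le_mul_of_one_le_right h4 hR
        rw [hb]
        nlinarith
      calc C * (1 + ‖x + s₀‖) ^ (3 / 2 : ℝ) ≤ |C| * (1 + ‖x + s₀‖) ^ (3 / 2 : ℝ) := by
            gcongr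
            exact le_abs_self C
        _ ≤ |C| * (b * R) ^ (3 / 2 : ℝ) := by gcongr
        _ = |C| * b ^ (3 / 2 : ℝ) * R ^ (3 / 2 : ℝ) := by
            rw [Real.mul_rpow hb0 (by linarith)]
            ring) (by simpa using hs₀) (F := F.image fun a => a - s₀) (by
      intro a ha
      rw [Finset.mem_image] at ha
      obtain ⟨c, hc, rfl⟩ := ha
      refine ⟨by simpa using (hF c hc).1, ?_⟩
      have := norm_sub_le c s₀
      have := (hF c hc).2
      linarith)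
  rw [Finset.card_image_of_injective _ (sub_left_injective (b := s₀))] at h1
  simp only [zero_add] at h1
  have h6 : -Real.log ‖g s₀‖ ≤ |Real.log ‖g s₀‖| * R ^ (3 / 2 : ℝ) := by
    have := neg_le_abs (Real.log ‖g s₀‖)
    have h7 : 0 ≤ |Real.log ‖g s₀‖| := abs_nonneg _
    nlinarith
  rw [add_mul]
  linarith

theorem pigeon (F : Finset ℝ) (a : ℝ) :
    ∃ y : ℝ, a ≤ y ∧ y ≤ a + 1 ∧ ∀ f ∈ F, 1 / (2 * ((F.card : ℝ) + 1)) ≤ |f - y| := by
  by_contra hcon
  push Not at hcon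
  set n := F.card with hn
  have hn1 : (0 : ℝ) < (n : ℝ) + 1 := by positivity
  have h1 : ∀ k : Fin (n + 1), ∃ f ∈ F,
      |f - (a + (2 * (k : ℝ) + 1) / (2 * ((n : ℝ) + 1)))| < 1 / (2 * ((n : ℝ) + 1)) := by
    intro k
    have hk : (k : ℝ) ≤ n := by exact_mod_cast Nat.lt_succ_iff.1 k.2
    refine hcon _ ?_ ?_
    · have : 0 ≤ (2 * (k : ℝ) + 1) / (2 * ((n : ℝ) + 1)) := by positivity
      linarith
    · have : (2 * (k : ℝ) + 1) / (2 * ((n : ℝ) + 1)) ≤ 1 := by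
        rw [div_le_one (by positivity)]
        linarith
      linarith
  choose f hf1 hf2 using h1
  have h2 : ∃ x ∈ (Finset.univ : Finset (Fin (n + 1))), ∃ y ∈ (Finset.univ : Finset (Fin (n + 1))),
      x ≠ y ∧ f x = f y :=
    Finset.exists_ne_map_eq_of_card_lt_of_maps_to (t := F) (by simp [← hn])
      (fun k _ => hf1 k)
  obtain ⟨x, -, y, -, hxy, hfe⟩ := h2
  have h3 := hf2 x
  have h4 := hf2 y
  rw [hfe, abs_lt] at h3
  rw [abs_lt] at h4
  have h5 : (1 : ℝ) ≤ |(x : ℝ) - y| := by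
    have h6 : (x : ℤ) - y ≠ 0 := by
      intro h
      apply hxy
      apply Fin.ext
      have : (x : ℤ) = y := by linarith
      exact_mod_cast this
    have h7 : (1 : ℤ) ≤ |(x : ℤ) - y| := Int.one_le_abs h6
    exact_mod_cast h7
  have e1 : (2 * (x : ℝ) + 1) / (2 * ((n : ℝ) + 1)) = x * (2 * (1 / (2 * ((n : ℝ) + 1)))) +
      1 / (2 * ((n : ℝ) + 1)) := by
    field_simp
  have e2 : (2 * (y : ℝ) + 1) / (2 * ((n : ℝ) + 1)) = y * (2 * (1 / (2 * ((n : ℝ) + 1)))) +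
      1 / (2 * ((n : ℝ) + 1)) := by
    field_simp
  rw [e1] at h3
  rw [e2] at h4
  set r : ℝ := 1 / (2 * ((n : ℝ) + 1)) with hr
  have hr0 : 0 < r := by positivity
  rcases le_abs.1 h5 with h6 | h6 <;> nlinarith [h3.1, h3.2, h4.1, h4.2]

theorem finite_of_card {s : Set ℂ} {B : ℝ} (h : ∀ F : Finset ℂ, (↑F : Set ℂ) ⊆ s → (F.card : ℝ) ≤ B) :
    s.Finite := by
  by_contra hinf
  obtain ⟨F, hF, hc⟩ := (Set.not_finite.1 hinf).exists_subset_card_eq (⌈B⌉₊ + 1)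
  have h1 := h F hF
  rw [hc] at h1
  push_cast at h1
  have h2 := Nat.le_ceil B
  linarith

theorem zeros_finset {I : Type*} [Fintype I] {g : I → ℂ → ℂ} (h : ∀ i, Ent (g i)) :
    ∃ C : ℝ, 0 ≤ C ∧ ∀ R : ℝ, 1 ≤ R → ∃ F : Finset ℂ, (F.card : ℝ) ≤ C * R ^ (3 / 2 : ℝ) ∧
      ∀ z, z ∈ F ↔ (∃ i, g i z = 0) ∧ ‖z‖ ≤ R := by
  classical
  choose C hC0 hC using fun i => (h i).cnt
  refine ⟨∑ i, C i, Finset.sum_nonneg fun i _ => hC0 i, fun R hR => ?_⟩
  have h1 : ∀ i, {z : ℂ | g i z = 0 ∧ ‖z‖ ≤ R}.Finite := fun i =>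
    finite_of_card (B := C i * R ^ (3 / 2 : ℝ)) fun F hF => hC i R hR F fun a ha => hF ha
  refine ⟨Finset.univ.biUnion fun i => (h1 i).toFinset, ?_, ?_⟩
  · have h2 : ((Finset.univ.biUnion fun i => (h1 i).toFinset).card : ℝ) ≤
        ∑ i, ((h1 i).toFinset.card : ℝ) := by exact_mod_cast Finset.card_biUnion_le
    refine h2.trans ?_
    rw [Finset.sum_mul]
    exact Finset.sum_le_sum fun i _ => hC i R hR _ fun a ha => by simpa using ha
  · intro z
    simp only [Finset.mem_biUnion, Finset.mem_univ, true_and, Set.Finite.mem_toFinset,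
      Set.mem_setOf_eq]
    constructor
    · rintro ⟨i, h2, h3⟩
      exact ⟨⟨i, h2⟩, h3⟩
    · rintro ⟨⟨i, h2⟩, h3⟩
      exact ⟨i, h2, h3⟩

/-- heights far from all zeros -/
theorem height {I : Type*} [Fintype I] {g : I → ℂ → ℂ} (h : ∀ i, Ent (g i)) :
    ∃ c : ℝ, 0 < c ∧ c ≤ 1 ∧ ∀ R : ℝ, 1 ≤ R → ∃ Y : ℝ, R ≤ Y ∧ Y ≤ R + 1 ∧ ∀ z : ℂ, (∃ i, g i z = 0) →
      |z.re| ≤ 2 → c / R ^ (3 / 2 : ℝ) ≤ |(|z.im|) - Y| := by
  classical
  obtain ⟨C, hC0, hC⟩ := zeros_finset h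
  set K : ℝ := C * 8 ^ (3 / 2 : ℝ) + 1 with hK
  have hK1 : 1 ≤ K := by
    have : 0 ≤ C * 8 ^ (3 / 2 : ℝ) := by positivity
    linarith
  refine ⟨1 / (2 * K), by positivity, ?_, fun R hR => ?_⟩
  · rw [div_le_one (by positivity)]
    linarith
  obtain ⟨F, hF1, hF2⟩ := hC (R + 5) (by linarith)
  obtain ⟨Y, hY1, hY2, hY3⟩ := pigeon (F.image fun z => |z.im|) R
  refine ⟨Y, hY1, hY2, fun z hz hz2 => ?_⟩
  have hR1 : (1 : ℝ) ≤ R ^ (3 / 2 : ℝ) := Real.one_le_rpow hR (by norm_num)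
  have h1 : ((F.image fun z => |z.im|).card : ℝ) + 1 ≤ K * R ^ (3 / 2 : ℝ) := by
    have h2 : ((F.image fun z => |z.im|).card : ℝ) ≤ F.card := by
      exact_mod_cast Finset.card_image_le
    have h3 : (R + 5) ^ (3 / 2 : ℝ) ≤ 8 ^ (3 / 2 : ℝ) * R ^ (3 / 2 : ℝ) := by
      rw [← Real.mul_rpow (by norm_num) (by linarith)]
      gcongr
      linarith
    calc ((F.image fun z => |z.im|).card : ℝ) + 1 ≤ C * (R + 5) ^ (3 / 2 : ℝ) + 1 := by linarith
      _ ≤ C * (8 ^ (3 / 2 : ℝ) * R ^ (3 / 2 : ℝ)) + R ^ (3 / 2 : ℝ) := by gcongr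
      _ = K * R ^ (3 / 2 : ℝ) := by rw [hK]; ring
  by_cases hz3 : |z.im| ≤ R + 3
  · have hmem : z ∈ F := by
      rw [hF2]
      refine ⟨hz, ?_⟩
      have := Complex.norm_le_abs_re_add_abs_im z
      linarith
    have h4 := hY3 _ (Finset.mem_image_of_mem (fun z : ℂ => |z.im|) hmem)
    refine le_trans ?_ h4
    rw [div_div]
    apply one_div_le_one_div_of_le (by positivity)
    nlinarith
  · push Not at hz3
    have h5 : 1 ≤ |(|z.im|) - Y| := by
      rw [abs_of_nonneg (by linarith)]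
      linarith
    refine le_trans ?_ h5
    rw [div_div, div_le_one (by positivity)]
    nlinarith

end Pool.Agent.N210.FV
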