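import Pool.Agent.N210.FV.Poly

/-!
# Sets of at most four traces closed under powers
-/

set_option autoImplicit false

namespace Pool.Agent.N210.FV

open Complex Set

variable {u v : ℂ} {W : Finset ℝ}

theorem val_eq (hu : u ≠ 0) (hv : v ≠ 0) (h : zz u = zz v) : u = v ∨ u * v = 1 := by
  unfold zz at h
  have h1 : (u - v) * (u * v - 1) = 0 := by
    field_simp at h
    linear_combination h
  rcases mul_eq_zero.1 h1 with h2 | h2
  · exact Or.inl (sub_eq_zero.1 h2)
  · exact Or.inr (sub_eq_zero.1 h2)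

theorem zz_one : zz 1 = 2 := by
  unfold zz
  norm_num

/-- all the powers of `u` have their trace in `W` -/
structure Cl (W : Finset ℝ) (u : ℂ) : Prop where
  ne : u ≠ 0
  val : ∀ k : ℕ, 1 ≤ k → ∃ w ∈ W, zz (u ^ k) = (w : ℂ)

theorem Cl.pos (hW : W.card ≤ 4) (h : Cl W u) : 0 < orderOf u := by
  classical
  rw [orderOf_pos_iff, isOfFinOrder_iff_pow_eq_one]
  choose! f hf1 hf2 using h.val
  obtain ⟨a, ha, b, hb, hab, hfab⟩ := Finset.exists_ne_map_eq_of_card_lt_of_maps_to
    (s := Finset.Icc 1 5) (t := W) (f := f) (by rw [Nat.card_Icc]; omega)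
    (fun k hk => hf1 k (Finset.mem_Icc.1 hk).1)
  rw [Finset.mem_Icc] at ha hb
  have h1 : zz (u ^ a) = zz (u ^ b) := by rw [hf2 a ha.1, hf2 b hb.1, hfab]
  rcases val_eq (pow_ne_zero _ h.ne) (pow_ne_zero _ h.ne) h1 with h2 | h2
  · rcases lt_or_gt_of_ne hab with h3 | h3
    · refine ⟨b - a, by omega, ?_⟩
      have h4 : u ^ a * u ^ (b - a) = u ^ a * 1 := by
        rw [← pow_add, Nat.add_sub_cancel' h3.le, mul_one, h2]
      exact mul_left_cancel₀ (pow_ne_zero _ h.ne) h4
    · refine ⟨a - b, by omega, ?_⟩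
      have h4 : u ^ b * u ^ (a - b) = u ^ b * 1 := by
        rw [← pow_add, Nat.add_sub_cancel' h3.le, mul_one, h2]
      exact mul_left_cancel₀ (pow_ne_zero _ h.ne) h4
  · exact ⟨a + b, by omega, by rw [pow_add, h2]⟩

theorem Cl.inj (h : Cl W u) {i j : ℕ} (hi : i ≤ orderOf u / 2) (hj : j ≤ orderOf u / 2)
    (hn : 0 < orderOf u) (he : zz (u ^ i) = zz (u ^ j)) : i = j := by
  by_contra hij
  have h1 : i < orderOf u ∧ j < orderOf u ∧ i + j < orderOf u := by omega
  rcases val_eq (pow_ne_zero _ h.ne) (pow_ne_zero _ h.ne) he with h2 | h2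
  · exact hij (pow_injOn_Iio_orderOf h1.1 h1.2.1 h2)
  · rw [← pow_add] at h2
    exact pow_ne_one_of_lt_orderOf (by omega) h1.2.2 h2

theorem Cl.val' (h : Cl W u) (hn : 0 < orderOf u) (k : ℕ) :
    (zz (u ^ k)).re ∈ W ∧ (((zz (u ^ k)).re : ℝ) : ℂ) = zz (u ^ k) := by
  rcases Nat.eq_zero_or_pos k with h0 | h0
  · obtain ⟨w, hw, he⟩ := h.val (orderOf u) hn
    rw [pow_orderOf_eq_one] at he
    rw [h0, pow_zero, he, ofReal_re]
    exact ⟨hw, rfl⟩
  · obtain ⟨w, hw, he⟩ := h.val k h0
    rw [he, ofReal_re]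
    exact ⟨hw, rfl⟩

/-- the set of traces of the powers -/
noncomputable def TT (u : ℂ) : Finset ℝ :=
  open Classical in (Finset.range (orderOf u / 2 + 1)).image fun i => (zz (u ^ i)).re

theorem Cl.TT_sub (h : Cl W u) (hn : 0 < orderOf u) : TT u ⊆ W := by
  classical
  intro w hw
  unfold TT at hw
  rw [Finset.mem_image] at hw
  obtain ⟨i, -, rfl⟩ := hw
  exact (h.val' hn i).1

theorem Cl.TT_card (h : Cl W u) (hn : 0 < orderOf u) : (TT u).card = orderOf u / 2 + 1 := by
  classical
  unfold TT
  rw [Finset.card_image_of_injOn, Finset.card_range]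
  intro i hi j hj hij
  simp only [Finset.coe_range, Set.mem_Iio] at hi hj
  refine h.inj (by omega) (by omega) hn ?_
  rw [← (h.val' hn i).2, ← (h.val' hn j).2]
  exact congrArg _ hij

theorem Cl.le_seven (hW : W.card ≤ 4) (h : Cl W u) : orderOf u ≤ 7 := by
  have hn := h.pos hW
  have h1 := Finset.card_le_card (h.TT_sub hn)
  rw [h.TT_card hn] at h1
  omega

theorem mem_TT {w : ℝ} (hw : w ∈ TT u) : ∃ i ≤ orderOf u / 2, w = (zz (u ^ i)).re := by
  classical
  unfold TT at hw
  rw [Finset.mem_image] at hw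
  obtain ⟨i, hi, rfl⟩ := hw
  rw [Finset.mem_range] at hi
  exact ⟨i, by omega, rfl⟩

theorem Cl.pow_eq (hW : W.card ≤ 4) (h : Cl W u) (hn : 6 ≤ orderOf u) (hv : Cl W v) :
    v ^ orderOf u = 1 := by
  have hn0 : 0 < orderOf u := by omega
  have h1 : TT u = W := by
    refine Finset.eq_of_subset_of_card_le (h.TT_sub hn0) ?_
    rw [h.TT_card hn0]
    omega
  obtain ⟨w, hw, he⟩ := hv.val 1 le_rfl
  rw [pow_one] at he
  rw [← h1] at hw
  obtain ⟨i, -, rfl⟩ := mem_TT hw
  rw [(h.val' hn0 i).2] at he
  rcases val_eq hv.ne (pow_ne_zero _ h.ne) he with h2 | h2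
  · rw [h2, ← pow_mul, mul_comm, pow_mul, pow_orderOf_eq_one, one_pow]
  · have h3 : v ^ orderOf u * (u ^ i) ^ orderOf u = 1 := by rw [← mul_pow, h2, one_pow]
    rwa [← pow_mul, mul_comm i, pow_mul, pow_orderOf_eq_one, one_pow, mul_one] at h3

theorem ord_one (h : orderOf u = 1) : zz u = 2 := by
  rw [orderOf_eq_one_iff] at h
  rw [h, zz_one]

theorem sq_one (h1 : u ^ 2 = 1) (h2 : u ≠ 1) : zz u = -2 := by
  have h3 : (u - 1) * (u + 1) = 0 := by linear_combination h1
  rcases mul_eq_zero.1 h3 with h4 | h4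
  · exact absurd (sub_eq_zero.1 h4) h2
  · have : u = -1 := by linear_combination h4
    rw [this]
    unfold zz
    norm_num

theorem ord_two (h : orderOf u = 2) : zz u = -2 := by
  refine sq_one (by rw [← h]; exact pow_orderOf_eq_one u) fun h1 => ?_
  rw [h1, orderOf_one] at h
  omega

theorem ord_three (h : orderOf u = 3) : zz u = -1 := by
  have h1 : u ^ 3 = 1 := by rw [← h]; exact pow_orderOf_eq_one u
  have h2 : u ≠ 1 := fun h1 => by
    rw [h1, orderOf_one] at h
    omega
  have hu : u ≠ 0 := by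
    rintro rfl
    norm_num at h1
  have h3 : (u - 1) * (u ^ 2 + u + 1) = 0 := by linear_combination h1
  have h4 : u ^ 2 + u + 1 = 0 := (mul_eq_zero.1 h3).resolve_left (sub_ne_zero.2 h2)
  unfold zz
  field_simp
  linear_combination h4

theorem ord_four (h : orderOf u = 4) : zz u = 0 ∧ zz (u ^ 2) = -2 := by
  have h1 : u ^ 4 = 1 := by rw [← h]; exact pow_orderOf_eq_one u
  have h2 : u ^ 2 ≠ 1 := pow_ne_one_of_lt_orderOf (by norm_num) (by omega)
  have hu : u ≠ 0 := by
    rintro rfl
    norm_num at h1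
  have h3 : (u ^ 2 - 1) * (u ^ 2 + 1) = 0 := by linear_combination h1
  have h4 : u ^ 2 + 1 = 0 := (mul_eq_zero.1 h3).resolve_left (sub_ne_zero.2 h2)
  refine ⟨?_, sq_one (by rw [← pow_mul]; exact h1) h2⟩
  unfold zz
  field_simp
  linear_combination h4

theorem five_rel (h1 : u ^ 5 = 1) (h2 : u ≠ 1) : zz u ^ 2 + zz u - 1 = 0 := by
  have hu : u ≠ 0 := by
    rintro rfl
    norm_num at h1
  have h3 : (u - 1) * (u ^ 4 + u ^ 3 + u ^ 2 + u + 1) = 0 := by linear_combination h1
  have h4 : u ^ 4 + u ^ 3 + u ^ 2 + u + 1 = 0 := (mul_eq_zero.1 h3).resolve_left (sub_ne_zero.2 h2)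
  unfold zz
  field_simp
  linear_combination h4

/-- the coefficient of the trivial character -/
def c0 (a : Fin 5 → ℝ) : ℝ := a 0 - a 1 + 2 * a 2 - 3 * a 3 + 6 * a 4

theorem dicho {ι : Type*} (hW : W.card ≤ 4) (t : ι → ℂ) (h : ∀ p, Cl W (t p)) :
    (∀ p, t p ^ 6 = 1) ∨ (∀ p, t p ^ 7 = 1) ∨
      ∃ a : Fin 5 → ℝ, c0 a ≠ 0 ∧ ∀ p, PP a (zz (t p)) = 0 := by
  classical
  by_cases h6 : ∃ p, 6 ≤ orderOf (t p)
  · obtain ⟨p, hp⟩ := h6
    have h7 := (h p).le_seven hW
    have h8 : ∀ q, t q ^ orderOf (t p) = 1 := fun q => (h p).pow_eq hW hp (h q)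
    rcases (by omega : orderOf (t p) = 6 ∨ orderOf (t p) = 7) with h9 | h9
    · rw [h9] at h8
      exact Or.inl h8
    · rw [h9] at h8
      exact Or.inr (Or.inl h8)
  push Not at h6
  refine Or.inr (Or.inr ?_)
  have hcase : ∀ p, orderOf (t p) = 1 ∨ orderOf (t p) = 2 ∨ orderOf (t p) = 3 ∨
      orderOf (t p) = 4 ∨ orderOf (t p) = 5 := by
    intro p
    have h1 := (h p).pos hW
    have h2 := h6 p
    omega
  have h5r : ∀ p, orderOf (t p) = 5 → zz (t p) ^ 2 + zz (t p) - 1 = 0 := by
    intro p hp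
    refine five_rel (by rw [← hp]; exact pow_orderOf_eq_one _) fun h1 => ?_
    rw [h1, orderOf_one] at hp
    omega
  by_cases h5 : ∃ p, orderOf (t p) = 5
  · obtain ⟨p, hp⟩ := h5
    by_cases hm : (-2 : ℝ) ∈ W
    · refine ⟨![4, -4, -5, 1, 1], ?_, fun q => ?_⟩
      · unfold c0
        simp only [Matrix.cons_val_zero, Matrix.cons_val_one, Matrix.cons_val]
        norm_num
      · have hn0 : 0 < orderOf (t p) := by omega
        have hTT : ∀ w ∈ TT (t p), (w : ℂ) = 2 ∨ (w : ℂ) ^ 2 + w - 1 = 0 := by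
          intro w hw
          obtain ⟨i, hi, rfl⟩ := mem_TT hw
          rw [((h p).val' hn0 i).2]
          rcases Nat.eq_zero_or_pos i with h0 | h0
          · left
            rw [h0, pow_zero, zz_one]
          · right
            refine five_rel ?_ ?_
            · rw [← pow_mul, mul_comm, pow_mul, ← hp, pow_orderOf_eq_one, one_pow]
            · exact pow_ne_one_of_lt_orderOf (by omega) (by omega)
        have hnot : (-2 : ℝ) ∉ TT (t p) := by
          intro h1
          rcases hTT _ h1 with h2 | h2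
          · push_cast at h2
            norm_num at h2
          · push_cast at h2
            norm_num at h2
        have hW2 : insert (-2 : ℝ) (TT (t p)) = W := by
          refine Finset.eq_of_subset_of_card_le ?_ ?_
          · intro w hw
            rcases Finset.mem_insert.1 hw with h1 | h1
            · rw [h1]
              exact hm
            · exact (h p).TT_sub hn0 h1
          · rw [Finset.card_insert_of_notMem hnot, (h p).TT_card hn0, hp]
            omega
        obtain ⟨w, hw, he⟩ := (h q).val 1 le_rfl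
        rw [pow_one] at he
        rw [he]
        rw [← hW2] at hw
        unfold PP
        simp only [Matrix.cons_val_zero, Matrix.cons_val_one, Matrix.cons_val]
        rcases Finset.mem_insert.1 hw with h1 | h1
        · rw [h1]
          push_cast
          norm_num
        · rcases hTT w h1 with h2 | h2
          · rw [h2]
            push_cast
            norm_num
          · push_cast
            linear_combination ((w : ℂ) ^ 2 - 4) * h2
    · refine ⟨![2, -1, -4, 0, 1], ?_, fun q => ?_⟩
      · unfold c0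
        simp only [Matrix.cons_val_zero, Matrix.cons_val_one, Matrix.cons_val]
        norm_num
      · have hn2 : ∀ k, 1 ≤ k → zz (t q ^ k) ≠ -2 := by
          intro k hk h1
          obtain ⟨w, hw, he⟩ := (h q).val k hk
          rw [h1] at he
          have h2 : w = -2 := by
            have : ((w : ℝ) : ℂ) = ((-2 : ℝ) : ℂ) := by rw [← he]; push_cast; rfl
            exact_mod_cast this
          rw [h2] at hw
          exact hm hw
        unfold PP
        simp only [Matrix.cons_val_zero, Matrix.cons_val_one, Matrix.cons_val]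
        rcases hcase q with h1 | h1 | h1 | h1 | h1
        · rw [ord_one h1]
          push_cast
          norm_num
        · exact absurd (by rw [pow_one]; exact ord_two h1) (hn2 1 le_rfl)
        · rw [ord_three h1]
          push_cast
          norm_num
        · exact absurd (ord_four h1).2 (hn2 2 (by norm_num))
        · have h2 := h5r q h1
          push_cast
          linear_combination (zz (t q) ^ 2 - zz (t q) - 2) * h2
  · push Not at h5
    refine ⟨![0, -4, -4, 1, 1], ?_, fun q => ?_⟩
    · unfold c0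
      simp only [Matrix.cons_val_zero, Matrix.cons_val_one, Matrix.cons_val]
      norm_num
    · unfold PP
      simp only [Matrix.cons_val_zero, Matrix.cons_val_one, Matrix.cons_val]
      rcases hcase q with h1 | h1 | h1 | h1 | h1
      · rw [ord_one h1]
        push_cast
        norm_num
      · rw [ord_two h1]
        push_cast
        norm_num
      · rw [ord_three h1]
        push_cast
        norm_num
      · rw [(ord_four h1).1]
        push_cast
        norm_num
      · exact absurd h1 (h5 q)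

end Pool.Agent.N210.FV
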