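import Mathlib

/-!
# Bounding a function near a line
-/

set_option autoImplicit false

namespace Pool.Agent.N210.FV

open Filter Topology Complex Metric Set

theorem norm_sq_add {w : ℂ} {r : ℝ} (hw : ‖w‖ = r) : ‖w ^ 2 + (r : ℂ) ^ 2‖ = 2 * r * |w.re| := by
  have h1 : (r : ℂ) ^ 2 = w * (starRingEnd ℂ) w := by
    rw [Complex.mul_conj, Complex.normSq_eq_norm_sq, hw]
    push_cast
    rfl
  have h2 : w ^ 2 + (r : ℂ) ^ 2 = w * (2 * (w.re : ℂ)) := by
    rw [h1, pow_two, ← mul_add, Complex.add_conj]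
    push_cast
    rfl
  rw [h2, norm_mul, norm_mul, Complex.norm_real, hw, Real.norm_eq_abs]
  norm_num
  ring

theorem disc {f : ℂ → ℂ} {c : ℂ} {r M : ℝ} (hr : 0 < r)
    (hf : ∀ z ∈ closedBall c r, DifferentiableAt ℂ f z) (hM : 0 ≤ M)
    (hb : ∀ z ∈ closedBall c r, z.re ≠ c.re → ‖f z‖ ≤ M / |z.re - c.re|) {z : ℂ}
    (hz : z ∈ closedBall c (r / 2)) : ‖f z‖ ≤ 4 * M / r := by
  set G : ℂ → ℂ := fun z => f z * ((z - c) ^ 2 + (r : ℂ) ^ 2) with hG
  have hd : DiffContOnCl ℂ G (ball c r) := by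
    refine DifferentiableOn.diffContOnCl fun z hz => ?_
    rw [closure_ball c hr.ne'] at hz
    exact ((hf z hz).mul (by fun_prop)).differentiableWithinAt
  have hmem : z ∈ ball c r := by
    rw [mem_ball]
    rw [mem_closedBall] at hz
    linarith
  have h1 : ‖G z‖ ≤ 2 * r * M := by
    refine Complex.norm_le_of_forall_mem_frontier_norm_le isBounded_ball hd ?_ (subset_closure hmem)
    intro u hu
    rw [frontier_ball c hr.ne', mem_sphere, dist_eq_norm] at hu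
    have h2 := norm_sq_add hu
    have hu2 : u ∈ closedBall c r := by
      rw [mem_closedBall, dist_eq_norm]
      exact hu.le
    rw [hG]
    simp only
    rw [norm_mul, h2, sub_re]
    by_cases h3 : u.re = c.re
    · rw [h3, sub_self, abs_zero, mul_zero, mul_zero]
      positivity
    · have h4 := hb u hu2 h3
      have h5 : 0 < |u.re - c.re| := abs_pos.2 (sub_ne_zero.2 h3)
      calc ‖f u‖ * (2 * r * |u.re - c.re|) ≤ M / |u.re - c.re| * (2 * r * |u.re - c.re|) := by gcongr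
        _ = 2 * r * M := by field_simp
  have h2 : 3 / 4 * r ^ 2 ≤ ‖(z - c) ^ 2 + (r : ℂ) ^ 2‖ := by
    have h3 : ‖z - c‖ ≤ r / 2 := by
      rw [← dist_eq_norm]
      exact hz
    have h4 : ‖(z - c) ^ 2‖ ≤ r ^ 2 / 4 := by
      rw [norm_pow]
      have : 0 ≤ ‖z - c‖ := norm_nonneg _
      nlinarith
    have h5 : ‖(r : ℂ) ^ 2‖ = r ^ 2 := by
      rw [norm_pow, Complex.norm_real, Real.norm_of_nonneg hr.le]
    have h6 : ‖(r : ℂ) ^ 2‖ ≤ ‖(z - c) ^ 2 + (r : ℂ) ^ 2‖ + ‖(z - c) ^ 2‖ := by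
      have h7 := norm_sub_le ((z - c) ^ 2 + (r : ℂ) ^ 2) ((z - c) ^ 2)
      rwa [add_sub_cancel_left] at h7
    linarith
  have h3 : ‖f z‖ * (3 / 4 * r ^ 2) ≤ 2 * r * M := by
    calc ‖f z‖ * (3 / 4 * r ^ 2) ≤ ‖f z‖ * ‖(z - c) ^ 2 + (r : ℂ) ^ 2‖ := by gcongr
      _ = ‖G z‖ := by rw [hG]; simp only; rw [norm_mul]
      _ ≤ _ := h1
  rw [le_div_iff₀ hr]
  have h4 : ‖f z‖ * r * (3 / 4 * r) ≤ 2 * M * r := by nlinarith
  have h5 : ‖f z‖ * r * (3 / 4) ≤ 2 * M := by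
    by_contra hcon
    push Not at hcon
    nlinarith
  nlinarith [norm_nonneg (f z)]

end Pool.Agent.N210.FV
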