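import Pool.Agent.N210.FV.Gau

/-!
# Absolutely convergent sums of exponentials
-/

set_option autoImplicit false

namespace Pool.Agent.N210.FV

open Filter Topology Complex MeasureTheory Set Pool.Agent.H491R3

variable {ι : Type*}

theorem norm_exp_real (t θ : ℝ) : ‖exp (t * θ * I)‖ = 1 := by
  have : ((t : ℂ) * θ * I) = ((t * θ : ℝ) : ℂ) * I := by push_cast; ring
  rw [this, Complex.norm_exp_ofReal_mul_I]

theorem null_zero (ω x : ℝ) : Null ω x fun _ => 0 := by
  have := Null.sum (ω := ω) (x := x) (∅ : Finset ℕ) (f := fun _ _ => 0) (by simp)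
  simpa using this

theorem exs_cont {b : ι → ℂ} (hb : Summable fun i => ‖b i‖) (θ : ι → ℝ) :
    Continuous fun t : ℝ => ∑' i, b i * exp (t * θ i * I) := by
  refine continuous_tsum (fun i => by fun_prop) hb fun i t => ?_
  rw [norm_mul, norm_exp_real, mul_one]

theorem null_exs {ω x : ℝ} {b : ι → ℂ} (hb : Summable fun i => ‖b i‖) {θ : ι → ℝ}
    (h : ∀ i, b i ≠ 0 → ω + θ i ≠ 0) : Null ω x fun t : ℝ => ∑' i, b i * exp (t * θ i * I) := by
  refine null_lim (exs_cont hb θ) fun ε hε => ?_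
  obtain ⟨F, hF⟩ := ((tendsto_order.1 (tendsto_tsum_compl_atTop_zero fun i => ‖b i‖)).2 ε hε).exists
  refine ⟨fun t => ∑ i ∈ F, b i * exp (t * θ i * I), Null.sum F fun i _ => ?_, fun t => ?_⟩
  · by_cases hi : b i = 0
    · simp only [hi, zero_mul]
      exact null_zero ω x
    · exact (null_exp (h i hi)).const_mul (b i)
  · have hs : Summable fun i => b i * exp (t * θ i * I) := by
      refine Summable.of_norm (hb.congr fun i => ?_)
      rw [norm_mul, norm_exp_real, mul_one]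
    rw [← hs.sum_add_tsum_compl (s := F), add_sub_cancel_left]
    refine le_trans ?_ hF.le
    refine tsum_of_norm_bounded (hb.subtype _).hasSum fun i => ?_
    rw [norm_mul, norm_exp_real, mul_one]
    rfl

/-- the general Dirichlet series -/
noncomputable def Ds (a : ι → ℂ) (om : ι → ℝ) (s : ℂ) : ℂ := ∑' i, a i * exp (-(om i : ℂ) * s)

variable {a : ι → ℂ} {om : ι → ℝ} {σ : ℝ}

theorem Ds_right (a : ι → ℂ) (om : ι → ℝ) (σ t : ℝ) : Ds a om (σ + t * I) =
    ∑' i, (a i * Real.exp (-(om i * σ))) * exp (t * (-(om i) : ℝ) * I) := by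
  unfold Ds
  refine tsum_congr fun i => ?_
  rw [mul_assoc, ofReal_exp, ← exp_add]
  congr 2
  push_cast
  ring

theorem Ds_left (a : ι → ℂ) (om : ι → ℝ) (σ t : ℝ) : Ds a om (σ - t * I) =
    ∑' i, (a i * Real.exp (-(om i * σ))) * exp (t * (om i) * I) := by
  unfold Ds
  refine tsum_congr fun i => ?_
  rw [mul_assoc, ofReal_exp, ← exp_add]
  congr 2
  push_cast
  ring

theorem summ_b (hs : Summable fun i => ‖a i‖ * Real.exp (-(om i * σ))) :
    Summable fun i => ‖(a i * Real.exp (-(om i * σ)) : ℂ)‖ := by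
  refine hs.congr fun i => ?_
  rw [norm_mul, Complex.norm_real, Real.norm_of_nonneg (Real.exp_pos _).le]

theorem left_null {ω x : ℝ} (hω : 0 < ω) (h0 : ∀ i, 0 ≤ om i)
    (hs : Summable fun i => ‖a i‖ * Real.exp (-(om i * σ))) :
    Null ω x fun t : ℝ => Ds a om (σ - t * I) := by
  simp only [Ds_left]
  refine null_exs (summ_b hs) fun i _ => ?_
  have := h0 i
  positivity

theorem right_lim {i₀ : ι} (hne : ∀ i, i ≠ i₀ → om i ≠ om i₀)
    (hw : 0 < om i₀) {x : ℝ}
    (hs : Summable fun i => ‖a i‖ * Real.exp (-(om i * (1 / 2 + x)))) {ε : ℝ} (hε : 0 < ε) :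
    ∀ᶠ T : ℝ in atTop, ∀ Y : ℝ, T ^ (9 / 8 : ℝ) ≤ Y →
      ‖(∫ t in (-Y)..Y, Ds a om (((1 / 2 + x : ℝ) : ℂ) + t * I) * W T x (om i₀) t) -
        a i₀ * (Real.exp (-(om i₀ / 2)) * Real.sqrt Real.pi * T : ℝ)‖ ≤ ε * T := by
  classical
  set b : ι → ℂ := fun i => a i * Real.exp (-(om i * (1 / 2 + x))) with hb
  have hbs : Summable fun i => ‖b i‖ := summ_b hs
  set b' : ι → ℂ := fun i => if i = i₀ then 0 else b i with hb'
  have hbs' : Summable fun i => ‖b' i‖ := by
    refine Summable.of_nonneg_of_le (fun i => norm_nonneg _) (fun i => ?_) hbs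
    simp only [hb']
    split_ifs
    · simp
    · exact le_rfl
  have hn : Null (om i₀) x fun t : ℝ => ∑' i, b' i * exp (t * (-(om i) : ℝ) * I) := by
    refine null_exs hbs' fun i hi => ?_
    have h1 : i ≠ i₀ := by
      intro h
      apply hi
      simp [hb', h]
    intro h
    exact hne i h1 (by linarith)
  have hD : ∀ t : ℝ, Ds a om (((1 / 2 + x : ℝ) : ℂ) + t * I) =
      b i₀ * exp (t * (-(om i₀) : ℝ) * I) + ∑' i, b' i * exp (t * (-(om i) : ℝ) * I) := by
    intro t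
    rw [Ds_right]
    have h1 : Summable fun i => b i * exp (t * (-(om i) : ℝ) * I) := by
      refine Summable.of_norm (hbs.congr fun i => ?_)
      rw [norm_mul (b i), norm_exp_real, mul_one]
    rw [h1.tsum_eq_add_tsum_ite i₀]
    congr 1
    refine tsum_congr fun i => ?_
    simp only [hb']
    split_ifs <;> simp
  set A : ℝ := Real.exp (x ^ 2 + |x * om i₀|) * Real.sqrt (2 * Real.pi) with hA
  have h1 : Tendsto (fun T : ℝ => ‖b i₀‖ * (A * Real.exp (-(T ^ (1 / 4 : ℝ) / 2)))) atTop (𝓝 0) := by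
    have := (tail_small.const_mul A).const_mul ‖b i₀‖
    simpa using this
  filter_upwards [hn.2 (ε / 2) (by linarith), h1.eventually (gt_mem_nhds (half_pos hε)),
    eventually_ge_atTop 1] with T h2 h3 hT Y hY
  have hT0 : 0 < T := by linarith
  have h4 := exp_int (ω := om i₀) (x := x) (-(om i₀)) hT hY
  rw [add_neg_cancel] at h4
  have e1 : (∫ t in (-Y)..Y, Ds a om (((1 / 2 + x : ℝ) : ℂ) + t * I) * W T x (om i₀) t) =
      b i₀ * (∫ t in (-Y)..Y, exp (t * (-(om i₀) : ℝ) * I) * W T x (om i₀) t) +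
      ∫ t in (-Y)..Y, (∑' i, b' i * exp (t * (-(om i) : ℝ) * I)) * W T x (om i₀) t := by
    rw [← intervalIntegral.integral_const_mul, ← intervalIntegral.integral_add]
    · refine intervalIntegral.integral_congr fun t _ => ?_
      rw [hD t]
      ring
    · exact (continuous_const.mul ((by fun_prop : Continuous fun t : ℝ =>
        exp (t * (-(om i₀) : ℝ) * I)).mul (W_cont T x _))).intervalIntegrable _ _
    · exact ii hn.1 T _ _
  have e2 : a i₀ * (Real.exp (-(om i₀ / 2)) * Real.sqrt Real.pi * T : ℝ) =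
      b i₀ * ((Real.sqrt Real.pi * T * Real.exp (-(x * -(om i₀))) *
        Real.exp (-(T ^ 2 * 0 ^ 2 / 4)) : ℝ) : ℂ) := by
    have h5 : Real.exp (-(om i₀ / 2)) = Real.exp (-(om i₀ * (1 / 2 + x))) *
        Real.exp (-(x * -(om i₀))) := by
      rw [← Real.exp_add]
      congr 1
      ring
    have h6 : Real.exp (-(T ^ 2 * 0 ^ 2 / 4)) = 1 := by simp
    rw [h5, h6, hb]
    push_cast
    ring
  rw [e1, e2, add_sub_right_comm, ← mul_sub]
  refine (norm_add_le _ _).trans ?_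
  rw [norm_mul]
  have h5 : ‖b i₀‖ * ‖(∫ t in (-Y)..Y, exp (t * (-(om i₀) : ℝ) * I) * W T x (om i₀) t) -
      ((Real.sqrt Real.pi * T * Real.exp (-(x * -(om i₀))) *
        Real.exp (-(T ^ 2 * 0 ^ 2 / 4)) : ℝ) : ℂ)‖ ≤
      ‖b i₀‖ * (A * Real.exp (-(T ^ (1 / 4 : ℝ) / 2))) * T := by
    rw [mul_assoc ‖b i₀‖]
    exact mul_le_mul_of_nonneg_left h4 (norm_nonneg _)
  have h6 := h2 Y hY
  have h7 : ‖b i₀‖ * (A * Real.exp (-(T ^ (1 / 4 : ℝ) / 2))) * T ≤ ε / 2 * T := by gcongr
  linarith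

end Pool.Agent.N210.FV
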