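import Pool.Agent.N210.FV.Cnt
import Pool.Agent.N210.FV.Disc
import Pool.Agent.N210.FV.Exs
import Pool.Agent.H640R3.EG.Res

/-!
# A combination of logarithmic derivatives whose Dirichlet series starts beyond the primes
-/

set_option autoImplicit false

namespace Pool.Agent.N210.FV

open Filter Topology Complex MeasureTheory Set Pool.Agent.H491R3 Pool.Agent.H640R3.EG
open Pool.Agent.H810R2.CSd

variable {J ι : Type*} [Fintype J]

/-- the data of the main argument -/
structure Setup (w : J → ℝ) (g : J → ℂ → ℂ) (a : ι → ℂ) (om : ι → ℝ) (i₀ : ι) (η : ℝ) (H : ℂ → ℂ)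
    (C B : ℝ) : Prop where
  ent : ∀ i, Ent (g i)
  om_nonneg : ∀ i, 0 ≤ om i
  om_pos : 0 < om i₀
  om_ne : ∀ i, i ≠ i₀ → om i ≠ om i₀
  eta : 0 < η
  eta4 : η < 1 / 4
  c0 : 1 ≤ C
  sum : Summable fun i => ‖a i‖ * Real.exp (-(om i * (1 / 2 + η)))
  right : ∀ s : ℂ, 1 / 2 < s.re → mm w g s = 0 ∧ AA w g s = -Ds a om s
  left : ∀ s : ℂ, 1 / 2 - 2 * η < s.re → s.re < 1 / 2 →
    mm w g s = 0 ∧ AA w g s = Ds a om (1 - s) + H s
  nullH : Null (om i₀) (-η) fun t => H (((1 / 2 - η : ℝ) : ℂ) + t * I)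
  bD : ∀ s : ℂ, 1 / 2 < s.re → s.re ≤ 1 / 2 + η → ‖Ds a om s‖ ≤ C / (s.re - 1 / 2)
  bH : ∀ s : ℂ, 1 / 2 - η ≤ s.re → s.re < 1 / 2 → C ≤ |s.im| →
    ‖H s‖ ≤ C * (1 + |s.im|) ^ (1 / 2 : ℝ) / (1 / 2 - s.re)
  sq : ∀ F : Finset ℂ, (∀ z ∈ F, z.re = 1 / 2) → ∑ z ∈ F, (mm w g z) ^ 2 ≤ B

/-- the weight as an entire function -/
noncomputable def Kf (T ω : ℝ) (s : ℂ) : ℂ := KK T 0 (s - 1 / 2) * exp ((s - 1 / 2) * ω)

theorem Kf_diff (T ω : ℝ) : Differentiable ℂ (Kf T ω) := by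
  unfold Kf KK
  fun_prop

theorem Kf_eq (T ω x t : ℝ) : Kf T ω (((1 / 2 + x : ℝ) : ℂ) + t * I) = W T x ω t := by
  unfold Kf W
  have : (((1 / 2 + x : ℝ) : ℂ) + t * I - 1 / 2) = x + t * I := by push_cast; ring
  rw [this]

theorem Kf_eq' (T ω : ℝ) (s : ℂ) : Kf T ω s = W T (s.re - 1 / 2) ω s.im := by
  rw [← Kf_eq]
  congr 1
  conv_lhs => rw [← re_add_im s]
  push_cast
  ring

variable {w : J → ℝ} {g : J → ℂ → ℂ} {a : ι → ℂ} {om : ι → ℝ} {i₀ : ι} {η : ℝ} {H : ℂ → ℂ}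
  {C B : ℝ}

theorem mm_of_ne (hg : ∀ i, Ent (g i)) {z : ℂ} (h : mm w g z ≠ 0) : ∃ i, g i z = 0 := by
  by_contra hcon
  push Not at hcon
  obtain ⟨-, -, h2, -⟩ := loc (w := w) (fun i => (hg i).diff) (fun i => (hg i).ne) z
  exact h (h2 hcon)

theorem Setup.mm_strip (h : Setup w g a om i₀ η H C B) {z : ℂ} (h1 : 1 / 2 - η ≤ z.re)
    (h2 : z.re ≠ 1 / 2) : mm w g z = 0 := by
  rcases lt_or_gt_of_ne h2 with h3 | h3
  · exact (h.left z (by have := h.eta; linarith) h3).1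
  · exact (h.right z h3).1

/-- the residue theorem -/
theorem Setup.contour (h : Setup w g a om i₀ η H C B) (T : ℝ) {Y : ℝ} (hY : 0 < Y)
    (hgap : ∀ z : ℂ, (∃ i, g i z = 0) → |z.re| ≤ 2 → |z.im| ≠ Y) {F : Finset ℂ}
    (hF : ∀ z, z ∈ F ↔ (∃ i, g i z = 0) ∧ ‖z‖ ≤ Y + 1) :
    ∃ S : Finset ℂ, S ⊆ F ∧ (∀ z ∈ S, z.re = 1 / 2) ∧
      rect (1 / 2 - η) (1 / 2 + η) (-Y) Y (fun s => AA w g s * Kf T (om i₀) s) =
        2 * Real.pi * I * ∑ z ∈ S, (mm w g z : ℂ) * Kf T (om i₀) z := by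
  classical
  have hη := h.eta
  have hη4 := h.eta4
  set S : Finset ℂ := F.filter fun z => z.re = 1 / 2 ∧ |z.im| < Y ∧ mm w g z ≠ 0 with hS
  have hd := fun i => (h.ent i).diff
  have hn := fun i => (h.ent i).ne
  refine ⟨S, Finset.filter_subset _ _, fun z hz => (Finset.mem_filter.1 hz).2.1, ?_⟩
  refine rect_simple (by linarith) (by linarith) S (fun z => (mm w g z : ℂ) * Kf T (om i₀) z)
    ?_ ?_ ?_
  · intro s hs
    obtain ⟨-, h1, h2, -⟩ := Finset.mem_filter.1 hs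
    rw [abs_lt] at h2
    exact ⟨⟨by rw [h1]; linarith, by rw [h1]; linarith⟩, h2.1, h2.2⟩
  · intro z hz1 hz2 hzS
    have hmz : mm w g z = 0 := by
      by_contra hm
      obtain ⟨i, hi⟩ := mm_of_ne h.ent hm
      have h1 : z.re = 1 / 2 := by
        by_contra h2
        exact hm (h.mm_strip hz1.1 h2)
      have h3 : |z.im| ≤ Y := abs_le.2 ⟨hz2.1, hz2.2⟩
      have h4 : |z.im| < Y := lt_of_le_of_ne h3
        (hgap z ⟨i, hi⟩ (by rw [h1, abs_of_nonneg (by norm_num)]; norm_num))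
      apply hzS
      rw [hS, Finset.mem_filter, hF]
      refine ⟨⟨⟨i, hi⟩, ?_⟩, h1, h4, hm⟩
      have h5 := Complex.norm_le_abs_re_add_abs_im z
      rw [h1, abs_of_nonneg (by norm_num : (0 : ℝ) ≤ 1 / 2)] at h5
      linarith
    exact (AA_diff hd hn hmz).mul (Kf_diff T _ z)
  · intro s _
    have h1 := AA_pole (w := w) hd hn s
    have h2 : HasDerivAt (Kf T (om i₀)) (deriv (Kf T (om i₀)) s) s := (Kf_diff T _ s).hasDerivAt
    have h3 := (hasDerivAt_iff_tendsto_slope.1 h2).const_mul (mm w g s : ℂ)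
    have h4 : Tendsto (Kf T (om i₀)) (𝓝[≠] s) (𝓝 (Kf T (om i₀) s)) :=
      (Kf_diff T _).continuous.continuousAt.tendsto.mono_left nhdsWithin_le_nhds
    refine ⟨_, ((h1.mul h4).add h3).congr' ?_⟩
    filter_upwards [self_mem_nhdsWithin] with u hu
    have hu2 : u - s ≠ 0 := sub_ne_zero.2 hu
    rw [slope_def_field]
    field_simp
    ring

/-- the function near a height far from the zeros -/
theorem Setup.hor (h : Setup w g a om i₀ η H C B) {c R Y : ℝ} (hc : 0 < c) (hc1 : c ≤ 1)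
    (hR : C + 1 ≤ R) (hRY : R ≤ Y) (hYR : Y ≤ R + 1)
    (hgap : ∀ z : ℂ, (∃ i, g i z = 0) → |z.re| ≤ 2 → c / R ^ (3 / 2 : ℝ) ≤ |(|z.im|) - Y|) {z : ℂ}
    (h1 : 1 / 2 - η ≤ z.re) (h2 : z.re ≤ 1 / 2 + η) (h3 : |z.im| = Y) :
    ‖AA w g z‖ ≤ 32 * C / (η * c) * R ^ 2 := by
  have hη := h.eta
  have hη4 := h.eta4
  have hC := h.c0
  have hR1 : 1 ≤ R := by linarith
  have hR0 : 0 < R := by linarith
  have hR32 : (1 : ℝ) ≤ R ^ (3 / 2 : ℝ) := Real.one_le_rpow hR1 (by norm_num)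
  have hR320 : (0 : ℝ) < R ^ (3 / 2 : ℝ) := by linarith
  set r : ℝ := η * c / (2 * R ^ (3 / 2 : ℝ)) with hr
  have hr0 : 0 < r := by positivity
  have hrη : r ≤ η / 2 := by
    rw [hr, div_le_div_iff₀ (by positivity) (by norm_num)]
    nlinarith
  have hrc : r < c / R ^ (3 / 2 : ℝ) := by
    rw [hr, div_lt_div_iff₀ (by positivity) (by positivity)]
    have h5 : η * c * R ^ (3 / 2 : ℝ) < 1 * c * R ^ (3 / 2 : ℝ) := by
      gcongr
      linarith
    have h6 : 0 < c * R ^ (3 / 2 : ℝ) := by positivity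
    linarith
  set M : ℝ := 4 * C * R ^ (1 / 2 : ℝ) with hM
  have hM0 : 0 < M := by positivity
  -- the bound off the line
  have hoff : ∀ u : ℂ, 1 / 2 - η ≤ u.re → u.re ≤ 1 / 2 + η → u.re ≠ 1 / 2 → C ≤ |u.im| →
      |u.im| ≤ Y + 1 → ‖AA w g u‖ ≤ M / |u.re - 1 / 2| := by
    intro u hu1 hu2 hu3 hu4 hu5
    have h5 : (1 + |u.im|) ^ (1 / 2 : ℝ) ≤ 2 * R ^ (1 / 2 : ℝ) := by
      have h6 : (4 : ℝ) ^ (1 / 2 : ℝ) = 2 := by
        rw [show (4 : ℝ) = 2 ^ (2 : ℝ) by norm_num, ← Real.rpow_mul (by norm_num)]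
        norm_num
      calc (1 + |u.im|) ^ (1 / 2 : ℝ) ≤ (4 * R) ^ (1 / 2 : ℝ) := by
            gcongr
            linarith
        _ = 2 * R ^ (1 / 2 : ℝ) := by rw [Real.mul_rpow (by norm_num) hR0.le, h6]
    have h7 : (1 : ℝ) ≤ R ^ (1 / 2 : ℝ) := Real.one_le_rpow hR1 (by norm_num)
    rcases lt_or_gt_of_ne hu3 with h6 | h6
    · rw [(h.left u (by linarith) h6).2]
      have h8 : 0 < 1 / 2 - u.re := by linarith
      have h9 := h.bD (1 - u) (by rw [sub_re, one_re]; linarith) (by rw [sub_re, one_re]; linarith)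
      have h10 := h.bH u hu1 h6 hu4
      have h11 : (1 - u).re - 1 / 2 = 1 / 2 - u.re := by rw [sub_re, one_re]; ring
      rw [h11] at h9
      have h12 : |u.re - 1 / 2| = 1 / 2 - u.re := by
        rw [abs_sub_comm, abs_of_pos h8]
      rw [h12]
      refine (norm_add_le _ _).trans ((add_le_add h9 h10).trans ?_)
      rw [← add_div]
      refine div_le_div_of_nonneg_right ?_ h8.le
      rw [hM]
      nlinarith
    · rw [(h.right u h6).2, norm_neg]
      have h8 : 0 < u.re - 1 / 2 := by linarith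
      refine (h.bD u h6 hu2).trans ?_
      rw [abs_of_pos h8]
      refine div_le_div_of_nonneg_right ?_ h8.le
      rw [hM]
      nlinarith
  have hfin : 4 * M / r = 32 * C / (η * c) * R ^ 2 := by
    have h5 : R ^ (1 / 2 : ℝ) * R ^ (3 / 2 : ℝ) = R ^ 2 := by
      rw [← Real.rpow_add hR0]
      norm_num
    rw [hM, hr, ← h5]
    field_simp
    ring
  rw [← hfin]
  by_cases h4 : |z.re - 1 / 2| < r / 2
  · have h5 := disc (f := AA w g) (c := ((1 / 2 : ℝ) : ℂ) + z.im * I) (r := r) (M := M) hr0 (by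
        intro u hu
        rw [Metric.mem_closedBall, dist_eq_norm] at hu
        have hre : |u.re - 1 / 2| ≤ r := by
          have := Complex.abs_re_le_norm (u - (((1 / 2 : ℝ) : ℂ) + z.im * I))
          have e : (u - (((1 / 2 : ℝ) : ℂ) + z.im * I)).re = u.re - 1 / 2 := by simp
          rw [e] at this
          linarith
        have him : |u.im - z.im| ≤ r := by
          have := Complex.abs_im_le_norm (u - (((1 / 2 : ℝ) : ℂ) + z.im * I))
          have e : (u - (((1 / 2 : ℝ) : ℂ) + z.im * I)).im = u.im - z.im := by simp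
          rw [e] at this
          linarith
        apply AA_diff (fun i => (h.ent i).diff) (fun i => (h.ent i).ne)
        by_contra hm
        have h6 := hgap u (mm_of_ne h.ent hm) (by
          have := abs_le.1 hre
          rw [abs_le]
          constructor <;> linarith)
        have h7 : |(|u.im|) - Y| ≤ r := by
          rw [← h3]
          exact (abs_abs_sub_abs_le_abs_sub _ _).trans him
        linarith) hM0.le (by
        intro u hu hu2
        rw [Metric.mem_closedBall, dist_eq_norm] at hu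
        have hre : |u.re - 1 / 2| ≤ r := by
          have := Complex.abs_re_le_norm (u - (((1 / 2 : ℝ) : ℂ) + z.im * I))
          have e : (u - (((1 / 2 : ℝ) : ℂ) + z.im * I)).re = u.re - 1 / 2 := by simp
          rw [e] at this
          linarith
        have him : |u.im - z.im| ≤ r := by
          have := Complex.abs_im_le_norm (u - (((1 / 2 : ℝ) : ℂ) + z.im * I))
          have e : (u - (((1 / 2 : ℝ) : ℂ) + z.im * I)).im = u.im - z.im := by simp
          rw [e] at this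
          linarith
        have e1 : ((((1 / 2 : ℝ) : ℂ) + z.im * I)).re = 1 / 2 := by simp
        rw [e1] at hu2 ⊢
        have h7 : |(|u.im|) - Y| ≤ r := by
          rw [← h3]
          exact (abs_abs_sub_abs_le_abs_sub _ _).trans him
        have h8 := abs_le.1 h7
        have h9 := abs_le.1 hre
        exact hoff u (by linarith) (by linarith) hu2 (by linarith) (by linarith))
      (z := z) (by
        rw [Metric.mem_closedBall, dist_eq_norm]
        have e : z - (((1 / 2 : ℝ) : ℂ) + z.im * I) = ((z.re - 1 / 2 : ℝ) : ℂ) := by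
          apply Complex.ext <;> simp
        rw [e, Complex.norm_real, Real.norm_eq_abs]
        exact h4.le)
    exact h5
  · push Not at h4
    have h5 : z.re ≠ 1 / 2 := by
      intro h6
      rw [h6, sub_self, abs_zero] at h4
      linarith
    refine (hoff z h1 h2 h5 (by rw [h3]; linarith) (by rw [h3]; linarith)).trans ?_
    have h6 : 0 < |z.re - 1 / 2| := by linarith
    rw [div_le_div_iff₀ h6 hr0]
    nlinarith

end Pool.Agent.N210.FV
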