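import Pool.Agent.N210.FV.Core

/-!
# The coefficients vanish
-/

set_option autoImplicit false

namespace Pool.Agent.N210.FV

open Filter Topology Complex MeasureTheory Set Pool.Agent.H491R3 Pool.Agent.H640R3.EG
open Pool.Agent.H810R2.CSd

variable {J ι : Type*} [Fintype J] {w : J → ℝ} {g : J → ℂ → ℂ} {a : ι → ℂ} {om : ι → ℝ} {i₀ : ι}
  {η : ℝ} {H : ℂ → ℂ} {C B : ℝ}

theorem pow_exp_small : Tendsto (fun T : ℝ => T ^ (9 / 4 : ℝ) * Real.exp (-(T ^ (1 / 4 : ℝ)))) atTop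
    (𝓝 0) := by
  have h1 := (tendsto_rpow_mul_exp_neg_mul_atTop_nhds_zero 9 1 one_pos).comp
    (tendsto_rpow_atTop (show (0 : ℝ) < 1 / 4 by norm_num))
  refine h1.congr' ?_
  filter_upwards [eventually_ge_atTop 0] with T hT
  simp only [Function.comp_apply]
  rw [← Real.rpow_mul hT]
  norm_num

theorem Setup.left_null (h : Setup w g a om i₀ η H C B) :
    Null (om i₀) (-η) fun t : ℝ => AA w g (((1 / 2 - η : ℝ) : ℂ) + t * I) := by
  have h1 := (FV.left_null (x := -η) (σ := 1 / 2 + η) h.om_pos h.om_nonneg h.sum).add h.nullH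
  have e : (fun t : ℝ => AA w g (((1 / 2 - η : ℝ) : ℂ) + t * I)) = fun t : ℝ =>
      Ds a om (((1 / 2 + η : ℝ) : ℂ) - t * I) + H (((1 / 2 - η : ℝ) : ℂ) + t * I) := by
    funext t
    have hη := h.eta
    rw [(h.left _ (by simp; linarith) (by simp; linarith)).2]
    congr 2
    push_cast
    ring
  rw [e]
  exact h1

theorem sum_abs_le {S : Finset ℂ} {m : ℂ → ℝ} {n B : ℝ} (hn : (S.card : ℝ) ≤ n)
    (hB : ∑ z ∈ S, (m z) ^ 2 ≤ B) : ∑ z ∈ S, |m z| ≤ Real.sqrt (n * B) := by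
  apply Real.le_sqrt_of_sq_le
  have h1 := sq_sum_le_card_mul_sum_sq (s := S) (f := fun z => |m z|)
  have h2 : ∑ z ∈ S, |m z| ^ 2 = ∑ z ∈ S, (m z) ^ 2 := Finset.sum_congr rfl fun z _ => sq_abs _
  rw [h2] at h1
  have h3 : 0 ≤ ∑ z ∈ S, (m z) ^ 2 := Finset.sum_nonneg fun z _ => sq_nonneg _
  have h4 : (0 : ℝ) ≤ S.card := Nat.cast_nonneg _
  calc _ ≤ (S.card : ℝ) * ∑ z ∈ S, (m z) ^ 2 := h1
    _ ≤ n * B := by gcongr; exact h4.trans hn

theorem Setup.zero (h : Setup w g a om i₀ η H C B) : a i₀ = 0 := by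
  by_contra hne
  have hη := h.eta
  have hη4 := h.eta4
  have hC := h.c0
  have hω := h.om_pos
  have hB : 0 ≤ B := by simpa using h.sq ∅ (by simp)
  obtain ⟨c, hc, hc1, hheight⟩ := height h.ent
  obtain ⟨Cz, hCz0, hCz⟩ := zeros_finset h.ent
  set κ : ℝ := Real.exp (-(om i₀ / 2)) * Real.sqrt Real.pi with hκ
  have hκ0 : 0 < κ := by positivity
  set A : ℝ := ‖a i₀‖ * κ with hA
  have hA0 : 0 < A := mul_pos (norm_pos_iff.2 hne) hκ0
  set K₁ : ℝ := 2 * Real.pi * Real.sqrt (Cz * 3 ^ (3 / 2 : ℝ) * B) with hK₁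
  set K₂ : ℝ := 32 * C / (η * c) * Real.exp (η ^ 2 + η * om i₀) with hK₂
  have hlim : Tendsto (fun T : ℝ => K₁ * T ^ (-(5 / 32) : ℝ) +
      2 * (K₂ * (T ^ (9 / 4 : ℝ) * Real.exp (-(T ^ (1 / 4 : ℝ)))))) atTop (𝓝 0) := by
    have h1 := (tendsto_rpow_neg_atTop (show (0 : ℝ) < 5 / 32 by norm_num)).const_mul K₁
    have h2 := (pow_exp_small.const_mul K₂).const_mul 2
    simpa using h1.add h2
  have hr := right_lim (x := η) h.om_ne hω h.sum (ε := A / 8) (by positivity)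
  have hl := h.left_null.2 (A / 8) (by positivity)
  obtain ⟨T, hT1, hT2, hT3, hT4, hTC⟩ := (hr.and (hl.and ((hlim.eventually
    (gt_mem_nhds (show (0 : ℝ) < A / 8 by positivity))).and ((eventually_ge_atTop (1 : ℝ)).and
      (eventually_ge_atTop (C + 1)))))).exists
  have hT0 : 0 < T := by linarith
  set R : ℝ := T ^ (9 / 8 : ℝ) with hR
  have hRT : T ≤ R := Y_ge hT4 le_rfl
  have hR1 : 1 ≤ R := hT4.trans hRT
  obtain ⟨Y, hY1, hY2, hgap⟩ := hheight R hR1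
  have hY0 : 0 < Y := by linarith
  have hR32 : (0 : ℝ) < R ^ (3 / 2 : ℝ) := by positivity
  have hgap0 : ∀ z : ℂ, (∃ i, g i z = 0) → |z.re| ≤ 2 → |z.im| ≠ Y := by
    intro z hz hz2 hz3
    have h1 := hgap z hz hz2
    rw [hz3, sub_self, abs_zero] at h1
    have : 0 < c / R ^ (3 / 2 : ℝ) := by positivity
    linarith
  obtain ⟨F, hF1, hF2⟩ := hCz (Y + 1) (by linarith)
  obtain ⟨S, hSF, hS, hrect⟩ := h.contour T hY0 hgap0 hF2
  have h1 := hT1 Y hY1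
  have h2 := hT2 Y hY1
  -- the residues
  have hres : ‖2 * Real.pi * I * ∑ z ∈ S, (mm w g z : ℂ) * Kf T (om i₀) z‖ ≤
      K₁ * T ^ (-(5 / 32) : ℝ) * T := by
    have h3 : ‖∑ z ∈ S, (mm w g z : ℂ) * Kf T (om i₀) z‖ ≤ ∑ z ∈ S, |mm w g z| := by
      refine (norm_sum_le _ _).trans (Finset.sum_le_sum fun z hz => ?_)
      rw [norm_mul, Complex.norm_real, Real.norm_eq_abs, Kf_eq', hS z hz, sub_self,
        W_norm hT0]
      have h4 : Real.exp ((0 ^ 2 - z.im ^ 2) / T ^ 2) * Real.exp (0 * om i₀) ≤ 1 := by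
        rw [zero_mul, Real.exp_zero, mul_one]
        apply Real.exp_le_one_iff.2
        have : 0 ≤ z.im ^ 2 / T ^ 2 := by positivity
        rw [zero_pow two_ne_zero, zero_sub, neg_div]
        linarith
      exact mul_le_of_le_one_right (abs_nonneg _) h4
    have h5 : (S.card : ℝ) ≤ Cz * 3 ^ (3 / 2 : ℝ) * T ^ (27 / 16 : ℝ) := by
      have h6 : (S.card : ℝ) ≤ F.card := by exact_mod_cast Finset.card_le_card hSF
      refine h6.trans (hF1.trans ?_)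
      have h7 : (Y + 1) ^ (3 / 2 : ℝ) ≤ 3 ^ (3 / 2 : ℝ) * T ^ (27 / 16 : ℝ) := by
        calc (Y + 1) ^ (3 / 2 : ℝ) ≤ (3 * R) ^ (3 / 2 : ℝ) := by
              gcongr
              linarith
          _ = 3 ^ (3 / 2 : ℝ) * T ^ (27 / 16 : ℝ) := by
              rw [Real.mul_rpow (by norm_num) (by linarith), hR, ← Real.rpow_mul hT0.le]
              norm_num
      rw [mul_assoc]
      gcongr
    have h6 := sum_abs_le h5 (h.sq S hS)
    have h7 : Real.sqrt (Cz * 3 ^ (3 / 2 : ℝ) * T ^ (27 / 16 : ℝ) * B) =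
        Real.sqrt (Cz * 3 ^ (3 / 2 : ℝ) * B) * (T ^ (-(5 / 32) : ℝ) * T) := by
      have h8 : Cz * 3 ^ (3 / 2 : ℝ) * T ^ (27 / 16 : ℝ) * B =
          (Cz * 3 ^ (3 / 2 : ℝ) * B) * (T ^ (27 / 32 : ℝ)) ^ 2 := by
        rw [← Real.rpow_natCast (T ^ (27 / 32 : ℝ)) 2, ← Real.rpow_mul hT0.le]
        norm_num
        ring
      rw [h8, Real.sqrt_mul (by positivity), Real.sqrt_sq (by positivity)]
      congr 1
      have : T ^ (-(5 / 32) : ℝ) * T = T ^ (-(5 / 32) : ℝ) * T ^ (1 : ℝ) := by rw [Real.rpow_one]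
      rw [this, ← Real.rpow_add hT0]
      norm_num
    rw [norm_mul]
    have h8 : ‖(2 * Real.pi * I : ℂ)‖ = 2 * Real.pi := by
      rw [norm_mul, norm_mul, norm_I, mul_one, Complex.norm_real,
        Real.norm_of_nonneg Real.pi_pos.le, RCLike.norm_ofNat]
    rw [h8]
    calc 2 * Real.pi * ‖∑ z ∈ S, (mm w g z : ℂ) * Kf T (om i₀) z‖
        ≤ 2 * Real.pi * (Real.sqrt (Cz * 3 ^ (3 / 2 : ℝ) * B) * (T ^ (-(5 / 32) : ℝ) * T)) := by
          rw [← h7]
          have := Real.pi_pos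
          gcongr
          exact h3.trans h6
      _ = K₁ * T ^ (-(5 / 32) : ℝ) * T := by rw [hK₁]; ring
  -- the horizontal sides
  have hhor : ∀ y : ℝ, |y| = Y → ‖∫ x in (1 / 2 - η)..(1 / 2 + η),
      AA w g ((x : ℂ) + y * I) * Kf T (om i₀) ((x : ℂ) + y * I)‖ ≤
      K₂ * (T ^ (9 / 4 : ℝ) * Real.exp (-(T ^ (1 / 4 : ℝ)))) * T := by
    intro y hy
    have h3 : ∀ x ∈ Set.uIoc (1 / 2 - η) (1 / 2 + η),
        ‖AA w g ((x : ℂ) + y * I) * Kf T (om i₀) ((x : ℂ) + y * I)‖ ≤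
        K₂ * (T ^ (9 / 4 : ℝ) * Real.exp (-(T ^ (1 / 4 : ℝ)))) := by
      intro x hx
      rw [uIoc_of_le (by linarith)] at hx
      have h4 := h.hor (z := (x : ℂ) + y * I) hc hc1 (by linarith) hY1 hY2 hgap
        (by simp; linarith [hx.1]) (by simpa using hx.2) (by simpa using hy)
      have h5 := W_le hT4 (x - 1 / 2) (om i₀) y
      rw [norm_mul, Kf_eq']
      have e1 : ((x : ℂ) + y * I).re = x := by simp
      have e2 : ((x : ℂ) + y * I).im = y := by simp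
      rw [e1, e2]
      have h6 : Real.exp ((x - 1 / 2) ^ 2 + (x - 1 / 2) * om i₀) ≤ Real.exp (η ^ 2 + η * om i₀) := by
        apply Real.exp_le_exp.2
        have h7 : (x - 1 / 2) ^ 2 ≤ η ^ 2 := sq_le_sq' (by linarith [hx.1]) (by linarith [hx.2])
        have h8 : (x - 1 / 2) * om i₀ ≤ η * om i₀ := by
          gcongr
          linarith [hx.2]
        linarith
      have h7 : Real.exp (-(y ^ 2 / T ^ 2)) ≤ Real.exp (-(T ^ (1 / 4 : ℝ))) := by
        apply Real.exp_le_exp.2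
        have := pow_aux hT4 hY1
        rw [← sq_abs y, hy]
        linarith
      have h8 : R ^ 2 = T ^ (9 / 4 : ℝ) := by
        rw [hR, ← Real.rpow_natCast, ← Real.rpow_mul hT0.le]
        norm_num
      rw [h8] at h4
      calc _ ≤ (32 * C / (η * c) * T ^ (9 / 4 : ℝ)) *
            (Real.exp (η ^ 2 + η * om i₀) * Real.exp (-(T ^ (1 / 4 : ℝ)))) := by
            refine mul_le_mul h4 (h5.trans (by gcongr)) (norm_nonneg _) (by positivity)
        _ = _ := by rw [hK₂]; ring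
    have h4 := intervalIntegral.norm_integral_le_of_norm_le_const h3
    refine h4.trans ?_
    have h5 : |1 / 2 + η - (1 / 2 - η)| ≤ T := by
      rw [abs_of_nonneg (by linarith)]
      linarith
    gcongr
  have hh1 := hhor (-Y) (by rw [abs_neg, abs_of_pos hY0])
  have hh2 := hhor Y (abs_of_pos hY0)
  -- the vertical sides
  have hright : (∫ y in (-Y)..Y, AA w g (((1 / 2 + η : ℝ) : ℂ) + y * I) *
      Kf T (om i₀) (((1 / 2 + η : ℝ) : ℂ) + y * I)) =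
      -∫ t in (-Y)..Y, Ds a om (((1 / 2 + η : ℝ) : ℂ) + t * I) * W T η (om i₀) t := by
    rw [← intervalIntegral.integral_neg]
    refine intervalIntegral.integral_congr fun t _ => ?_
    rw [(h.right _ (by simp; linarith)).2, Kf_eq]
    ring
  have hleft : (∫ y in (-Y)..Y, AA w g (((1 / 2 - η : ℝ) : ℂ) + y * I) *
      Kf T (om i₀) (((1 / 2 - η : ℝ) : ℂ) + y * I)) =
      ∫ t in (-Y)..Y, AA w g (((1 / 2 - η : ℝ) : ℂ) + t * I) * W T (-η) (om i₀) t := by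
    refine intervalIntegral.integral_congr fun t _ => ?_
    rw [show (1 / 2 - η : ℝ) = 1 / 2 + (-η) by ring, Kf_eq]
  unfold rect at hrect
  rw [hright, hleft] at hrect
  set Rt := ∫ t in (-Y)..Y, Ds a om (((1 / 2 + η : ℝ) : ℂ) + t * I) * W T η (om i₀) t with hRt
  set Lt := ∫ t in (-Y)..Y, AA w g (((1 / 2 - η : ℝ) : ℂ) + t * I) * W T (-η) (om i₀) t with hLt
  set h₁ := ∫ x in (1 / 2 - η)..(1 / 2 + η), AA w g ((x : ℂ) + ((-Y : ℝ) : ℂ) * I) *
    Kf T (om i₀) ((x : ℂ) + ((-Y : ℝ) : ℂ) * I) with hh₁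
  set h₂ := ∫ x in (1 / 2 - η)..(1 / 2 + η), AA w g ((x : ℂ) + (Y : ℂ) * I) *
    Kf T (om i₀) ((x : ℂ) + (Y : ℂ) * I) with hh₂
  set Q := 2 * Real.pi * I * ∑ z ∈ S, (mm w g z : ℂ) * Kf T (om i₀) z with hQ
  have hR' : Rt = I * Q - I * h₁ + I * h₂ - Lt := by
    have h3 : Q = h₁ - h₂ + I * (-Rt) - I * Lt := by
      rw [← hrect]
      simp only [smul_eq_mul]
    rw [h3]
    have : I * I = -1 := I_mul_I
    linear_combination (Rt + Lt) * this
  have hRn : ‖Rt‖ ≤ ‖Q‖ + ‖h₁‖ + ‖h₂‖ + ‖Lt‖ := by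
    rw [hR']
    refine (norm_sub_le _ _).trans ?_
    refine add_le_add ((norm_add_le _ _).trans (add_le_add ((norm_sub_le _ _).trans
      (add_le_add ?_ ?_)) ?_)) le_rfl <;> rw [norm_mul, norm_I, one_mul]
  have hmain : A * T ≤ ‖Rt‖ + A / 8 * T := by
    have h3 := norm_sub_norm_le (a i₀ * (Real.exp (-(om i₀ / 2)) * Real.sqrt Real.pi * T : ℝ)) Rt
    rw [norm_sub_rev] at h3
    have h4 : ‖a i₀ * ((Real.exp (-(om i₀ / 2)) * Real.sqrt Real.pi * T : ℝ) : ℂ)‖ = A * T := by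
      rw [norm_mul, Complex.norm_real, Real.norm_of_nonneg (by positivity), hA, hκ]
      ring
    rw [h4] at h3
    linarith
  have h3 : K₁ * T ^ (-(5 / 32) : ℝ) * T + 2 * (K₂ * (T ^ (9 / 4 : ℝ) *
      Real.exp (-(T ^ (1 / 4 : ℝ)))) * T) ≤ A / 8 * T := by
    have : K₁ * T ^ (-(5 / 32) : ℝ) * T + 2 * (K₂ * (T ^ (9 / 4 : ℝ) *
      Real.exp (-(T ^ (1 / 4 : ℝ)))) * T) = (K₁ * T ^ (-(5 / 32) : ℝ) +
      2 * (K₂ * (T ^ (9 / 4 : ℝ) * Real.exp (-(T ^ (1 / 4 : ℝ)))))) * T := by ring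
    rw [this]
    gcongr
  have h4 : 0 < A * T := by positivity
  nlinarith

end Pool.Agent.N210.FV
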