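import Mathlib
import Pool.Agent.H491R3.Gauss

/-!
# Gaussian means of functions on a line against an exponential
-/

set_option autoImplicit false

namespace Pool.Agent.N210.FV

open Filter Topology Complex MeasureTheory Set Pool.Agent.H491R3

/-- the weight -/
noncomputable def W (T x ω t : ℝ) : ℂ := KK T 0 (x + t * I) * exp ((x + t * I) * ω)

theorem W_norm {T : ℝ} (hT : 0 < T) (x ω t : ℝ) :
    ‖W T x ω t‖ = Real.exp ((x ^ 2 - t ^ 2) / T ^ 2) * Real.exp (x * ω) := by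
  unfold W
  rw [norm_mul, KK_norm T 0 x t hT, Complex.norm_exp]
  simp

theorem W_le {T : ℝ} (hT : 1 ≤ T) (x ω t : ℝ) :
    ‖W T x ω t‖ ≤ Real.exp (x ^ 2 + x * ω) * Real.exp (-(t ^ 2 / T ^ 2)) := by
  rw [W_norm (by linarith), ← Real.exp_add, ← Real.exp_add]
  apply Real.exp_le_exp.2
  have h1 : x ^ 2 / T ^ 2 ≤ x ^ 2 := div_le_self (sq_nonneg x) (one_le_pow₀ hT)
  rw [sub_div]
  linarith

theorem W_le' {T : ℝ} (hT : 1 ≤ T) (x ω t : ℝ) :
    ‖W T x ω t‖ ≤ Real.exp (x ^ 2 + x * ω) * Real.exp (-(t ^ 2 / (2 * T ^ 2))) := by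
  refine (W_le hT x ω t).trans ?_
  gcongr
  have : 0 < T := by linarith
  nlinarith [sq_nonneg T]

theorem W_cont (T x ω : ℝ) : Continuous (W T x ω) := by
  unfold W KK
  fun_prop

/-- a Gaussian bound for the integrals -/
theorem int_le {F : ℝ → ℂ} {b₁ b₂ T R : ℝ} (hb1 : 0 ≤ b₁) (hb2 : 0 ≤ b₂) (hT : 0 < T) (hR : 0 < R)
    (hF : ∀ t, ‖F t‖ ≤ b₁ * Real.exp (-(t ^ 2 / (2 * T ^ 2))) + b₂ * Real.exp (-(t ^ 2 / (2 * R ^ 2))))
    {Y : ℝ} (hY : 0 ≤ Y) :
    ‖∫ t in (-Y)..Y, F t‖ ≤ Real.sqrt (2 * Real.pi) * (b₁ * T + b₂ * R) := by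
  obtain ⟨g1, g2⟩ := gauss_real hT 0
  obtain ⟨g3, g4⟩ := gauss_real hR 0
  simp only [sub_zero] at g1 g2 g3 g4
  have hi : Integrable fun t : ℝ => b₁ * Real.exp (-(t ^ 2 / (2 * T ^ 2))) +
      b₂ * Real.exp (-(t ^ 2 / (2 * R ^ 2))) := (g1.const_mul b₁).add (g3.const_mul b₂)
  have h1 : ‖∫ t in (-Y)..Y, F t‖ ≤ ∫ t in (-Y)..Y, (b₁ * Real.exp (-(t ^ 2 / (2 * T ^ 2))) +
      b₂ * Real.exp (-(t ^ 2 / (2 * R ^ 2)))) :=
    intervalIntegral.norm_integral_le_of_norm_le (by linarith)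
      (Eventually.of_forall fun t _ => hF t) (hi.intervalIntegrable)
  refine h1.trans ?_
  rw [intervalIntegral.integral_of_le (by linarith)]
  refine (setIntegral_le_integral hi (Eventually.of_forall fun t => by positivity)).trans ?_
  rw [integral_add (g1.const_mul b₁) (g3.const_mul b₂), integral_const_mul, integral_const_mul, g2, g4]
  apply le_of_eq
  ring

/-- the Gaussian means of `g` against the weight tend to zero -/
def Null (ω x : ℝ) (g : ℝ → ℂ) : Prop := Continuous g ∧ ∀ ε : ℝ, 0 < ε → ∀ᶠ T : ℝ in atTop,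
  ∀ Y : ℝ, T ^ (9 / 8 : ℝ) ≤ Y → ‖∫ t in (-Y)..Y, g t * W T x ω t‖ ≤ ε * T

variable {ω x : ℝ} {g h : ℝ → ℂ}

theorem ii (hg : Continuous g) (T a b : ℝ) :
    IntervalIntegrable (fun t => g t * W T x ω t) volume a b :=
  (hg.mul (W_cont T x ω)).intervalIntegrable a b

theorem Null.add (hg : Null ω x g) (hh : Null ω x h) : Null ω x fun t => g t + h t := by
  refine ⟨hg.1.add hh.1, fun ε hε => ?_⟩
  filter_upwards [hg.2 (ε / 2) (by linarith), hh.2 (ε / 2) (by linarith)] with T h1 h2 Y hY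
  have e : (fun t => (g t + h t) * W T x ω t) = fun t => g t * W T x ω t + h t * W T x ω t := by
    funext t
    ring
  rw [e, intervalIntegral.integral_add (ii hg.1 T _ _) (ii hh.1 T _ _)]
  refine (norm_add_le _ _).trans ?_
  have := h1 Y hY
  have := h2 Y hY
  linarith

theorem Null.const_mul (hg : Null ω x g) (c : ℂ) : Null ω x fun t => c * g t := by
  refine ⟨continuous_const.mul hg.1, fun ε hε => ?_⟩
  filter_upwards [hg.2 (ε / (‖c‖ + 1)) (by positivity), eventually_ge_atTop 0] with T h1 hT Y hY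
  have e : (fun t => (c * g t) * W T x ω t) = fun t => c * (g t * W T x ω t) := by
    funext t
    ring
  rw [e, intervalIntegral.integral_const_mul, norm_mul]
  have h2 := h1 Y hY
  calc ‖c‖ * ‖∫ t in (-Y)..Y, g t * W T x ω t‖ ≤ (‖c‖ + 1) * (ε / (‖c‖ + 1) * T) := by gcongr; linarith
    _ = ε * T := by field_simp

theorem Null.sum {ι : Type*} (s : Finset ι) {f : ι → ℝ → ℂ} (hf : ∀ i ∈ s, Null ω x (f i)) :
    Null ω x fun t => ∑ i ∈ s, f i t := by
  classical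
  induction s using Finset.induction_on with
  | empty =>
    refine ⟨by simpa using continuous_const, fun ε hε => ?_⟩
    filter_upwards [eventually_ge_atTop 0] with T hT Y _
    simp
    positivity
  | insert a s ha ih =>
    have h1 : (fun t => ∑ i ∈ insert a s, f i t) = fun t => f a t + ∑ i ∈ s, f i t := by
      funext t
      rw [Finset.sum_insert ha]
    rw [h1]
    exact (hf a (Finset.mem_insert_self a s)).add
      (ih fun i hi => hf i (Finset.mem_insert_of_mem hi))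

theorem tend_exp {c : ℝ} (hc : 0 < c) : Tendsto (fun T : ℝ => Real.exp (-(c * T ^ 2))) atTop (𝓝 0) := by
  refine Real.tendsto_exp_neg_atTop_nhds_zero.comp ?_
  exact (tendsto_pow_atTop (by norm_num)).const_mul_atTop hc

theorem tail_small : Tendsto (fun T : ℝ => Real.exp (-(T ^ (1 / 4 : ℝ) / 2))) atTop (𝓝 0) := by
  refine Real.tendsto_exp_neg_atTop_nhds_zero.comp ?_
  exact (tendsto_rpow_atTop (by norm_num)).atTop_div_const (by norm_num)

theorem pow_aux {T Y : ℝ} (hT : 1 ≤ T) (hY : T ^ (9 / 8 : ℝ) ≤ Y) : T ^ (1 / 4 : ℝ) ≤ Y ^ 2 / T ^ 2 := by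
  have hT0 : 0 < T := by linarith
  rw [le_div_iff₀ (by positivity)]
  have h1 : T ^ (1 / 4 : ℝ) * T ^ 2 = (T ^ (9 / 8 : ℝ)) ^ 2 := by
    rw [← Real.rpow_natCast (T ^ (9 / 8 : ℝ)) 2, ← Real.rpow_mul hT0.le, ← Real.rpow_natCast T 2,
      ← Real.rpow_add hT0]
    norm_num
  rw [h1]
  gcongr

theorem Y_ge {T Y : ℝ} (hT : 1 ≤ T) (hY : T ^ (9 / 8 : ℝ) ≤ Y) : T ≤ Y := by
  refine le_trans ?_ hY
  have := Real.rpow_le_rpow_of_exponent_le hT (show (1 : ℝ) ≤ 9 / 8 by norm_num)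
  rwa [Real.rpow_one] at this

/-- the exponential integral -/
theorem exp_int (θ : ℝ) {T : ℝ} (hT : 1 ≤ T) {Y : ℝ} (hY : T ^ (9 / 8 : ℝ) ≤ Y) :
    ‖(∫ t in (-Y)..Y, exp (t * θ * I) * W T x ω t) -
      (Real.sqrt Real.pi * T * Real.exp (-(x * θ)) * Real.exp (-(T ^ 2 * (ω + θ) ^ 2 / 4)) : ℝ)‖ ≤
      (Real.exp (x ^ 2 + |x * ω|) * Real.sqrt (2 * Real.pi) * Real.exp (-(T ^ (1 / 4 : ℝ) / 2))) * T := by
  have hT0 : 0 < T := by linarith
  have hY0 : 0 ≤ Y := le_trans (by positivity) hY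
  have h1 := gauss_seg hT0 hY0 x 0 (ω + θ)
  rw [zero_sub, zero_add] at h1
  have e : (fun t : ℝ => exp (t * θ * I) * W T x ω t) =
      fun t : ℝ => (Real.exp (-(x * θ)) : ℂ) * (KK T 0 (x + t * I) * exp ((x + t * I) * (ω + θ : ℝ))) := by
    funext t
    unfold W
    rw [mul_left_comm, mul_left_comm _ (KK T 0 _), ofReal_exp, ← exp_add, ← exp_add]
    congr 2
    push_cast
    ring
  rw [e, intervalIntegral.integral_const_mul]
  have e2 : ((Real.sqrt Real.pi * T * Real.exp (-(x * θ)) *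
      Real.exp (-(T ^ 2 * (ω + θ) ^ 2 / 4)) : ℝ) : ℂ) = (Real.exp (-(x * θ)) : ℂ) *
      ((Real.sqrt Real.pi * T : ℝ) * exp ((0 : ℝ) * (ω + θ : ℝ) * I) *
        (Real.exp (-(T ^ 2 * (ω + θ) ^ 2 / 4)) : ℝ)) := by
    rw [ofReal_zero, zero_mul, zero_mul, exp_zero]
    push_cast
    ring
  rw [e2, ← mul_sub, norm_mul]
  have h2 : ‖(Real.exp (-(x * θ)) : ℂ)‖ = Real.exp (-(x * θ)) := by
    rw [Complex.norm_real, Real.norm_of_nonneg (Real.exp_pos _).le]
  rw [h2]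
  refine (mul_le_mul_of_nonneg_left h1 (Real.exp_pos _).le).trans ?_
  have h3 := pow_aux hT hY
  have h4 : Real.exp (-(Y ^ 2 / (2 * T ^ 2))) ≤ Real.exp (-(T ^ (1 / 4 : ℝ) / 2)) := by
    apply Real.exp_le_exp.2
    have : Y ^ 2 / (2 * T ^ 2) = Y ^ 2 / T ^ 2 / 2 := by rw [div_div, mul_comm]
    rw [this]
    linarith
  have h5 : Real.exp (-(x * θ)) * Real.exp (x ^ 2 / T ^ 2 + x * (ω + θ)) ≤ Real.exp (x ^ 2 + |x * ω|) := by
    rw [← Real.exp_add]
    apply Real.exp_le_exp.2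
    have h6 : x ^ 2 / T ^ 2 ≤ x ^ 2 := div_le_self (sq_nonneg x) (one_le_pow₀ hT)
    have h7 := le_abs_self (x * ω)
    linarith
  calc Real.exp (-(x * θ)) * (Real.exp (x ^ 2 / T ^ 2 + x * (ω + θ)) *
        Real.exp (-(Y ^ 2 / (2 * T ^ 2))) * (Real.sqrt (2 * Real.pi) * T))
      = (Real.exp (-(x * θ)) * Real.exp (x ^ 2 / T ^ 2 + x * (ω + θ))) *
        Real.exp (-(Y ^ 2 / (2 * T ^ 2))) * (Real.sqrt (2 * Real.pi) * T) := by ring
    _ ≤ Real.exp (x ^ 2 + |x * ω|) * Real.exp (-(T ^ (1 / 4 : ℝ) / 2)) *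
        (Real.sqrt (2 * Real.pi) * T) := by gcongr
    _ = _ := by ring

theorem null_exp {θ : ℝ} (hθ : ω + θ ≠ 0) : Null ω x fun t => exp (t * θ * I) := by
  refine ⟨by fun_prop, fun ε hε => ?_⟩
  set A : ℝ := Real.exp (x ^ 2 + |x * ω|) * Real.sqrt (2 * Real.pi) with hA
  set B : ℝ := Real.sqrt Real.pi * Real.exp (-(x * θ)) with hB
  have hc : 0 < (ω + θ) ^ 2 / 4 := by positivity
  have h1 : Tendsto (fun T : ℝ => A * Real.exp (-(T ^ (1 / 4 : ℝ) / 2)) +
      B * Real.exp (-((ω + θ) ^ 2 / 4 * T ^ 2))) atTop (𝓝 0) := by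
    have := (tail_small.const_mul A).add ((tend_exp hc).const_mul B)
    simpa using this
  filter_upwards [h1.eventually (gt_mem_nhds hε), eventually_ge_atTop 1] with T h2 hT Y hY
  have h3 := exp_int (ω := ω) (x := x) θ hT hY
  have h4 := norm_le_norm_sub_add (∫ t in (-Y)..Y, exp (t * θ * I) * W T x ω t)
    ((Real.sqrt Real.pi * T * Real.exp (-(x * θ)) * Real.exp (-(T ^ 2 * (ω + θ) ^ 2 / 4)) : ℝ) : ℂ)
  have h5 : ‖((Real.sqrt Real.pi * T * Real.exp (-(x * θ)) *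
      Real.exp (-(T ^ 2 * (ω + θ) ^ 2 / 4)) : ℝ) : ℂ)‖ =
      B * Real.exp (-((ω + θ) ^ 2 / 4 * T ^ 2)) * T := by
    rw [Complex.norm_real, Real.norm_of_nonneg (by positivity), hB]
    have : T ^ 2 * (ω + θ) ^ 2 / 4 = (ω + θ) ^ 2 / 4 * T ^ 2 := by ring
    rw [this]
    ring
  rw [h5] at h4
  have hT0 : 0 < T := by linarith
  calc _ ≤ A * Real.exp (-(T ^ (1 / 4 : ℝ) / 2)) * T +
        B * Real.exp (-((ω + θ) ^ 2 / 4 * T ^ 2)) * T := h4.trans (by linarith)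
    _ = (A * Real.exp (-(T ^ (1 / 4 : ℝ) / 2)) +
        B * Real.exp (-((ω + θ) ^ 2 / 4 * T ^ 2))) * T := by ring
    _ ≤ ε * T := by gcongr

/-- uniform limits -/
theorem null_lim (hg : Continuous g)
    (h : ∀ ε : ℝ, 0 < ε → ∃ f : ℝ → ℂ, Null ω x f ∧ ∀ t, ‖g t - f t‖ ≤ ε) : Null ω x g := by
  refine ⟨hg, fun ε hε => ?_⟩
  set A : ℝ := Real.exp (x ^ 2 + x * ω) * Real.sqrt (2 * Real.pi) + 1 with hA
  have hA0 : 0 < A := by positivity
  obtain ⟨f, hf, hgf⟩ := h (ε / (2 * A)) (by positivity)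
  filter_upwards [hf.2 (ε / 2) (by linarith), eventually_ge_atTop 1] with T h1 hT Y hY
  have hT0 : 0 < T := by linarith
  have hY0 : 0 ≤ Y := le_trans (by positivity) hY
  have e : (fun t => g t * W T x ω t) = fun t => f t * W T x ω t + (g t - f t) * W T x ω t := by
    funext t
    ring
  rw [e, intervalIntegral.integral_add (ii hf.1 T _ _) (ii (g := fun t => g t - f t) (hg.sub hf.1) T _ _)]
  refine (norm_add_le _ _).trans ?_
  have h2 := h1 Y hY
  have h3 : ‖∫ t in (-Y)..Y, (g t - f t) * W T x ω t‖ ≤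
      Real.sqrt (2 * Real.pi) * ((ε / (2 * A) * Real.exp (x ^ 2 + x * ω)) * T + 0 * 1) := by
    refine int_le (by positivity) le_rfl hT0 one_pos (fun t => ?_) hY0
    rw [norm_mul, zero_mul, add_zero, mul_assoc]
    exact mul_le_mul (hgf t) (W_le' hT x ω t) (norm_nonneg _) (by positivity)
  have h4 : Real.sqrt (2 * Real.pi) * ((ε / (2 * A) * Real.exp (x ^ 2 + x * ω)) * T + 0 * 1) ≤
      ε / 2 * T := by
    have h5 : Real.sqrt (2 * Real.pi) * ((ε / (2 * A) * Real.exp (x ^ 2 + x * ω)) * T + 0 * 1) =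
        (A - 1) * (ε / (2 * A) * T) := by
      rw [hA]
      ring
    rw [h5]
    calc (A - 1) * (ε / (2 * A) * T) ≤ A * (ε / (2 * A) * T) := by gcongr; linarith
      _ = ε / 2 * T := by field_simp
  linarith

/-- slowly varying functions -/
theorem null_slow (hω : ω ≠ 0) {g' : ℝ → ℂ} (hd : ∀ t, HasDerivAt g (g' t) t) (hc : Continuous g')
    {C : ℝ} (hC : ∀ t, ‖g t‖ ≤ C * (1 + |t|) ^ (1 / 2 : ℝ))
    (h0 : ∀ ε : ℝ, 0 < ε → ∃ R : ℝ, ∀ t, R ≤ |t| → ‖g' t‖ ≤ ε) : Null ω x g := by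
  have hgc : Continuous g := continuous_iff_continuousAt.2 fun t => (hd t).continuousAt
  have hC0 : 0 ≤ C := by
    have := (norm_nonneg _).trans (hC 0)
    simpa using this
  refine ⟨hgc, fun ε hε => ?_⟩
  set E : ℝ := Real.exp (x ^ 2 + x * ω) with hE
  have hE0 : 0 < E := Real.exp_pos _
  set S : ℝ := Real.sqrt (2 * Real.pi) with hS
  have hS0 : 0 < S := by positivity
  have hw : 0 < |ω| := abs_pos.2 hω
  -- the derivative is small at infinity and bounded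
  set ε₁ : ℝ := ε * |ω| / (4 * (E * S)) with hε₁
  have hε₁0 : 0 < ε₁ := by positivity
  obtain ⟨R₀, hR₀⟩ := h0 ε₁ hε₁0
  set R : ℝ := max R₀ 1 with hR
  have hR1 : 1 ≤ R := le_max_right _ _
  have hR0 : 0 < R := by linarith
  obtain ⟨B, hB⟩ := (isCompact_Icc (a := -R) (b := R)).exists_bound_of_continuousOn hc.continuousOn
  have hB0 : 0 ≤ B := (norm_nonneg _).trans (hB 0 ⟨by linarith, by linarith⟩)
  have hg' : ∀ t, ‖g' t‖ ≤ ε₁ + (B * 2) * Real.exp (-(t ^ 2 / (2 * R ^ 2))) := by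
    intro t
    by_cases ht : R ≤ |t|
    · have h1 := hR₀ t ((le_max_left _ _).trans ht)
      have : 0 ≤ (B * 2) * Real.exp (-(t ^ 2 / (2 * R ^ 2))) := by positivity
      linarith
    · push Not at ht
      have h1 := hB t ⟨by linarith [(abs_lt.1 ht).1], (abs_lt.1 ht).2.le⟩
      have h2 : (1 : ℝ) ≤ 2 * Real.exp (-(t ^ 2 / (2 * R ^ 2))) := by
        have h3 : t ^ 2 / (2 * R ^ 2) ≤ 1 / 2 := by
          rw [div_le_div_iff₀ (by positivity) (by norm_num)]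
          have : t ^ 2 ≤ R ^ 2 := by
            rw [← sq_abs t]
            gcongr
          linarith
        have h4 : Real.exp (-(1 / 2 : ℝ)) ≤ Real.exp (-(t ^ 2 / (2 * R ^ 2))) :=
          Real.exp_le_exp.2 (by linarith)
        have h5 : (1 / 2 : ℝ) ≤ Real.exp (-(1 / 2 : ℝ)) := by
          have := Real.add_one_le_exp (-(1 / 2 : ℝ))
          linarith
        linarith
      nlinarith
  -- eventually
  have hlim : Tendsto (fun T : ℝ => (E / |ω|) * (4 * C * T ^ (-(1 / 8) : ℝ) + S * (B * 2 * R) * T⁻¹ +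
      S * (8 * C * (1 + |x|)) * T ^ (-(1 / 2) : ℝ))) atTop (𝓝 0) := by
    have h1 := (tendsto_rpow_neg_atTop (show (0 : ℝ) < 1 / 8 by norm_num)).const_mul (4 * C)
    have h2 := tendsto_inv_atTop_zero (𝕜 := ℝ) |>.const_mul (S * (B * 2 * R))
    have h3 := (tendsto_rpow_neg_atTop (show (0 : ℝ) < 1 / 2 by norm_num)).const_mul
      (S * (8 * C * (1 + |x|)))
    have := (((h1.add h2).add h3).const_mul (E / |ω|))
    simpa using this
  filter_upwards [hlim.eventually (gt_mem_nhds (show (0 : ℝ) < ε / 2 by linarith)),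
    eventually_ge_atTop 1] with T h1 hT Y hY
  have hT0 : 0 < T := by linarith
  have hTY : T ≤ Y := Y_ge hT hY
  have hY1 : 1 ≤ Y := hT.trans hTY
  have hY0 : 0 ≤ Y := by linarith
  -- integration by parts
  set e : ℝ → ℂ := fun t => exp ((x + t * I) * ω) / (I * ω) with he
  have hIω : (I * ω : ℂ) ≠ 0 := mul_ne_zero I_ne_zero (by exact_mod_cast hω)
  have hed : ∀ t : ℝ, HasDerivAt e (exp ((x + t * I) * ω)) t := by
    intro t
    have h2 : HasDerivAt (fun t : ℝ => ((x : ℂ) + t * I) * ω) (I * ω) t := by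
      have h3 := (((Complex.ofRealCLM.hasDerivAt (x := t)).mul_const I).const_add (x : ℂ)).mul_const (ω : ℂ)
      simpa using h3
    have h4 := (h2.cexp).div_const (I * ω)
    rwa [mul_div_assoc, div_self hIω, mul_one] at h4
  have hkd : ∀ t : ℝ, HasDerivAt (fun t : ℝ => KK T 0 (x + t * I))
      (KK T 0 (x + t * I) * (2 * (x + t * I) * I / (T : ℂ) ^ 2)) t := by
    intro t
    have h2 : HasDerivAt (fun t : ℝ => ((x : ℂ) + t * I - ((0 : ℝ) : ℂ) * I)) I t := by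
      have h3 := (((Complex.ofRealCLM.hasDerivAt (x := t)).mul_const I).const_add (x : ℂ)).sub_const
        (((0 : ℝ) : ℂ) * I)
      simpa using h3
    have h4 := ((h2.pow 2).div_const ((T : ℂ) ^ 2)).cexp
    simp only [Pi.pow_apply] at h4
    unfold KK
    refine h4.congr_deriv ?_
    push_cast
    ring
  have hud : ∀ t : ℝ, HasDerivAt (fun t => g t * KK T 0 (x + t * I))
      (g' t * KK T 0 (x + t * I) +
        g t * (KK T 0 (x + t * I) * (2 * (x + t * I) * I / (T : ℂ) ^ 2))) t := fun t =>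
    (hd t).mul (hkd t)
  have hKc : Continuous fun t : ℝ => KK T 0 (x + t * I) := by
    unfold KK
    fun_prop
  have hparts := intervalIntegral.integral_mul_deriv_eq_deriv_mul (a := -Y) (b := Y)
    (u := fun t => g t * KK T 0 (x + t * I)) (v := e)
    (u' := fun t => g' t * KK T 0 (x + t * I) +
        g t * (KK T 0 (x + t * I) * (2 * (x + t * I) * I / (T : ℂ) ^ 2)))
    (v' := fun t : ℝ => exp ((x + t * I) * ω))
    (fun t _ => hud t) (fun t _ => hed t)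
    ((by fun_prop : Continuous fun t : ℝ => g' t * KK T 0 (x + t * I) +
        g t * (KK T 0 (x + t * I) * (2 * (x + t * I) * I / (T : ℂ) ^ 2))).intervalIntegrable _ _)
    ((by fun_prop : Continuous fun t : ℝ => exp (((x : ℂ) + t * I) * ω)).intervalIntegrable _ _)
  have hmain : ∫ t in (-Y)..Y, g t * W T x ω t =
      (g Y * KK T 0 (x + (Y : ℝ) * I) * e Y - g (-Y) * KK T 0 (x + ((-Y : ℝ) : ℂ) * I) * e (-Y)) -
      ∫ t in (-Y)..Y, (g' t * KK T 0 (x + t * I) +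
        g t * (KK T 0 (x + t * I) * (2 * (x + t * I) * I / (T : ℂ) ^ 2))) * e t := by
    rw [← hparts]
    refine intervalIntegral.integral_congr fun t _ => ?_
    simp only [W]
    ring
  -- norms
  have hWe : ∀ t : ℝ, ‖KK T 0 (x + t * I)‖ * ‖e t‖ ≤ E / |ω| * Real.exp (-(t ^ 2 / T ^ 2)) := by
    intro t
    have h2 := W_le hT x ω t
    rw [W, norm_mul] at h2
    have h3 : ‖e t‖ = ‖exp (((x : ℂ) + t * I) * ω)‖ / |ω| := by
      rw [he]
      simp only
      rw [norm_div, norm_mul, norm_I, one_mul, Complex.norm_real, Real.norm_eq_abs]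
    rw [h3, ← mul_div_assoc, div_mul_eq_mul_div]
    gcongr
  have hexp2 : ∀ t : ℝ, Real.exp (-(t ^ 2 / T ^ 2)) ≤ Real.exp (-(t ^ 2 / (2 * T ^ 2))) := by
    intro t
    apply Real.exp_le_exp.2
    have : t ^ 2 / (2 * T ^ 2) ≤ t ^ 2 / T ^ 2 := by
      gcongr
      nlinarith [sq_nonneg T]
    linarith
  -- boundary terms
  have hbd : ∀ y : ℝ, |y| = Y → ‖g y * KK T 0 (x + y * I) * e y‖ ≤
      E / |ω| * (2 * C * T ^ (7 / 8 : ℝ)) := by
    intro y hy
    rw [norm_mul, norm_mul, mul_assoc]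
    have h2 := hC y
    rw [hy] at h2
    have h3 := hWe y
    have hy2 : y ^ 2 = Y ^ 2 := by rw [← sq_abs, hy]
    rw [hy2] at h3
    have h4 : Real.exp (-(Y ^ 2 / T ^ 2)) ≤ T ^ 2 / Y ^ 2 := by
      have h5 := Real.add_one_le_exp (Y ^ 2 / T ^ 2)
      have h6 : Y ^ 2 / T ^ 2 ≤ Real.exp (Y ^ 2 / T ^ 2) := by linarith
      rw [Real.exp_neg]
      calc (Real.exp (Y ^ 2 / T ^ 2))⁻¹ ≤ (Y ^ 2 / T ^ 2)⁻¹ := by
            apply inv_anti₀ (by positivity) h6
        _ = T ^ 2 / Y ^ 2 := by rw [inv_div]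
    have h5 : (1 + Y) ^ (1 / 2 : ℝ) ≤ 2 * Y := by
      have h6 : (1 + Y) ^ (1 / 2 : ℝ) ≤ (1 + Y) ^ (1 : ℝ) :=
        Real.rpow_le_rpow_of_exponent_le (by linarith) (by norm_num)
      rw [Real.rpow_one] at h6
      linarith
    have h7 : T ^ 2 / Y ≤ T ^ (7 / 8 : ℝ) := by
      rw [div_le_iff₀ (by linarith)]
      calc T ^ 2 = T ^ (7 / 8 : ℝ) * T ^ (9 / 8 : ℝ) := by
            rw [← Real.rpow_add hT0, ← Real.rpow_natCast T 2]
            norm_num
        _ ≤ T ^ (7 / 8 : ℝ) * Y := by gcongr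
    calc ‖g y‖ * (‖KK T 0 (x + y * I)‖ * ‖e y‖)
        ≤ (C * (2 * Y)) * (E / |ω| * (T ^ 2 / Y ^ 2)) := by
          refine mul_le_mul (h2.trans (by gcongr)) (h3.trans (by gcongr)) (by positivity)
            (by positivity)
      _ = E / |ω| * (2 * C * (T ^ 2 / Y)) := by field_simp
      _ ≤ E / |ω| * (2 * C * T ^ (7 / 8 : ℝ)) := by gcongr
  -- the remaining integral
  have hint : ‖∫ t in (-Y)..Y, (g' t * KK T 0 (x + t * I) +
        g t * (KK T 0 (x + t * I) * (2 * (x + t * I) * I / (T : ℂ) ^ 2))) * e t‖ ≤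
      S * ((E / |ω| * (ε₁ + 8 * C * (1 + |x|) * T ^ (-(1 / 2) : ℝ))) * T + (E / |ω| * (B * 2)) * R) := by
    refine int_le (by positivity) (by positivity) hT0 hR0 (fun t => ?_) hY0
    have h2 : ‖(g' t * KK T 0 (x + t * I) +
        g t * (KK T 0 (x + t * I) * (2 * (x + t * I) * I / (T : ℂ) ^ 2))) * e t‖ ≤
        (‖g' t‖ + ‖g t‖ * (2 * (|x| + |t|) / T ^ 2)) * (‖KK T 0 (x + t * I)‖ * ‖e t‖) := by
      rw [norm_mul]
      have h3 : ‖g' t * KK T 0 (x + t * I) +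
          g t * (KK T 0 (x + t * I) * (2 * (x + t * I) * I / (T : ℂ) ^ 2))‖ ≤
          (‖g' t‖ + ‖g t‖ * (2 * (|x| + |t|) / T ^ 2)) * ‖KK T 0 (x + t * I)‖ := by
        refine (norm_add_le _ _).trans ?_
        rw [norm_mul, norm_mul, norm_mul, norm_div, norm_mul, norm_mul, norm_I, norm_pow,
          Complex.norm_real, Real.norm_of_nonneg hT0.le, mul_one, RCLike.norm_ofNat]
        have h4 : ‖(x : ℂ) + t * I‖ ≤ |x| + |t| := by
          refine (norm_add_le _ _).trans ?_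
          rw [norm_mul, norm_I, mul_one, Complex.norm_real, Complex.norm_real, Real.norm_eq_abs,
            Real.norm_eq_abs]
        have h5 : ‖g t‖ * (‖KK T 0 (x + t * I)‖ * (2 * ‖(x : ℂ) + t * I‖ / T ^ 2)) ≤
            ‖g t‖ * (‖KK T 0 (x + t * I)‖ * (2 * (|x| + |t|) / T ^ 2)) := by gcongr
        calc _ ≤ ‖g' t‖ * ‖KK T 0 (x + t * I)‖ +
              ‖g t‖ * (‖KK T 0 (x + t * I)‖ * (2 * (|x| + |t|) / T ^ 2)) := by linarith
          _ = _ := by ring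
      calc _ ≤ ((‖g' t‖ + ‖g t‖ * (2 * (|x| + |t|) / T ^ 2)) * ‖KK T 0 (x + t * I)‖) * ‖e t‖ := by
            gcongr
        _ = _ := by ring
    refine h2.trans ?_
    -- the factor with `g`
    have h3 : ‖g t‖ * (2 * (|x| + |t|) / T ^ 2) * Real.exp (-(t ^ 2 / T ^ 2)) ≤
        8 * C * (1 + |x|) * T ^ (-(1 / 2) : ℝ) * Real.exp (-(t ^ 2 / (2 * T ^ 2))) := by
      have hv : |t| / T = |t| / T := rfl
      set v : ℝ := |t| / T with hvd
      have hv0 : 0 ≤ v := by positivity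
      have htv : |t| = v * T := by rw [hvd]; field_simp
      have h4 : 1 + |t| ≤ T * (1 + v) := by rw [htv]; nlinarith
      have h5 : (1 + |t|) ^ (1 / 2 : ℝ) ≤ T ^ (1 / 2 : ℝ) * (1 + v) := by
        calc (1 + |t|) ^ (1 / 2 : ℝ) ≤ (T * (1 + v)) ^ (1 / 2 : ℝ) := by gcongr
          _ = T ^ (1 / 2 : ℝ) * (1 + v) ^ (1 / 2 : ℝ) := Real.mul_rpow hT0.le (by positivity)
          _ ≤ T ^ (1 / 2 : ℝ) * (1 + v) := by
              gcongr
              have := Real.rpow_le_rpow_of_exponent_le (show (1 : ℝ) ≤ 1 + v by linarith)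
                (show (1 / 2 : ℝ) ≤ 1 by norm_num)
              rwa [Real.rpow_one] at this
      have h6 : |x| + |t| ≤ (1 + |x|) * (T * (1 + v)) := by
        have h7 : 0 ≤ |x| := abs_nonneg x
        have h8 : |x| ≤ |x| * (T * (1 + v)) := by
          have : 1 ≤ T * (1 + v) := by nlinarith
          nlinarith
        have h9 : |t| ≤ T * (1 + v) := by rw [htv]; nlinarith
        nlinarith
      have h10 : (1 + v) ^ 2 ≤ 4 * Real.exp (v ^ 2 / 2) := by
        have := Real.add_one_le_exp (v ^ 2 / 2)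
        nlinarith [sq_nonneg (v - 1)]
      have h11 : Real.exp (-(t ^ 2 / T ^ 2)) = Real.exp (-(v ^ 2)) := by
        congr 2
        rw [hvd, div_pow, sq_abs]
      have h12 : Real.exp (-(t ^ 2 / (2 * T ^ 2))) = Real.exp (-(v ^ 2 / 2)) := by
        congr 2
        rw [hvd, div_pow, sq_abs, div_div, mul_comm]
      have h13 : T ^ (1 / 2 : ℝ) * T / T ^ 2 = T ^ (-(1 / 2) : ℝ) := by
        have : T ^ (1 / 2 : ℝ) * T / T ^ 2 = T ^ (1 / 2 : ℝ) * T ^ (1 : ℝ) / T ^ (2 : ℝ) := by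
          rw [Real.rpow_one]
          norm_num
        rw [this, ← Real.rpow_add hT0, ← Real.rpow_sub hT0]
        norm_num
      rw [h11, h12]
      calc ‖g t‖ * (2 * (|x| + |t|) / T ^ 2) * Real.exp (-(v ^ 2))
          ≤ (C * (T ^ (1 / 2 : ℝ) * (1 + v))) * (2 * ((1 + |x|) * (T * (1 + v))) / T ^ 2) *
            Real.exp (-(v ^ 2)) := by
            have := hC t
            gcongr
            exact this.trans (by gcongr)
        _ = 2 * C * (1 + |x|) * (T ^ (1 / 2 : ℝ) * T / T ^ 2) * ((1 + v) ^ 2 * Real.exp (-(v ^ 2))) := by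
            ring
        _ ≤ 2 * C * (1 + |x|) * T ^ (-(1 / 2) : ℝ) * (4 * Real.exp (v ^ 2 / 2) * Real.exp (-(v ^ 2))) := by
            rw [h13]
            gcongr
        _ = 8 * C * (1 + |x|) * T ^ (-(1 / 2) : ℝ) * Real.exp (-(v ^ 2 / 2)) := by
            rw [mul_assoc 4, ← Real.exp_add]
            have : v ^ 2 / 2 + -(v ^ 2) = -(v ^ 2 / 2) := by ring
            rw [this]
            ring
    have h4 : ‖g' t‖ * Real.exp (-(t ^ 2 / T ^ 2)) ≤ ε₁ * Real.exp (-(t ^ 2 / (2 * T ^ 2))) +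
        (B * 2) * Real.exp (-(t ^ 2 / (2 * R ^ 2))) := by
      have h5 := hg' t
      have h6 := hexp2 t
      have h7 : Real.exp (-(t ^ 2 / T ^ 2)) ≤ 1 := Real.exp_le_one_iff.2 (by
        have : 0 ≤ t ^ 2 / T ^ 2 := by positivity
        linarith)
      calc ‖g' t‖ * Real.exp (-(t ^ 2 / T ^ 2))
          ≤ (ε₁ + (B * 2) * Real.exp (-(t ^ 2 / (2 * R ^ 2)))) * Real.exp (-(t ^ 2 / T ^ 2)) := by
            gcongr
        _ = ε₁ * Real.exp (-(t ^ 2 / T ^ 2)) +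
            (B * 2) * Real.exp (-(t ^ 2 / (2 * R ^ 2))) * Real.exp (-(t ^ 2 / T ^ 2)) := by ring
        _ ≤ ε₁ * Real.exp (-(t ^ 2 / (2 * T ^ 2))) +
            (B * 2) * Real.exp (-(t ^ 2 / (2 * R ^ 2))) * 1 := by gcongr
        _ = _ := by ring
    calc (‖g' t‖ + ‖g t‖ * (2 * (|x| + |t|) / T ^ 2)) * (‖KK T 0 (x + t * I)‖ * ‖e t‖)
        ≤ (‖g' t‖ + ‖g t‖ * (2 * (|x| + |t|) / T ^ 2)) *
          (E / |ω| * Real.exp (-(t ^ 2 / T ^ 2))) :=
          mul_le_mul_of_nonneg_left (hWe t) (by positivity)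
      _ = E / |ω| * (‖g' t‖ * Real.exp (-(t ^ 2 / T ^ 2)) +
          ‖g t‖ * (2 * (|x| + |t|) / T ^ 2) * Real.exp (-(t ^ 2 / T ^ 2))) := by ring
      _ ≤ E / |ω| * ((ε₁ * Real.exp (-(t ^ 2 / (2 * T ^ 2))) +
          (B * 2) * Real.exp (-(t ^ 2 / (2 * R ^ 2)))) +
          8 * C * (1 + |x|) * T ^ (-(1 / 2) : ℝ) * Real.exp (-(t ^ 2 / (2 * T ^ 2)))) := by
          gcongr
      _ = _ := by ring
  rw [hmain]
  have hb1 := hbd Y (abs_of_nonneg hY0)
  have hb2 := hbd (-Y) (by rw [abs_neg, abs_of_nonneg hY0])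
  have hp1 : T ^ (7 / 8 : ℝ) = T ^ (-(1 / 8) : ℝ) * T := by
    have : T ^ (-(1 / 8) : ℝ) * T = T ^ (-(1 / 8) : ℝ) * T ^ (1 : ℝ) := by rw [Real.rpow_one]
    rw [this, ← Real.rpow_add hT0]
    norm_num
  calc _ ≤ ‖g Y * KK T 0 (x + (Y : ℝ) * I) * e Y - g (-Y) * KK T 0 (x + ((-Y : ℝ) : ℂ) * I) * e (-Y)‖ +
        ‖∫ t in (-Y)..Y, (g' t * KK T 0 (x + t * I) +
        g t * (KK T 0 (x + t * I) * (2 * (x + t * I) * I / (T : ℂ) ^ 2))) * e t‖ := norm_sub_le _ _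
    _ ≤ (E / |ω| * (2 * C * T ^ (7 / 8 : ℝ)) + E / |ω| * (2 * C * T ^ (7 / 8 : ℝ))) +
        S * ((E / |ω| * (ε₁ + 8 * C * (1 + |x|) * T ^ (-(1 / 2) : ℝ))) * T +
          (E / |ω| * (B * 2)) * R) := by
        refine add_le_add ((norm_sub_le _ _).trans (add_le_add hb1 hb2)) hint
    _ = ((E / |ω|) * (4 * C * T ^ (-(1 / 8) : ℝ) + S * (B * 2 * R) * T⁻¹ +
        S * (8 * C * (1 + |x|)) * T ^ (-(1 / 2) : ℝ))) * T + S * (E / |ω|) * ε₁ * T := by
        rw [hp1]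
        field_simp
        ring
    _ ≤ ε / 2 * T + ε / 4 * T := by
        have h5 : S * (E / |ω|) * ε₁ = ε / 4 := by
          rw [hε₁]
          field_simp
        rw [h5]
        gcongr
    _ ≤ ε * T := by nlinarith

end Pool.Agent.N210.FV
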