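import Pool.Agent.N210.FV.Mom
import Pool.Agent.W189.TP.Land

/-!
# A pole on the real axis from nonnegative coefficients
-/

set_option autoImplicit false

namespace Pool.Agent.N210.FV

open Filter Topology Complex Set
open scoped ArithmeticFunction.vonMangoldt

variable {S : Finset ℕ} {G : ℕ → ℕ → ℂ} {M ρ : ℝ}

/-- the sum of `1/p` over the primes outside `S` diverges -/
theorem not_summ_P (S : Finset ℕ) : ¬ Summable fun p : PS S => 1 / ((p : ℕ) : ℝ) := by
  classical
  intro h
  apply not_summable_one_div_on_primes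
  have h1 : Summable (Set.indicator {p : ℕ | p.Prime ∧ p ∉ S} fun n : ℕ => (1 : ℝ) / n) :=
    summable_subtype_iff_indicator.1 h
  have h2 : Summable fun n : ℕ => if n ∈ S then (1 : ℝ) / n else 0 :=
    summable_of_ne_finset_zero (s := S) fun n hn => if_neg hn
  refine Summable.of_nonneg_of_le (fun n => Set.indicator_nonneg (fun n _ => by positivity) n)
    (fun n => ?_) (h1.add h2)
  have h4 : (0 : ℝ) ≤ 1 / n := by positivity
  rw [Set.indicator_apply, Set.indicator_apply]
  simp only [Set.mem_setOf_eq]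
  by_cases hp : n.Prime
  · by_cases hS : n ∈ S
    · simp [hp, hS]
    · simp [hp, hS]
  · by_cases hS : n ∈ S
    · simp [hp, hS, h4]
    · simp [hp, hS]

theorem re_analytic {φ : ℂ → ℂ} {β : ℝ} (h : AnalyticAt ℂ φ β) :
    AnalyticAt ℝ (fun t : ℝ => (-φ t).re) β := by
  have h1 : AnalyticAt ℝ (fun z : ℂ => -φ z) (β : ℂ) := (h.neg).restrictScalars
  have h2 : AnalyticAt ℝ (fun t : ℝ => (t : ℂ)) β := ofRealCLM.analyticAt β
  have h3 : AnalyticAt ℝ (fun t : ℝ => -φ t) β := AnalyticAt.comp' (g := fun z : ℂ => -φ z) h1 h2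
  exact AnalyticAt.comp' (g := fun z : ℂ => z.re) (reCLM.analyticAt _) h3

theorem exp_mono {a om t t' : ℝ} (ha : 0 ≤ a) (h0 : 0 ≤ om) (h : t ≤ t') :
    a * Real.exp (-(t' * om)) ≤ a * Real.exp (-(t * om)) := by
  gcongr

section

variable {J : Type*} [Fintype J] {w : J → ℝ} {g : J → ℂ → ℂ}

/-- a Dirichlet series with nonnegative coefficients over the powers of the primes, divergent at
`1/K`, forces a negative residue on the real axis -/
theorem landau_pole (hg : ∀ i, Differentiable ℂ (g i)) (hne : ∀ i, ∃ s, g i s ≠ 0)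
    (hb : Bnd S G M ρ) (hA : ∀ s : ℂ, 1 < s.re → A0 w g s = -Ds (aa S 1 G) (oo S 1) s)
    {r : ℕ → ℕ → ℝ} (hr : ∀ (p : PS S) (k : ℕ), G p (k + 1) = r p (k + 1))
    (hr0 : ∀ (p : PS S) (k : ℕ), 0 ≤ r p (k + 1)) {K : ℕ} {c₀ : ℝ} (hc₀ : 0 < c₀)
    (hK : ∀ p : PS S, r p (K + 1) = c₀) (h1 : mm w g 1 = 0) :
    ∃ β : ℝ, 0 < β ∧ β < 1 ∧ mm w g β < 0 := by
  classical
  set a : PS S × ℕ → ℝ := fun i => r i.1 (i.2 + 1) * Real.log (i.1 : ℕ) with ha
  have ha0 : ∀ i, 0 ≤ a i := fun i => mul_nonneg (hr0 i.1 i.2) i.1.log_pos.le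
  have haa : ∀ i, aa S 1 G i = a i := by
    intro i
    unfold aa
    rw [hr, ha]
    push_cast
    ring
  have hom : ∀ i, 0 ≤ oo S 1 i := fun i => oo_nonneg 1 i
  have hDs : ∀ t : ℝ, Ds (aa S 1 G) (oo S 1) t = ((∑' i, a i * Real.exp (-(t * oo S 1 i)) : ℝ) : ℂ) := by
    intro t
    unfold Ds
    rw [ofReal_tsum]
    refine tsum_congr fun i => ?_
    rw [haa]
    push_cast
    congr 2
    ring
  set T : Set ℝ := {t : ℝ | 0 < t ∧ Summable fun i => a i * Real.exp (-(t * oo S 1 i))} with hT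
  have hsum1 : ∀ t : ℝ, 1 < t → Summable fun i => a i * Real.exp (-(t * oo S 1 i)) := by
    intro t ht
    refine (hb.summ 1 (σ := t) (by linarith) (by simpa using ht)).congr fun i => ?_
    rw [haa, Complex.norm_real, Real.norm_of_nonneg (ha0 i), mul_comm t]
  have hmono : ∀ t t' : ℝ, t ≤ t' → (Summable fun i => a i * Real.exp (-(t * oo S 1 i))) →
      Summable fun i => a i * Real.exp (-(t' * oo S 1 i)) := by
    intro t t' htt h
    exact Summable.of_nonneg_of_le (fun i => mul_nonneg (ha0 i) (Real.exp_pos _).le)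
      (fun i => exp_mono (ha0 i) (hom i) htt) h
  have hTne : T.Nonempty := ⟨2, by norm_num, hsum1 2 (by norm_num)⟩
  have hK1 : (0 : ℝ) < 1 / ((K : ℝ) + 1) := by positivity
  have hTlow : ∀ t ∈ T, 1 / ((K : ℝ) + 1) < t := by
    rintro t ⟨ht, hts⟩
    by_contra hcon
    push Not at hcon
    apply not_summ_P S
    have h2 : Summable fun p : PS S => a (p, K) * Real.exp (-(t * oo S 1 (p, K))) :=
      hts.comp_injective (i := fun p : PS S => (p, K)) fun p q hpq => (Prod.ext_iff.1 hpq).1
    have hl2 : 0 < Real.log 2 := Real.log_pos (by norm_num)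
    have h3 := h2.mul_left (1 / (c₀ * Real.log 2))
    refine Summable.of_nonneg_of_le (fun p => by positivity) (fun p => ?_) h3
    have hl : Real.log 2 ≤ Real.log (p : ℕ) := Real.log_le_log (by norm_num)
      (by exact_mod_cast p.2.1.two_le)
    have h4 : 1 / ((p : ℕ) : ℝ) ≤ Real.exp (-(t * oo S 1 (p, K))) := by
      rw [one_div, ← Real.exp_log p.pos, ← Real.exp_neg]
      gcongr
      unfold oo
      rw [← mul_assoc]
      refine mul_le_of_le_one_left p.log_pos.le ?_
      push_cast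
      rw [le_div_iff₀ (by positivity)] at hcon
      exact hcon
    simp only [ha, hK]
    calc 1 / ((p : ℕ) : ℝ) ≤ Real.exp (-(t * oo S 1 (p, K))) := h4
      _ = 1 / (c₀ * Real.log 2) * (c₀ * Real.log 2 * Real.exp (-(t * oo S 1 (p, K)))) := by
        field_simp
      _ ≤ 1 / (c₀ * Real.log 2) * (c₀ * Real.log (p : ℕ) * Real.exp (-(t * oo S 1 (p, K)))) := by
        gcongr
  have hbdd : BddBelow T := ⟨1 / ((K : ℝ) + 1), fun t ht => (hTlow t ht).le⟩
  set β : ℝ := sInf T with hβ
  have hβlow : 1 / ((K : ℝ) + 1) ≤ β := le_csInf hTne fun t ht => (hTlow t ht).le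
  have hβ0 : 0 < β := by linarith
  have hβ1 : β ≤ 1 := by
    refine le_of_forall_pos_le_add fun ε hε => ?_
    exact csInf_le hbdd ⟨by linarith, hsum1 _ (by linarith)⟩
  have hgt : ∀ t : ℝ, β < t → Summable fun i => a i * Real.exp (-(t * oo S 1 i)) := by
    intro t ht
    obtain ⟨x, hx, hxt⟩ := exists_lt_of_csInf_lt hTne ht
    exact hmono x t hxt.le hx.2
  have hnorm : ∀ t : ℝ, β < t → Summable fun i => ‖aa S 1 G i‖ * Real.exp (-(oo S 1 i * t)) := by
    intro t ht
    refine (hgt t ht).congr fun i => ?_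
    rw [haa, Complex.norm_real, Real.norm_of_nonneg (ha0 i), mul_comm t]
  have hB : DifferentiableOn ℂ (fun s => -Ds (aa S 1 G) (oo S 1) s) {s | β < s.re} := by
    intro s hs
    have hs : β < s.re := hs
    have h2 := Ds_hasDeriv (σ := (β + s.re) / 2) (hnorm _ (by linarith)) hom (s := s) (by linarith)
    exact h2.differentiableAt.differentiableWithinAt.neg
  have hcont := right_of hg hne (w := w) (σ₁ := 1) hB fun s hs _ => hA s hs
  have hpole := AA_pole (w := w) hg hne (β : ℂ)
  have hofr : Tendsto (fun t : ℝ => (t : ℂ)) (𝓝[>] β) (𝓝[≠] (β : ℂ)) := by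
    rw [tendsto_nhdsWithin_iff]
    constructor
    · exact (continuous_ofReal.tendsto β).mono_left nhdsWithin_le_nhds
    · filter_upwards [self_mem_nhdsWithin] with t ht
      have ht : β < t := ht
      intro h2
      have h3 : (t : ℂ) = β := h2
      have h4 : t = β := by exact_mod_cast h3
      linarith
  -- the residue does not vanish
  have hne0 : mm w g β ≠ 0 := by
    intro h0
    obtain ⟨φ, hφ1, hφ2, hφ3⟩ := AA_loc (w := w) hg hne (β : ℂ)
    obtain ⟨t, ht, hts⟩ := Pool.Agent.W189.TP.landau_sum ha0 hom (re_analytic hφ1) hgt (by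
      filter_upwards [hofr.eventually hφ3, self_mem_nhdsWithin] with t h2 h3
      have h3 : β < t := h3
      have h4 := (hcont (t : ℂ) (by rw [ofReal_re]; exact h3)).2
      rw [h2, h0, hDs] at h4
      have h5 : φ t = -((∑' i, a i * Real.exp (-(t * oo S 1 i)) : ℝ) : ℂ) := by
        simpa using h4
      rw [h5, neg_neg, ofReal_re])
    have h2 := hmono t (max t (β / 2)) (le_max_left _ _) hts
    have h3 : max t (β / 2) ∈ T := ⟨lt_of_lt_of_le (by linarith) (le_max_right _ _), h2⟩
    have h4 := csInf_le hbdd h3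
    have h5 : max t (β / 2) < β := max_lt ht (by linarith)
    linarith
  have hsign : mm w g β ≤ 0 := by
    have h2 : Tendsto (fun t : ℝ => ((t : ℂ) - β) * AA w g t) (𝓝[>] β) (𝓝 (mm w g β : ℂ)) := by
      have h3 := ((sub_tendsto (β : ℂ)).mul hpole).comp hofr
      rw [zero_mul] at h3
      have h4 := h3.add_const (mm w g β : ℂ)
      rw [zero_add] at h4
      refine h4.congr' ?_
      filter_upwards [self_mem_nhdsWithin] with t ht
      have ht : β < t := ht
      have h5 : (t : ℂ) - β ≠ 0 := by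
        rw [← ofReal_sub]
        exact_mod_cast (by linarith : t - β ≠ 0)
      simp only [Function.comp_apply]
      field_simp
      ring
    have h3 := (continuous_re.tendsto _).comp h2
    rw [ofReal_re] at h3
    refine le_of_tendsto h3 ?_
    filter_upwards [self_mem_nhdsWithin] with t ht
    have ht : β < t := ht
    simp only [Function.comp_apply]
    rw [(hcont (t : ℂ) (by rw [ofReal_re]; exact ht)).2, hDs, ← ofReal_sub, ← ofReal_neg,
      ← ofReal_mul, ofReal_re]
    have h4 : 0 ≤ ∑' i, a i * Real.exp (-(t * oo S 1 i)) :=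
      tsum_nonneg fun i => mul_nonneg (ha0 i) (Real.exp_pos _).le
    nlinarith
  refine ⟨β, hβ0, lt_of_le_of_ne hβ1 ?_, lt_of_le_of_ne hsign hne0⟩
  intro h2
  apply hne0
  rw [h2]
  simpa using h1

end

end Pool.Agent.N210.FV
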