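import Pool.Agent.N210.FV.Comb

/-!
# At least five values
-/

set_option autoImplicit false

namespace Pool.Agent.N210.FV

open Filter Topology Complex Set

/-- the analytic properties of `L(s, A^j π) = N/D` -/
structure AdjL (S : Finset ℕ) (t : ℕ → ℂ) (j : ℕ) (N D : ℂ → ℂ) : Prop where
  diffN : Differentiable ℂ N
  diffD : Differentiable ℂ D
  order : ∃ C : ℝ, ∀ s, ‖N s‖ ≤ Real.exp (C * (1 + ‖s‖) ^ (3 / 2 : ℝ)) ∧
    ‖D s‖ ≤ Real.exp (C * (1 + ‖s‖) ^ (3 / 2 : ℝ))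
  ne : ∀ s : ℂ, 1 < s.re → D s ≠ 0
  euler : ∀ s : ℂ, 1 < s.re → Tendsto (fun X : ℕ =>
    ∏ p ∈ (Finset.range X).filter (fun p => p.Prime ∧ p ∉ S),
      ∏ m ∈ Finset.Icc (-(j : ℤ)) j, (1 - t p ^ m * (p : ℂ) ^ (-s))⁻¹) atTop (𝓝 (N s / D s))
  fe : ∃ (μ : List ℂ) (l l' : List (ℕ × ℂ)) (q : ℝ) (ε : ℂ), 0 < q ∧ ε ≠ 0 ∧
    (∀ x ∈ l, x.1.Prime ∧ x.1 ∈ S) ∧ (∀ x ∈ l', x.1.Prime ∧ x.1 ∈ S) ∧
    ∀ s, (q : ℂ) ^ s * gi μ (1 - s) * ef l (1 - s) * ef l' s * (N s * D (1 - s)) =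
      ε * (q : ℂ) ^ (1 - s) * gi μ s * ef l s * ef l' (1 - s) * (N (1 - s) * D s)
  one : ∃ c : ℂ, c ≠ 0 ∧ Tendsto (fun s => N s / D s) (𝓝[≠] 1) (𝓝 c)

theorem base_le (s : ℂ) : 1 + ‖s‖ ≤ (1 + ‖s‖) ^ (3 / 2 : ℝ) := by
  have h : (1 : ℝ) ≤ 1 + ‖s‖ := by linarith [norm_nonneg s]
  calc 1 + ‖s‖ = (1 + ‖s‖) ^ (1 : ℝ) := (Real.rpow_one _).symm
    _ ≤ (1 + ‖s‖) ^ (3 / 2 : ℝ) := Real.rpow_le_rpow_of_exponent_le h (by norm_num)

theorem Ent.mul {f g : ℂ → ℂ} (hf : Ent f) (hg : Ent g) : Ent fun s => f s * g s := by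
  obtain ⟨C, hC⟩ := hf.grow
  obtain ⟨C', hC'⟩ := hg.grow
  refine ⟨hf.diff.mul hg.diff, mul_nz hf.diff hf.ne hg.diff hg.ne, C + C', fun s => ?_⟩
  rw [norm_mul, add_mul, Real.exp_add]
  exact mul_le_mul (hC s) (hC' s) (norm_nonneg _) (Real.exp_pos _).le

theorem ent_one {p : ℕ} (hp : 1 < p) (b : ℂ) : ∃ C : ℝ, 0 ≤ C ∧ ∀ s : ℂ,
    ‖1 - b * (p : ℂ) ^ (-s)‖ ≤ Real.exp (C * (1 + ‖s‖) ^ (3 / 2 : ℝ)) := by
  have hl : 0 < Real.log p := Real.log_pos (by exact_mod_cast hp)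
  have hb : 0 ≤ ‖b‖ := norm_nonneg b
  refine ⟨‖b‖ + Real.log p, by positivity, fun s => ?_⟩
  have h1 : ‖(p : ℂ) ^ (-s)‖ ≤ Real.exp (Real.log p * ‖s‖) := by
    rw [cp (by omega), Complex.norm_exp, neg_mul, neg_re, re_ofReal_mul]
    gcongr
    have := (abs_le.1 (Complex.abs_re_le_norm s)).1
    nlinarith
  have h2 : (1 : ℝ) ≤ Real.exp (Real.log p * ‖s‖) := Real.one_le_exp (by positivity)
  have h3 := base_le s
  have h4 : 1 + ‖b‖ ≤ Real.exp ‖b‖ := by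
    have := Real.add_one_le_exp ‖b‖
    linarith
  calc ‖1 - b * (p : ℂ) ^ (-s)‖ ≤ 1 + ‖b‖ * Real.exp (Real.log p * ‖s‖) := by
        refine (norm_sub_le _ _).trans ?_
        rw [norm_one, norm_mul]
        gcongr
    _ ≤ (1 + ‖b‖) * Real.exp (Real.log p * ‖s‖) := by nlinarith
    _ ≤ Real.exp ‖b‖ * Real.exp (Real.log p * ‖s‖) := by gcongr
    _ = Real.exp (‖b‖ + Real.log p * ‖s‖) := (Real.exp_add _ _).symm
    _ ≤ Real.exp ((‖b‖ + Real.log p) * (1 + ‖s‖)) := by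
        gcongr
        nlinarith [norm_nonneg s]
    _ ≤ Real.exp ((‖b‖ + Real.log p) * (1 + ‖s‖) ^ (3 / 2 : ℝ)) := by gcongr

theorem ef_ent {l : List (ℕ × ℂ)} (hl : ∀ x ∈ l, 1 < x.1) : Ent (ef l) := by
  refine ⟨ef_diff fun x hx => by have := hl x hx; omega, (ef_ev hl 0).exists, ?_⟩
  induction l with
  | nil =>
    refine ⟨0, fun s => ?_⟩
    simp [ef]
  | cons a l ih =>
    obtain ⟨C, hC⟩ := ih fun x hx => hl x (List.mem_cons_of_mem _ hx)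
    obtain ⟨C', -, hC'⟩ := ent_one (hl a List.mem_cons_self) a.2
    refine ⟨C' + C, fun s => ?_⟩
    have : ef (a :: l) s = (1 - a.2 * (a.1 : ℂ) ^ (-s)) * ef l s := by
      unfold ef
      simp
    rw [this, norm_mul, add_mul, Real.exp_add]
    exact mul_le_mul (hC' s) (hC s) (norm_nonneg _) (Real.exp_pos _).le

theorem ef_append (l l' : List (ℕ × ℂ)) (s : ℂ) : ef (l ++ l') s = ef l s * ef l' s := by
  unfold ef
  rw [List.map_append, List.prod_append]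

variable {S S' : Finset ℕ} {t : ℕ → ℂ} {j : ℕ} {N D : ℂ → ℂ} {M ρ : ℝ}

theorem AdjL.entN (h : AdjL S t j N D) : Ent N := by
  obtain ⟨C, hC⟩ := h.order
  refine ⟨h.diffN, ?_, C, fun s => (hC s).1⟩
  obtain ⟨c, hc, hlim⟩ := h.one
  obtain ⟨u, hu⟩ := (hlim.eventually_ne hc).exists
  exact ⟨u, fun h0 => hu (by rw [h0, zero_div])⟩

theorem AdjL.entD (h : AdjL S t j N D) : Ent D := by
  obtain ⟨C, hC⟩ := h.order
  exact ⟨h.diffD, ⟨2, h.ne 2 (by norm_num)⟩, C, fun s => (hC s).2⟩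

/-- enlarging the finite set of primes -/
theorem AdjL.toLF (h : AdjL S t j N D) (hSS : S ⊆ S') (hb : Bnd S' (ps (Ij j) (be t)) M ρ)
    (hβ : ∀ p : PS S', ∀ i ∈ Ij j, ‖be t p i‖ ≤ ρ)
    (hJS : ∀ p : ℕ, p.Prime → p ∉ S → ∀ m ∈ Ij j, ‖t p ^ m‖ < p) :
    LF S' (ps (Ij j) (be t)) (fun s => N s * ef (lst (Ij j) (be t) S S') s) D := by
  have hl1 : ∀ x ∈ lst (Ij j) (be t) S S', 1 < x.1 := fun x hx => (lst_mem hx).1.one_lt
  have hE1 : ef (lst (Ij j) (be t) S S') 1 ≠ 0 := by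
    rw [ef_lst]
    refine Finset.prod_ne_zero_iff.2 fun p hp => Finset.prod_ne_zero_iff.2 fun m hm => ?_
    rw [Finset.mem_filter, Finset.mem_sdiff] at hp
    have h1 := hJS p hp.2 hp.1.2 m hm
    have hp0 : (p : ℂ) ≠ 0 := by exact_mod_cast hp.2.ne_zero
    refine one_sub_ne (ne_of_lt ?_)
    have hp1 : (0 : ℝ) < p := by exact_mod_cast hp.2.pos
    rw [cpow_neg_one, norm_mul, norm_inv, Complex.norm_natCast, ← div_eq_mul_inv,
      div_lt_one hp1]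
    exact h1
  refine ⟨h.entN.mul (ef_ent hl1), h.entD, fun s hs => ?_, ?_, ?_⟩
  · exact ld_eul hSS hb hβ h.diffN h.diffD h.ne h.euler hs
  · obtain ⟨μ, l, l', q, ε, hq, hε, hl, hl', hfe⟩ := h.fe
    refine ⟨μ, l ++ lst (Ij j) (be t) S S', l', q, ε, hq, hε, ?_, ?_, ?_⟩
    · intro x hx
      rcases List.mem_append.1 hx with h1 | h1
      · exact ⟨(hl x h1).1, hSS (hl x h1).2⟩
      · exact lst_mem h1
    · intro x hx
      exact ⟨(hl' x hx).1, hSS (hl' x hx).2⟩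
    · intro s
      rw [ef_append, ef_append]
      linear_combination (ef (lst (Ij j) (be t) S S') s * ef (lst (Ij j) (be t) S S') (1 - s)) *
        hfe s
  · obtain ⟨c, hc, hlim⟩ := h.one
    refine ⟨c * ef (lst (Ij j) (be t) S S') 1, mul_ne_zero hc hE1, ?_⟩
    have h1 : Tendsto (ef (lst (Ij j) (be t) S S')) (𝓝[≠] 1)
        (𝓝 (ef (lst (Ij j) (be t) S S') 1)) :=
      ((ef_ent hl1).diff.continuous.tendsto 1).mono_left nhdsWithin_le_nhds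
    refine (hlim.mul h1).congr fun s => ?_
    ring

/-! ### the real axis -/

theorem zeta_ne {β : ℝ} (h0 : 0 < β) (h1 : β < 1) : riemannZeta β ≠ 0 := by
  intro h
  have hne : (β : ℂ) ≠ 1 := by
    intro h2
    have : β = 1 := by exact_mod_cast h2
    linarith
  have h2 : riemannZeta₁ β = 0 := by rw [Pool.Agent.H437R2.z1_of_ne hne, h, mul_zero]
  exact Pool.Agent.H437R2.z1_zero_im (by simpa using h0) h2 (by simp)

theorem zeta_tendsto {β : ℝ} (h1 : β < 1) :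
    Tendsto riemannZeta (𝓝[≠] (β : ℂ)) (𝓝 (riemannZeta β)) := by
  have hne : (β : ℂ) ≠ 1 := by
    intro h2
    have : β = 1 := by exact_mod_cast h2
    linarith
  exact (differentiableAt_riemannZeta hne).continuousAt.tendsto.mono_left nhdsWithin_le_nhds

/-- holomorphy at a real point gives a nonnegative order -/
theorem ord_nonneg {n d n' d' : ℂ → ℂ} {β : ℝ} (h0 : 0 < β) (h1 : β < 1) (hn' : Ent n')
    (hd' : Ent d') {e : ℂ → ℂ} (he : Continuous e) {c : ℂ}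
    (hlim : Tendsto (fun s => riemannZeta s * (n s / d s)) (𝓝[≠] (β : ℂ)) (𝓝 c))
    (heq : ∀ s, n' s / d' s = n s / d s * e s) : mo d' β ≤ mo n' β := by
  have h2 := hlim.mul ((zeta_tendsto h1).inv₀ (zeta_ne h0 h1))
  have h3 := h2.mul ((he.tendsto (β : ℂ)).mono_left nhdsWithin_le_nhds)
  refine mo_le_of_lim hn'.diff hn'.ne hd'.diff hd'.ne (h3.congr' ?_)
  filter_upwards [(zeta_tendsto h1).eventually_ne (zeta_ne h0 h1)] with s hs
  rw [heq]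
  field_simp

end Pool.Agent.N210.FV
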