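import Pool.Agent.N210.FV.Ord

/-!
# The moment relation at `s = 1`
-/

set_option autoImplicit false

namespace Pool.Agent.N210.FV

open Filter Topology Complex Set
open scoped ArithmeticFunction.vonMangoldt

/-- the part of the von Mangoldt function off the primes outside `S` -/
noncomputable def rr (S : Finset ℕ) (n : ℕ) : ℝ :=
  open Classical in if n.Prime ∧ n ∉ S then 0 else Λ n

theorem rr_nonneg (S : Finset ℕ) (n : ℕ) : 0 ≤ rr S n := by
  unfold rr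
  split_ifs
  · exact le_rfl
  · exact ArithmeticFunction.vonMangoldt_nonneg

theorem rr_summ (S : Finset ℕ) : Summable fun n : ℕ => rr S n / n := by
  classical
  have h1 := ArithmeticFunction.vonMangoldt.summable_residueClass_non_primes_div (q := 1) (0 : ZMod 1)
  have h2 : Summable fun n : ℕ => if n ∈ S then Λ n / n else 0 :=
    summable_of_ne_finset_zero (s := S) fun n hn => if_neg hn
  refine Summable.of_nonneg_of_le (fun n => div_nonneg (rr_nonneg S n) (Nat.cast_nonneg n))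
    (fun n => ?_) (h1.add h2)
  have h3 : ArithmeticFunction.vonMangoldt.residueClass (0 : ZMod 1) n = Λ n := by
    unfold ArithmeticFunction.vonMangoldt.residueClass
    rw [Set.indicator_of_mem]
    exact Subsingleton.elim _ _
  have h4 : 0 ≤ Λ n / n := div_nonneg ArithmeticFunction.vonMangoldt_nonneg (Nat.cast_nonneg n)
  rw [h3]
  unfold rr
  by_cases hp : n.Prime
  · by_cases hS : n ∈ S
    · simp [hp, hS]
    · simp [hp, hS]
  · by_cases hS : n ∈ S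
    · simp [hp, hS, h4]
    · simp [hp, hS]

/-- the sum over the primes outside `S` -/
noncomputable def Vp (S : Finset ℕ) (x : ℝ) : ℝ := ∑' p : PS S, Λ (p : ℕ) * ((p : ℕ) : ℝ) ^ (-x)

theorem V_sub (S : Finset ℕ) {x : ℝ} (hx : 1 < x) :
    0 ≤ (∑' n : ℕ, Λ n * (n : ℝ) ^ (-x)) - Vp S x ∧
    (∑' n : ℕ, Λ n * (n : ℝ) ^ (-x)) - Vp S x ≤ ∑' n : ℕ, rr S n / n := by
  classical
  have h1 : Vp S x = ∑' n : ℕ, Set.indicator {p : ℕ | p.Prime ∧ p ∉ S}
      (fun n : ℕ => Λ n * (n : ℝ) ^ (-x)) n :=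
    tsum_subtype {p : ℕ | p.Prime ∧ p ∉ S} (fun n : ℕ => Λ n * (n : ℝ) ^ (-x))
  have h2 := summ_real hx
  have h3 : Summable (Set.indicator {p : ℕ | p.Prime ∧ p ∉ S} (fun n : ℕ => Λ n * (n : ℝ) ^ (-x))) :=
    h2.indicator _
  rw [h1, ← h2.tsum_sub h3]
  have h4 : ∀ n : ℕ, Λ n * (n : ℝ) ^ (-x) - Set.indicator {p : ℕ | p.Prime ∧ p ∉ S}
      (fun n : ℕ => Λ n * (n : ℝ) ^ (-x)) n = rr S n * (n : ℝ) ^ (-x) := by
    intro n
    rw [Set.indicator_apply]
    unfold rr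
    simp only [Set.mem_setOf_eq]
    split_ifs <;> ring
  simp_rw [h4]
  have h5 : ∀ n : ℕ, 0 ≤ rr S n * (n : ℝ) ^ (-x) := fun n =>
    mul_nonneg (rr_nonneg S n) (Real.rpow_nonneg (Nat.cast_nonneg n) _)
  have h6 : ∀ n : ℕ, rr S n * (n : ℝ) ^ (-x) ≤ rr S n / n := by
    intro n
    rcases Nat.eq_zero_or_pos n with h0 | h0
    · subst h0
      have : rr S 0 = 0 := by
        unfold rr
        split_ifs <;> simp
      rw [this]
      simp
    · rw [div_eq_mul_inv]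
      refine mul_le_mul_of_nonneg_left ?_ (rr_nonneg S n)
      rw [← Real.rpow_neg_one]
      exact Real.rpow_le_rpow_of_exponent_le (by exact_mod_cast h0) (by linarith)
  exact ⟨tsum_nonneg h5, ((Summable.of_nonneg_of_le h5 h6 (rr_summ S)).tsum_le_tsum h6
    (rr_summ S))⟩

theorem delta_tendsto : Tendsto (fun δ : ℝ => δ) (𝓝[>] 0) (𝓝 0) :=
  (continuous_id.tendsto (0 : ℝ)).mono_left nhdsWithin_le_nhds

theorem Vp_lim (S : Finset ℕ) : Tendsto (fun δ : ℝ => δ * Vp S (1 + 2 * δ)) (𝓝[>] 0)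
    (𝓝 (1 / 2)) := by
  have h1 : Tendsto (fun δ : ℝ => δ * ∑' n : ℕ, Λ n * (n : ℝ) ^ (-(1 + 2 * δ))) (𝓝[>] 0)
      (𝓝 (1 / 2)) := by
    have h2 := (continuous_re.tendsto _).comp (VL_lim 0)
    rw [if_pos rfl] at h2
    have e : ((1 / 2 : ℂ)).re = 1 / 2 := by norm_num
    rw [e] at h2
    refine h2.congr fun δ => ?_
    simp only [Function.comp_apply]
    have e2 : (1 + 2 * (δ : ℂ) + (0 : ℝ) * I) = ((1 + 2 * δ : ℝ) : ℂ) := by push_cast; ring
    rw [e2, VL_real, ← ofReal_mul, ofReal_re]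
  have h2 : Tendsto (fun δ : ℝ => δ * ((∑' n : ℕ, Λ n * (n : ℝ) ^ (-(1 + 2 * δ))) -
      Vp S (1 + 2 * δ))) (𝓝[>] 0) (𝓝 0) := by
    have h3 := delta_tendsto.mul_const (∑' n : ℕ, rr S n / n)
    rw [zero_mul] at h3
    refine tendsto_of_tendsto_of_tendsto_of_le_of_le' tendsto_const_nhds h3 ?_ ?_
    · filter_upwards [self_mem_nhdsWithin] with δ hδ
      have hδ : (0 : ℝ) < δ := hδ
      exact mul_nonneg hδ.le (V_sub S (by linarith)).1
    · filter_upwards [self_mem_nhdsWithin] with δ hδ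
      have hδ : (0 : ℝ) < δ := hδ
      exact mul_le_mul_of_nonneg_left (V_sub S (by linarith)).2 hδ.le
  have h3 := h1.sub h2
  rw [sub_zero] at h3
  refine h3.congr fun δ => ?_
  ring

section

variable {J' : Type*} [Fintype J'] {c : J' → ℝ} {S : Finset ℕ} {F : J' → ℕ → ℕ → ℂ}
  {N D : J' → ℂ → ℂ} {M ρ : ℝ}

theorem A0_Ds (h : ∀ j, LF S (F j) (N j) (D j)) (hb : ∀ j, Bnd S (F j) M ρ) {s : ℂ}
    (hs : 1 < s.re) : A0 (ww c) (gg N D) s = -Ds (aa S 1 (GG c F)) (oo S 1) s := by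
  rw [A0_gg]
  have h2 : ∀ j ∈ Finset.univ, (c j : ℂ) * (logDeriv (N j) s - logDeriv (D j) s) =
      -((c j : ℂ) * Ds (aa S 1 (F j)) (oo S 1) s) := by
    intro j _
    rw [(h j).ld s hs]
    ring
  rw [Finset.sum_congr rfl h2, Finset.sum_neg_distrib, Ds_lin hb (by linarith) (by simpa using hs)]

/-- no constant term -/
theorem moment (h : ∀ j, LF S (F j) (N j) (D j)) (hb : ∀ j, Bnd S (F j) M ρ) [Nonempty J']
    {c₀ : ℝ} (h0 : ∀ p : PS S, (c₀ : ℂ) + GG c F p 1 = 0) : c₀ = 0 := by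
  have hG := GG_bnd (c := c) hb
  set MG : ℝ := (∑ j, |c j|) * M with hMG
  obtain ⟨CV, hCV0, hCV⟩ := V_bound
  obtain ⟨φ, hφ, -, hloc⟩ := loc (w := ww c) (g := gg N D) (fun i => (gg_ent h i).diff)
    (fun i => (gg_ent h i).ne) 1
  rw [mm_one h] at hloc
  have hu : Tendsto (fun δ : ℝ => ((1 + 2 * δ : ℝ) : ℂ)) (𝓝[>] 0) (𝓝[≠] 1) := by
    rw [tendsto_nhdsWithin_iff]
    constructor
    · have : Continuous fun δ : ℝ => ((1 + 2 * δ : ℝ) : ℂ) := by fun_prop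
      have h1 := this.tendsto 0
      simp only [mul_zero, add_zero, ofReal_one] at h1
      exact h1.mono_left nhdsWithin_le_nhds
    · filter_upwards [self_mem_nhdsWithin] with δ hδ
      have hδ : (0 : ℝ) < δ := hδ
      intro h1
      have h2 : ((1 + 2 * δ : ℝ) : ℂ) = 1 := h1
      have h3 : 1 + 2 * δ = 1 := by exact_mod_cast h2
      linarith
  have hδ0 : Tendsto (fun δ : ℝ => (δ : ℂ)) (𝓝[>] 0) (𝓝 0) := by
    have := (continuous_ofReal.tendsto (0 : ℝ))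
    rw [ofReal_zero] at this
    exact this.mono_left nhdsWithin_le_nhds
  have t1 : Tendsto (fun δ : ℝ => (δ : ℂ) * A0 (ww c) (gg N D) ((1 + 2 * δ : ℝ) : ℂ)) (𝓝[>] 0)
      (𝓝 0) := by
    have h1 := hδ0.mul ((hφ.continuousAt.tendsto.mono_left nhdsWithin_le_nhds).comp hu)
    rw [zero_mul] at h1
    refine h1.congr' ?_
    filter_upwards [hu.eventually hloc] with δ hδ
    rw [hδ.2]
    simp
  have t2 : Tendsto (fun δ : ℝ => (δ : ℂ) * Ds (aa S 2 (GG c F)) (oo S 2) ((1 + 2 * δ : ℝ) : ℂ))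
      (𝓝[>] 0) (𝓝 0) := by
    have hM := hG.M0
    have hr := hG.r1
    have hK : ∀ᶠ δ : ℝ in 𝓝[>] 0, ‖(δ : ℂ) * Ds (aa S 2 (GG c F)) (oo S 2)
        ((1 + 2 * δ : ℝ) : ℂ)‖ ≤ ‖(δ : ℂ)‖ * (2 * (MG * ρ ^ 2) * (CV / 1)) := by
      have h5 : ∀ᶠ δ : ℝ in 𝓝[>] 0, δ < 1 / 4 :=
        mem_nhdsWithin_of_mem_nhds (gt_mem_nhds (by norm_num))
      filter_upwards [self_mem_nhdsWithin, h5] with δ hδ hδ2
      have hδ : (0 : ℝ) < δ := hδ
      have h6 := hG.norm_le 2 (s := ((1 + 2 * δ : ℝ) : ℂ)) (by rw [ofReal_re]; linarith)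
        (by rw [ofReal_re]; push_cast; linarith)
      rw [norm_mul]
      refine mul_le_mul_of_nonneg_left (h6.trans ?_) (norm_nonneg _)
      have h7 := hCV (2 * (1 + 2 * δ)) (by linarith) (by linarith)
      have h8 : CV / (2 * (1 + 2 * δ) - 1) ≤ CV / 1 := by
        gcongr
        linarith
      have h9 : ((2 : ℕ) : ℝ) * (((1 + 2 * δ : ℝ) : ℂ)).re = 2 * (1 + 2 * δ) := by
        rw [ofReal_re]
        norm_num
      rw [h9]
      gcongr
      exact h7.trans h8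
    refine squeeze_zero_norm' hK ?_
    have h5 := hδ0.norm.mul_const (2 * (MG * ρ ^ 2) * (CV / 1))
    simpa using h5
  have t3 : Tendsto (fun δ : ℝ => (c₀ : ℂ) * ((δ * Vp S (1 + 2 * δ) : ℝ) : ℂ)) (𝓝[>] 0)
      (𝓝 ((c₀ : ℂ) * ((1 / 2 : ℝ) : ℂ))) :=
    ((continuous_ofReal.tendsto _).comp (Vp_lim S)).const_mul _
  have t4 := t1.add t2
  rw [add_zero] at t4
  have t5 : (c₀ : ℂ) * ((1 / 2 : ℝ) : ℂ) = 0 := by
    refine tendsto_nhds_unique t3 (t4.congr' ?_)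
    filter_upwards [self_mem_nhdsWithin] with δ hδ
    have hδ : (0 : ℝ) < δ := hδ
    have hx : 1 < (((1 + 2 * δ : ℝ) : ℂ)).re := by rw [ofReal_re]; linarith
    rw [A0_Ds h hb hx, hG.split 1 (by linarith) (by simpa using hx)]
    have e : ∑' p : PS S, GG c F p 1 * (Real.log (p : ℕ) : ℝ) *
        exp (-(((1 : ℕ) * Real.log (p : ℕ) : ℝ) : ℂ) * ((1 + 2 * δ : ℝ) : ℂ)) =
        -((c₀ : ℂ) * (Vp S (1 + 2 * δ) : ℂ)) := by
      unfold Vp
      rw [ofReal_tsum, ← tsum_mul_left, ← tsum_neg]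
      refine tsum_congr fun p => ?_
      have h1 : GG c F p 1 = -(c₀ : ℂ) := by linear_combination h0 p
      rw [h1, PS.lam, Real.rpow_def_of_pos p.pos, ofReal_mul (Real.log (p : ℕ)), ofReal_exp]
      have h2 : -(((1 : ℕ) * Real.log (p : ℕ) : ℝ) : ℂ) * ((1 + 2 * δ : ℝ) : ℂ) =
          ((Real.log (p : ℕ) * -(1 + 2 * δ) : ℝ) : ℂ) := by
        push_cast
        ring
      rw [h2]
      ring
    rw [e]
    push_cast
    ring
  have h6 : (c₀ : ℂ) = 0 := by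
    rcases mul_eq_zero.1 t5 with h | h
    · exact h
    · norm_num at h
  exact_mod_cast h6

end

end Pool.Agent.N210.FV
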