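import Pool.Agent.N210.FV.Asm

/-!
# Orders of zeros
-/

set_option autoImplicit false

namespace Pool.Agent.N210.FV

open Filter Topology Complex Set

variable {f g h k : ℂ → ℂ} {z : ℂ}

theorem sub_tendsto (z : ℂ) : Tendsto (fun u : ℂ => u - z) (𝓝[≠] z) (𝓝 0) := by
  have h : Continuous fun u : ℂ => u - z := by fun_prop
  have h1 := h.tendsto z
  rw [sub_self] at h1
  exact h1.mono_left nhdsWithin_le_nhds

theorem mo_lim (hg : Differentiable ℂ g) (hne : ∃ s, g s ≠ 0) (z : ℂ) :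
    Tendsto (fun u => (u - z) * logDeriv g u) (𝓝[≠] z) (𝓝 (mo g z)) := by
  obtain ⟨φ, h1, -, h2⟩ := mo_spec hg hne z
  have h3 : Tendsto (fun u => (mo g z : ℂ) + (u - z) * φ u) (𝓝[≠] z) (𝓝 (mo g z)) := by
    have h4 := (sub_tendsto z).mul (h1.continuousAt.tendsto.mono_left nhdsWithin_le_nhds)
    have h5 := h4.const_add (mo g z : ℂ)
    rwa [zero_mul, add_zero] at h5
  refine h3.congr' ?_
  filter_upwards [h2, self_mem_nhdsWithin] with u hu hu2
  have hu3 : u - z ≠ 0 := sub_ne_zero.2 hu2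
  rw [hu.2]
  field_simp

theorem mo_fac (hh : Differentiable ℂ h) (hz : h z ≠ 0) {n : ℕ} (hfac : ∀ x, g x = (x - z) ^ n * h x) :
    mo g z = n := by
  have hg : Differentiable ℂ g := by
    have : g = fun x => (x - z) ^ n * h x := funext hfac
    rw [this]
    exact ((differentiable_id.sub_const z).pow n).mul hh
  have hne : ∃ s, g s ≠ 0 := by
    obtain ⟨u, hu, hu2⟩ := ((hh.continuous.continuousAt.eventually_ne hz).filter_mono
      nhdsWithin_le_nhds |>.and (self_mem_nhdsWithin : {z}ᶜ ∈ 𝓝[≠] z)).exists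
    exact ⟨u, by rw [hfac u]; exact mul_ne_zero (pow_ne_zero _ (sub_ne_zero.2 hu2)) hu⟩
  have h1 := mo_lim hg hne z
  have hld : AnalyticAt ℂ (logDeriv h) z := (hh.analyticAt z).deriv.div (hh.analyticAt z) hz
  have h3 : Tendsto (fun u => (n : ℂ) + (u - z) * logDeriv h u) (𝓝[≠] z) (𝓝 n) := by
    have h4 := (sub_tendsto z).mul (hld.continuousAt.tendsto.mono_left nhdsWithin_le_nhds)
    have h5 := h4.const_add (n : ℂ)
    rwa [zero_mul, add_zero] at h5
  have h4 : Tendsto (fun u => (u - z) * logDeriv g u) (𝓝[≠] z) (𝓝 n) := by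
    refine h3.congr' ?_
    have h5 : ∀ᶠ u in 𝓝[≠] z, h u ≠ 0 :=
      (hh.continuous.continuousAt.eventually_ne hz).filter_mono nhdsWithin_le_nhds
    filter_upwards [h5, self_mem_nhdsWithin] with u hu hu2
    have hu3 : u - z ≠ 0 := sub_ne_zero.2 hu2
    have h2 : g = fun u => (u - z) ^ n * h u := funext hfac
    rw [h2, logDeriv_mul (f := fun u => (u - z) ^ n) (g := h) u (pow_ne_zero _ hu3) hu
      (by fun_prop) (hh u)]
    rw [logDeriv_fun_pow (f := fun u => u - z) (by fun_prop)]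
    have h6 : logDeriv (fun u => u - z) u = (u - z)⁻¹ := by
      rw [logDeriv_apply]
      have h7 : HasDerivAt (fun u : ℂ => u - z) 1 u := (hasDerivAt_id u).sub_const z
      rw [h7.deriv, one_div]
    rw [h6]
    field_simp
  have h5 := tendsto_nhds_unique h1 h4
  exact_mod_cast h5

theorem mo_mul (hf : Differentiable ℂ f) (hfn : ∃ s, f s ≠ 0) (hg : Differentiable ℂ g)
    (hgn : ∃ s, g s ≠ 0) (z : ℂ) : mo (fun s => f s * g s) z = mo f z + mo g z := by
  obtain ⟨n, a, ha, haz, hfa⟩ := Pool.Agent.H619R3.sf_single f hf hfn z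
  obtain ⟨m, b, hb, hbz, hgb⟩ := Pool.Agent.H619R3.sf_single g hg hgn z
  rw [mo_fac ha haz hfa, mo_fac hb hbz hgb]
  refine mo_fac (ha.mul hb) (mul_ne_zero haz hbz) fun x => ?_
  simp only [Pi.mul_apply]
  rw [hfa x, hgb x, pow_add]
  ring

theorem mul_nz (hf : Differentiable ℂ f) (hfn : ∃ s, f s ≠ 0) (hg : Differentiable ℂ g)
    (hgn : ∃ s, g s ≠ 0) : ∃ s, f s * g s ≠ 0 := by
  obtain ⟨u, hu⟩ := ((ev_ne hf hfn 0).and (ev_ne hg hgn 0)).exists
  exact ⟨u, mul_ne_zero hu.1 hu.2⟩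

/-- a finite limit bounds the order -/
theorem mo_le_of_lim (hf : Differentiable ℂ f) (hfn : ∃ s, f s ≠ 0) (hg : Differentiable ℂ g)
    (hgn : ∃ s, g s ≠ 0) {c : ℂ} (h : Tendsto (fun s => f s / g s) (𝓝[≠] z) (𝓝 c)) :
    mo g z ≤ mo f z := by
  obtain ⟨n, a, ha, haz, hfa⟩ := Pool.Agent.H619R3.sf_single f hf hfn z
  obtain ⟨m, b, hb, hbz, hgb⟩ := Pool.Agent.H619R3.sf_single g hg hgn z
  rw [mo_fac ha haz hfa, mo_fac hb hbz hgb]
  by_contra hcon
  push Not at hcon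
  obtain ⟨d, rfl⟩ := Nat.exists_eq_add_of_lt hcon
  have hbn : ∀ᶠ u in 𝓝[≠] z, b u ≠ 0 :=
    (hb.continuous.continuousAt.eventually_ne hbz).filter_mono nhdsWithin_le_nhds
  have h1 : Tendsto (fun u => a u / b u) (𝓝[≠] z) (𝓝 (a z / b z)) :=
    (ha.continuous.continuousAt.div hb.continuous.continuousAt hbz).tendsto.mono_left
      nhdsWithin_le_nhds
  have h2 : Tendsto (fun u => (u - z) ^ (d + 1) * (f u / g u)) (𝓝[≠] z) (𝓝 (0 ^ (d + 1) * c)) :=
    ((sub_tendsto z).pow (d + 1)).mul h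
  rw [zero_pow (Nat.succ_ne_zero d), zero_mul] at h2
  have h3 : a z / b z = 0 := by
    refine tendsto_nhds_unique (h1.congr' ?_) h2
    filter_upwards [hbn, self_mem_nhdsWithin] with u hu hu2
    have hu3 : u - z ≠ 0 := sub_ne_zero.2 hu2
    rw [hfa, hgb, pow_add, pow_add]
    field_simp
    ring
  rcases div_eq_zero_iff.1 h3 with h4 | h4
  · exact haz h4
  · exact hbz h4

/-- a finite nonzero limit gives equal orders -/
theorem mo_eq_of_lim (hf : Differentiable ℂ f) (hfn : ∃ s, f s ≠ 0) (hg : Differentiable ℂ g)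
    (hgn : ∃ s, g s ≠ 0) {c : ℂ} (hc : c ≠ 0)
    (h : Tendsto (fun s => f s / g s) (𝓝[≠] z) (𝓝 c)) : mo f z = mo g z := by
  refine le_antisymm ?_ (mo_le_of_lim hf hfn hg hgn h)
  have h1 := h.inv₀ hc
  refine mo_le_of_lim hg hgn hf hfn (c := c⁻¹) (h1.congr fun s => ?_)
  rw [inv_div]

section

variable {J' : Type*} [Fintype J'] {c : J' → ℝ} {S : Finset ℕ} {F : J' → ℕ → ℕ → ℂ}
  {N D : J' → ℂ → ℂ} {M ρ : ℝ}

theorem mm_gg (z : ℂ) : mm (ww c) (gg N D) z = ∑ j, c j * ((mo (N j) z : ℝ) - mo (D j) z) := by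
  unfold mm
  rw [Fintype.sum_prod_type]
  refine Finset.sum_congr rfl fun j _ => ?_
  rw [Fintype.sum_bool]
  simp only [gg, ww, if_true, Bool.false_eq_true, if_false]
  ring

theorem mm_one (h : ∀ j, LF S (F j) (N j) (D j)) : mm (ww c) (gg N D) 1 = 0 := by
  rw [mm_gg]
  refine Finset.sum_eq_zero fun j _ => ?_
  obtain ⟨a, ha, hlim⟩ := (h j).one
  rw [mo_eq_of_lim (h j).entN.diff (h j).entN.ne (h j).entD.diff (h j).entD.ne ha hlim]
  ring

/-- if the coefficients cancel the orders cancel -/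
theorem mm_zero (h : ∀ j, LF S (F j) (N j) (D j)) (hb : ∀ j, Bnd S (F j) M ρ) [Nonempty J']
    (h0 : ∀ (p : PS S) (k : ℕ), GG c F p (k + 1) = 0) (z : ℂ) : mm (ww c) (gg N D) z = 0 := by
  have h1 : DifferentiableOn ℂ (fun _ : ℂ => (0 : ℂ)) {s : ℂ | z.re - 1 < s.re} :=
    differentiableOn_const _
  refine (right_of (fun i => (gg_ent h i).diff) (fun i => (gg_ent h i).ne) (σ₁ := 1) h1 ?_ z
    (by linarith)).1
  intro s hs _
  rw [A0_gg]
  have h2 : ∀ j ∈ Finset.univ, (c j : ℂ) * (logDeriv (N j) s - logDeriv (D j) s) =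
      -((c j : ℂ) * Ds (aa S 1 (F j)) (oo S 1) s) := by
    intro j _
    rw [(h j).ld s hs]
    ring
  rw [Finset.sum_congr rfl h2, Finset.sum_neg_distrib, Ds_lin hb (by linarith) (by simpa using hs)]
  unfold Ds
  rw [neg_eq_zero, ← tsum_zero]
  refine tsum_congr fun i => ?_
  unfold aa
  rw [h0]
  ring

end

end Pool.Agent.N210.FV
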