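import Pool.Agent.N210.FV.Lan

/-!
# The characters of the adjoint powers and quartic polynomials
-/

set_option autoImplicit false

namespace Pool.Agent.N210.FV

open Filter Topology Complex Set

/-- the character of the adjoint `j`-th power -/
noncomputable def XX (j : ℕ) (u : ℂ) : ℂ := ∑ m ∈ Finset.Icc (-(j : ℤ)) j, u ^ m

theorem Icc1 : Finset.Icc (-((1 : ℕ) : ℤ)) ((1 : ℕ) : ℤ) = {-1, 0, 1} := by decide
theorem Icc2 : Finset.Icc (-((2 : ℕ) : ℤ)) ((2 : ℕ) : ℤ) = {-2, -1, 0, 1, 2} := by decide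
theorem Icc3 : Finset.Icc (-((3 : ℕ) : ℤ)) ((3 : ℕ) : ℤ) = {-3, -2, -1, 0, 1, 2, 3} := by decide
theorem Icc4 : Finset.Icc (-((4 : ℕ) : ℤ)) ((4 : ℕ) : ℤ) = {-4, -3, -2, -1, 0, 1, 2, 3, 4} := by
  decide

theorem XX1' (u : ℂ) : XX 1 u = u⁻¹ + 1 + u := by
  unfold XX
  rw [Icc1]
  simp
  ring

theorem XX2' (u : ℂ) : XX 2 u = (u ^ 2)⁻¹ + u⁻¹ + 1 + u + u ^ 2 := by
  unfold XX
  rw [Icc2]
  simp [zpow_neg]
  norm_cast
  ring

theorem XX3' (u : ℂ) : XX 3 u = (u ^ 3)⁻¹ + (u ^ 2)⁻¹ + u⁻¹ + 1 + u + u ^ 2 + u ^ 3 := by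
  unfold XX
  rw [Icc3]
  simp [zpow_neg]
  norm_cast
  ring

theorem XX4' (u : ℂ) : XX 4 u =
    (u ^ 4)⁻¹ + (u ^ 3)⁻¹ + (u ^ 2)⁻¹ + u⁻¹ + 1 + u + u ^ 2 + u ^ 3 + u ^ 4 := by
  unfold XX
  rw [Icc4]
  simp [zpow_neg]
  norm_cast
  ring

/-- the trace variable -/
noncomputable def zz (u : ℂ) : ℂ := u + u⁻¹

variable {u : ℂ}

theorem XX1 (u : ℂ) : XX 1 u = zz u + 1 := by
  rw [XX1', zz]
  ring

theorem XX2 (hu : u ≠ 0) : XX 2 u = zz u ^ 2 + zz u - 1 := by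
  rw [XX2', zz]
  field_simp
  ring

theorem XX3 (hu : u ≠ 0) : XX 3 u = zz u ^ 3 + zz u ^ 2 - 2 * zz u - 1 := by
  rw [XX3', zz]
  field_simp
  ring

theorem XX4 (hu : u ≠ 0) : XX 4 u = zz u ^ 4 + zz u ^ 3 - 3 * zz u ^ 2 - 2 * zz u + 1 := by
  rw [XX4', zz]
  field_simp
  ring

/-- the weights of a quartic polynomial -/
noncomputable def cw (a : Fin 5 → ℝ) : Fin 4 → ℝ :=
  ![a 1 - a 2 + 3 * a 3 - 4 * a 4, a 2 - a 3 + 4 * a 4, a 3 - a 4, a 4]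

/-- the value of the quartic polynomial -/
noncomputable def PP (a : Fin 5 → ℝ) (z : ℂ) : ℂ := a 0 + a 1 * z + a 2 * z ^ 2 + a 3 * z ^ 3 + a 4 * z ^ 4

theorem PP_eq (a : Fin 5 → ℝ) (hu : u ≠ 0) : PP a (zz u) =
    ((a 0 - a 1 + 2 * a 2 - 3 * a 3 + 6 * a 4 : ℝ) : ℂ) +
      ∑ i : Fin 4, (cw a i : ℂ) * XX (i + 1) u := by
  rw [Fin.sum_univ_four]
  simp only [cw, PP, Matrix.cons_val_zero, Matrix.cons_val_one, Matrix.cons_val]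
  have e0 : XX ((0 : Fin 4) + 1) u = XX 1 u := rfl
  have e1 : XX ((1 : Fin 4) + 1) u = XX 2 u := rfl
  have e2 : XX ((2 : Fin 4) + 1) u = XX 3 u := rfl
  have e3 : XX ((3 : Fin 4) + 1) u = XX 4 u := rfl
  rw [e0, e1, e2, e3, XX1, XX2 hu, XX3 hu, XX4 hu]
  push_cast
  ring

/-- the parameters of the adjoint powers -/
noncomputable def be (t : ℕ → ℂ) (p : ℕ) (m : ℤ) : ℂ := t p ^ m

/-- index set of the adjoint `j`-th power -/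
noncomputable abbrev Ij (j : ℕ) : Finset ℤ := Finset.Icc (-(j : ℤ)) j

theorem ps_be (t : ℕ → ℂ) (j p k : ℕ) : ps (Ij j) (be t) p k = XX j (t p ^ k) := by
  unfold ps XX be
  refine Finset.sum_congr rfl fun m _ => ?_
  rw [← zpow_natCast, ← zpow_mul, ← zpow_natCast, ← zpow_mul, mul_comm]

variable {S : Finset ℕ} {t : ℕ → ℂ} {r₀ : ℝ}

/-- the bound of the parameters -/
theorem be_le (h1 : 1 ≤ r₀) {p : ℕ} (ht0 : t p ≠ 0) (ht : ‖t p‖ ≤ r₀) (ht' : ‖(t p)⁻¹‖ ≤ r₀) {m : ℤ}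
    (hm : |m| ≤ 4) : ‖be t p m‖ ≤ r₀ ^ 4 := by
  unfold be
  have hm2 : m.natAbs ≤ 4 := by
    have := Int.abs_eq_natAbs m
    omega
  rcases Int.natAbs_eq m with h | h
  · rw [h, zpow_natCast, norm_pow]
    calc ‖t p‖ ^ m.natAbs ≤ r₀ ^ m.natAbs := by gcongr
      _ ≤ r₀ ^ 4 := pow_le_pow_right₀ h1 hm2
  · rw [h, zpow_neg, zpow_natCast, ← inv_pow, norm_pow]
    calc ‖(t p)⁻¹‖ ^ m.natAbs ≤ r₀ ^ m.natAbs := by gcongr
      _ ≤ r₀ ^ 4 := pow_le_pow_right₀ h1 hm2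

theorem be_bnd (h1 : 1 ≤ r₀) (ht0 : ∀ p : PS S, t p ≠ 0) (ht : ∀ p : PS S, ‖t p‖ ≤ r₀)
    (ht' : ∀ p : PS S, ‖(t p)⁻¹‖ ≤ r₀) (hl : ∀ p : PS S, 4 * (r₀ ^ 4) ^ 2 ≤ (p : ℕ)) {j : ℕ}
    (hj : j ≤ 4) : Bnd S (ps (Ij j) (be t)) 9 (r₀ ^ 4) := by
  refine ⟨by norm_num, one_le_pow₀ h1, fun p k => ?_, hl⟩
  unfold ps
  refine (norm_sum_le _ _).trans ?_
  have h2 : ∀ m ∈ Ij j, ‖be t p m ^ k‖ ≤ (r₀ ^ 4) ^ k := by
    intro m hm
    rw [Finset.mem_Icc] at hm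
    rw [norm_pow]
    have h3 := be_le h1 (ht0 p) (ht p) (ht' p) (m := m) (abs_le.2 ⟨by omega, by omega⟩)
    gcongr
  refine (Finset.sum_le_card_nsmul _ _ _ h2).trans ?_
  rw [nsmul_eq_mul]
  have h3 : ((Ij j).card : ℝ) ≤ 9 := by
    have : (Ij j).card ≤ 9 := by
      rw [Int.card_Icc]
      omega
    exact_mod_cast this
  gcongr

section

variable {N D : Fin 4 → ℂ → ℂ} {M ρ : ℝ}

theorem GG_XX (c : Fin 4 → ℝ) (p k : ℕ) : GG c (fun i => ps (Ij (i + 1)) (be t)) p k =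
    ∑ i : Fin 4, (c i : ℂ) * XX (i + 1) (t p ^ k) := by
  unfold GG
  exact Finset.sum_congr rfl fun i _ => congrArg _ (ps_be t (i + 1) p k)

/-- a polynomial relation of degree four: no constant term, and stability under powers -/
theorem closure (h : ∀ i : Fin 4, LF S (ps (Ij (i + 1)) (be t)) (N i) (D i))
    (hb : ∀ i : Fin 4, Bnd S (ps (Ij (i + 1)) (be t)) M ρ) (ht0 : ∀ p : PS S, t p ≠ 0)
    (a : Fin 5 → ℝ) (h0 : ∀ p : PS S, PP a (zz (t p)) = 0) :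
    a 0 - a 1 + 2 * a 2 - 3 * a 3 + 6 * a 4 = 0 ∧
      ∀ (p : PS S) (k : ℕ), 1 ≤ k → PP a (zz (t p ^ k)) = 0 := by
  have h1 : a 0 - a 1 + 2 * a 2 - 3 * a 3 + 6 * a 4 = 0 := by
    refine moment h hb (c := cw a) fun p => ?_
    rw [GG_XX, pow_one, ← PP_eq a (ht0 p)]
    exact h0 p
  refine ⟨h1, fun p k hk => ?_⟩
  rcases Nat.lt_or_ge 1 k with h2 | h2
  · obtain ⟨k₀, rfl⟩ := Nat.exists_eq_add_of_le' h2
    have h3 := zero_all h hb (c := cw a) (fun q => by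
      have h4 := h0 q
      rw [PP_eq a (ht0 q), h1, ofReal_zero, zero_add] at h4
      rw [GG_XX, pow_one]
      exact h4) p k₀
    rw [GG_XX] at h3
    rw [PP_eq a (pow_ne_zero _ (ht0 p)), h1, ofReal_zero, zero_add]
    exact h3
  · have : k = 1 := by omega
    rw [this, pow_one]
    exact h0 p

end

end Pool.Agent.N210.FV
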