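import Pool.Agent.N210.FV.Tame

/-!
# The digamma function is tame
-/

set_option autoImplicit false

namespace Pool.Agent.N210.FV

open Filter Topology Complex MeasureTheory Set

variable {ω : ℝ}

theorem isOpen_im_ne : IsOpen {z : ℂ | z.im ≠ 0} :=
  isOpen_ne.preimage continuous_im

theorem isOpen_re_int : IsOpen {z : ℂ | z.re ∉ Set.range ((↑) : ℤ → ℝ)} :=
  (Int.isClosedEmbedding_coe_real.isClosed_range.isOpen_compl).preimage continuous_re

theorem psi_an {z : ℂ} (h : z.im ≠ 0 ∨ z.re ∉ Set.range ((↑) : ℤ → ℝ)) :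
    AnalyticAt ℂ (logDeriv Gamma) z := by
  have hne : ∀ u ∈ {z : ℂ | z.im ≠ 0} ∪ {z : ℂ | z.re ∉ Set.range ((↑) : ℤ → ℝ)}, ∀ m : ℕ,
      u ≠ -m := by
    rintro u hu m rfl
    rcases hu with hu | hu
    · simp at hu
    · apply hu
      exact ⟨-m, by simp⟩
  have hz : z ∈ {z : ℂ | z.im ≠ 0} ∪ {z : ℂ | z.re ∉ Set.range ((↑) : ℤ → ℝ)} := h
  have h1 : AnalyticAt ℂ Gamma z := by
    refine DifferentiableOn.analyticAt (s := {z : ℂ | z.im ≠ 0} ∪
      {z : ℂ | z.re ∉ Set.range ((↑) : ℤ → ℝ)}) (fun u hu => ?_)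
      ((isOpen_im_ne.union isOpen_re_int).mem_nhds hz)
    exact (differentiableAt_Gamma u (hne u hu)).differentiableWithinAt
  exact h1.deriv.div h1 (Gamma_ne_zero (hne z hz))

theorem int_gap (y : ℝ) : ∃ r : ℝ, 0 < r ∧ ∀ v : ℝ, v ≠ y → |v - y| < r →
    v ∉ Set.range ((↑) : ℤ → ℝ) := by
  refine ⟨min (y - ((⌈y⌉ : ℝ) - 1)) ((⌊y⌋ : ℝ) + 1 - y), lt_min (by linarith [Int.ceil_lt_add_one y])
    (by linarith [Int.lt_floor_add_one y]), ?_⟩
  rintro v hv h ⟨n, rfl⟩
  have h1 := h.trans_le (min_le_left _ _)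
  have h2 := h.trans_le (min_le_right _ _)
  rcases lt_or_gt_of_ne hv with h3 | h3
  · rw [abs_of_neg (by linarith)] at h1
    have h4 : ((⌈y⌉ - 1 : ℤ) : ℝ) < n := by push_cast; linarith
    have h5 : ⌈y⌉ - 1 < n := by exact_mod_cast h4
    have h6 : ⌈y⌉ ≤ n := by omega
    have h7 : y ≤ n := (Int.le_ceil y).trans (by exact_mod_cast h6)
    linarith
  · rw [abs_of_pos (by linarith)] at h2
    have h4 : (n : ℝ) < ((⌊y⌋ + 1 : ℤ) : ℝ) := by push_cast; linarith
    have h5 : n < ⌊y⌋ + 1 := by exact_mod_cast h4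
    have h6 : n ≤ ⌊y⌋ := by omega
    have h7 : (n : ℝ) ≤ y := le_trans (by exact_mod_cast h6) (Int.floor_le y)
    linarith

theorem log_le_rp {y : ℝ} (hy : 0 < y) : Real.log y ≤ 2 * y ^ (1 / 2 : ℝ) := by
  have h1 : Real.log y = 2 * Real.log (y ^ (1 / 2 : ℝ)) := by
    rw [Real.log_rpow hy]
    ring
  rw [h1]
  have h2 := Real.log_le_sub_one_of_pos (Real.rpow_pos_of_pos hy (1 / 2))
  linarith

/-- bounds of the digamma function and its derivative -/
theorem psi_bounds : ∃ C : ℝ, 1 ≤ C ∧ (∀ z : ℂ, 1 ≤ |z.im| → |z.re| ≤ |z.im| →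
    ‖logDeriv Gamma z‖ ≤ C * (1 + |z.im|) ^ (1 / 2 : ℝ)) ∧
    ∀ z : ℂ, 4 ≤ |z.im| → |z.re| ≤ |z.im| / 4 → ‖deriv (logDeriv Gamma) z‖ ≤ C / |z.im| := by
  obtain ⟨C, hC, h⟩ := SG.digamma_bound
  refine ⟨4 * (C + 2), by linarith, fun z h1 h2 => ?_, fun z h1 h2 => ?_⟩
  · have h3 := h z h1 h2
    have h4 := one_le_rp z.im
    have h5 : Real.log |z.im| ≤ 2 * |z.im| ^ (1 / 2 : ℝ) := log_le_rp (by linarith)
    have h6 : |z.im| ^ (1 / 2 : ℝ) ≤ (1 + |z.im|) ^ (1 / 2 : ℝ) := by
      gcongr
      linarith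
    have h7 : 0 ≤ Real.log |z.im| := Real.log_nonneg h1
    have h8 : ‖(Real.log |z.im| : ℂ)‖ = Real.log |z.im| := by
      rw [Complex.norm_real, Real.norm_of_nonneg h7]
    have h9 := norm_add_le (logDeriv Gamma z - Real.log |z.im|) (Real.log |z.im| : ℂ)
    rw [sub_add_cancel, h8] at h9
    nlinarith
  · have h0 : 0 < |z.im| := by linarith
    have hR : 0 < |z.im| / 4 := by linarith
    have hball : ∀ u ∈ Metric.closedBall z (|z.im| / 4), |u.im - z.im| ≤ |z.im| / 4 ∧
        |u.re - z.re| ≤ |z.im| / 4 := by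
      intro u hu
      rw [Metric.mem_closedBall, dist_eq_norm] at hu
      refine ⟨?_, ?_⟩
      · have := Complex.abs_im_le_norm (u - z)
        rw [sub_im] at this
        linarith
      · have := Complex.abs_re_le_norm (u - z)
        rw [sub_re] at this
        linarith
    have him : ∀ u ∈ Metric.closedBall z (|z.im| / 4), 3 / 4 * |z.im| ≤ |u.im| ∧
        |u.im| ≤ 5 / 4 * |z.im| := by
      intro u hu
      obtain ⟨a1, -⟩ := hball u hu
      have a2 := abs_sub_abs_le_abs_sub u.im z.im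
      have a3 := abs_sub_abs_le_abs_sub z.im u.im
      rw [abs_sub_comm z.im u.im] at a3
      constructor <;> linarith
    have hd : DifferentiableOn ℂ (fun u => logDeriv Gamma u - (Real.log |z.im| : ℂ))
        (Metric.closedBall z (|z.im| / 4)) := by
      intro u hu
      obtain ⟨a1, -⟩ := him u hu
      have a2 : u.im ≠ 0 := abs_pos.1 (by linarith)
      exact ((psi_an (Or.inl a2)).differentiableAt.sub_const _).differentiableWithinAt
    have h3 := Complex.norm_deriv_le_of_forall_mem_sphere_norm_le (c := z) (C := C + 1) hR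
      (DifferentiableOn.diffContOnCl (by rw [closure_ball z hR.ne']; exact hd)) (by
        intro u hu
        have hu' := Metric.sphere_subset_closedBall hu
        obtain ⟨a1, a2⟩ := him u hu'
        obtain ⟨a3, a4⟩ := hball u hu'
        have a5 : |u.re| ≤ |u.im| := by
          have := abs_sub_abs_le_abs_sub u.re z.re
          linarith
        have a6 := h u (by linarith) a5
        have a7 : ‖((Real.log |u.im| : ℝ) : ℂ) - (Real.log |z.im| : ℂ)‖ ≤ 1 := by
          rw [← ofReal_sub, Complex.norm_real, Real.norm_eq_abs]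
          have b0 : 0 < |u.im| := by linarith
          rw [← Real.log_div b0.ne' h0.ne', abs_le]
          constructor
          · have b1 := Real.log_le_sub_one_of_pos (show 0 < |z.im| / |u.im| by positivity)
            have b2 : Real.log (|u.im| / |z.im|) = -Real.log (|z.im| / |u.im|) := by
              rw [← Real.log_inv, inv_div]
            have b3 : |z.im| / |u.im| ≤ 2 := by
              rw [div_le_iff₀ b0]
              linarith
            rw [b2]
            linarith
          · have b1 := Real.log_le_sub_one_of_pos (show 0 < |u.im| / |z.im| by positivity)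
            have b3 : |u.im| / |z.im| ≤ 2 := by
              rw [div_le_iff₀ h0]
              linarith
            linarith
        have a8 := norm_add_le (logDeriv Gamma u - Real.log |u.im|)
          (((Real.log |u.im| : ℝ) : ℂ) - (Real.log |z.im| : ℂ))
        rw [sub_add_sub_cancel] at a8
        linarith)
    have h4 : deriv (fun u => logDeriv Gamma u - (Real.log |z.im| : ℂ)) z =
        deriv (logDeriv Gamma) z := by
      rw [deriv_sub_const]
    rw [h4] at h3
    refine h3.trans ?_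
    rw [div_div_eq_mul_div]
    exact div_le_div_of_nonneg_right (by linarith) h0.le

/-- the digamma function along vertical lines -/
theorem psi_tame (hω : ω ≠ 0) {κ : ℝ} (hκ : |κ| = 1 / 2) (a : ℂ) :
    Tame ω fun s => logDeriv Gamma (κ * s + a) := by
  obtain ⟨C, hC, hb, hd⟩ := psi_bounds
  obtain ⟨r, hr, hgap⟩ := int_gap (κ * (1 / 2) + a.re)
  have hκ0 : κ ≠ 0 := by
    intro h
    rw [h, abs_zero] at hκ
    norm_num at hκ
  have hre : ∀ s : ℂ, (κ * s + a).re = κ * s.re + a.re := fun s => by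
    rw [add_re, re_ofReal_mul]
  have him : ∀ s : ℂ, (κ * s + a).im = κ * s.im + a.im := fun s => by
    rw [add_im, im_ofReal_mul]
  have hint : ∀ s : ℂ, 1 / 2 - 2 * r < s.re → s.re < 1 / 2 →
      (κ * s + a).re ∉ Set.range ((↑) : ℤ → ℝ) := by
    intro s h1 h2
    apply hgap
    · rw [hre]
      intro h3
      have h4 : κ * (s.re - 1 / 2) = 0 := by linarith
      rcases mul_eq_zero.1 h4 with h5 | h5
      · exact hκ0 h5
      · linarith
    · have h3 : (κ * s + a).re - (κ * (1 / 2) + a.re) = κ * (s.re - 1 / 2) := by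
        rw [hre]
        ring
      rw [h3, abs_mul, hκ, abs_of_neg (by linarith)]
      linarith
  set T0 : ℝ := 2 * (|a.im| + 4 * (1 + |a.re|)) with hT0
  have hT00 : 0 ≤ T0 := by positivity
  have hbig : ∀ s : ℂ, |s.re| ≤ 1 → T0 ≤ |s.im| → 4 ≤ |(κ * s + a).im| ∧
      |(κ * s + a).re| ≤ |(κ * s + a).im| / 4 ∧ |s.im| / 2 - |a.im| ≤ |(κ * s + a).im| ∧
      |(κ * s + a).im| ≤ |s.im| / 2 + |a.im| := by
    intro s h1 h2
    rw [hre, him]
    have h3 : |κ * s.im| = |s.im| / 2 := by rw [abs_mul, hκ]; ring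
    have h4 : |κ * s.re| ≤ 1 / 2 := by rw [abs_mul, hκ]; linarith
    have h5 : |s.im| / 2 - |a.im| ≤ |κ * s.im + a.im| := by
      have := abs_sub_abs_le_abs_sub (κ * s.im) (-a.im)
      rw [abs_neg, sub_neg_eq_add, h3] at this
      exact this
    have h6 : |κ * s.im + a.im| ≤ |s.im| / 2 + |a.im| := by
      have := abs_add_le (κ * s.im) a.im
      rw [h3] at this
      exact this
    have h7 : |κ * s.re + a.re| ≤ 1 / 2 + |a.re| := by
      have := abs_add_le (κ * s.re) a.re
      linarith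
    have h8 := abs_nonneg a.re
    refine ⟨by linarith, by linarith, h5, h6⟩
  have hgr : ∀ s : ℂ, |s.re| ≤ 1 → T0 ≤ |s.im| →
      ‖logDeriv Gamma (κ * s + a)‖ ≤ C * (1 + |a.im|) * (1 + |s.im|) ^ (1 / 2 : ℝ) := by
    intro s h1 h2
    obtain ⟨a1, a2, -, a4⟩ := hbig s h1 h2
    refine (hb _ (by linarith) (by linarith [abs_nonneg (κ * s + a).im])).trans ?_
    rw [mul_assoc]
    refine mul_le_mul_of_nonneg_left ?_ (by linarith)
    have h3 : 1 + |(κ * s + a).im| ≤ (1 + |a.im|) * (1 + |s.im|) := by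
      nlinarith [abs_nonneg a.im, abs_nonneg s.im]
    have h4 : (1 + |a.im|) ^ (1 / 2 : ℝ) ≤ 1 + |a.im| := by
      have h5 : (1 + |a.im|) ^ (1 / 2 : ℝ) ≤ (1 + |a.im|) ^ (1 : ℝ) :=
        Real.rpow_le_rpow_of_exponent_le (by linarith [abs_nonneg a.im]) (by norm_num)
      rwa [Real.rpow_one] at h5
    calc (1 + |(κ * s + a).im|) ^ (1 / 2 : ℝ) ≤ ((1 + |a.im|) * (1 + |s.im|)) ^ (1 / 2 : ℝ) := by
          gcongr
      _ = (1 + |a.im|) ^ (1 / 2 : ℝ) * (1 + |s.im|) ^ (1 / 2 : ℝ) :=
          Real.mul_rpow (by positivity) (by positivity)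
      _ ≤ (1 + |a.im|) * (1 + |s.im|) ^ (1 / 2 : ℝ) := by gcongr
  refine ⟨min r (1 / 2), lt_min hr (by norm_num), fun η hη hη2 => ?_⟩
  have hηr : η < r := hη2.trans_le (min_le_left _ _)
  have hη12 : η < 1 / 2 := hη2.trans_le (min_le_right _ _)
  refine ⟨fun s hs hs2 => ?_, ?_, C * (1 + |a.im|) + T0, by positivity, ?_⟩
  · have h1 : ContinuousAt (logDeriv Gamma) (κ * s + a) :=
      (psi_an (Or.inr (hint s (by linarith) hs2))).continuousAt
    exact ContinuousAt.comp (f := fun s : ℂ => (κ : ℂ) * s + a) h1 (by fun_prop)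
  · set z : ℝ → ℂ := fun t => κ * (((1 / 2 - η : ℝ) : ℂ) + t * I) + a with hz
    have hzan : ∀ t, AnalyticAt ℂ (logDeriv Gamma) (z t) := fun t =>
      psi_an (Or.inr (hint _ (by simp; linarith) (by simp; linarith)))
    have hzd : ∀ t, HasDerivAt z (κ * I) t := by
      intro t
      have h1 : HasDerivAt (fun t : ℝ => (t : ℂ)) 1 t := ofRealCLM.hasDerivAt
      have h2 := (((h1.mul_const I).const_add ((1 / 2 - η : ℝ) : ℂ)).const_mul (κ : ℂ)).add_const a
      rw [one_mul] at h2
      exact h2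
    have hzc : Continuous z := continuous_iff_continuousAt.2 fun t => (hzd t).continuousAt
    have hgd : ∀ t, HasDerivAt (fun t => logDeriv Gamma (z t))
        (deriv (logDeriv Gamma) (z t) * (κ * I)) t := fun t =>
      ((hzan t).differentiableAt.hasDerivAt).comp t (hzd t)
    have hgc : Continuous fun t => logDeriv Gamma (z t) :=
      continuous_iff_continuousAt.2 fun t => (hgd t).continuousAt
    obtain ⟨K, hK⟩ := (isCompact_Icc (a := -T0) (b := T0)).exists_bound_of_continuousOn
      hgc.continuousOn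
    have hre1 : ∀ t : ℝ, |(((1 / 2 - η : ℝ) : ℂ) + t * I).re| ≤ 1 := by
      intro t
      simp only [add_re, ofReal_re, mul_re, I_re, mul_zero, ofReal_im, I_im, mul_one, sub_self,
        add_zero]
      rw [abs_le]
      constructor <;> linarith
    have him1 : ∀ t : ℝ, (((1 / 2 - η : ℝ) : ℂ) + t * I).im = t := by
      intro t
      simp
    refine null_slow hω (g := fun t => logDeriv Gamma (z t)) (C := C * (1 + |a.im|) + |K|) hgd
      ?_ ?_ ?_
    · refine Continuous.mul ?_ continuous_const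
      refine continuous_iff_continuousAt.2 fun t => ?_
      exact ContinuousAt.comp (hzan t).deriv.continuousAt hzc.continuousAt
    · intro t
      have h1 := one_le_rp t
      rcases le_total T0 |t| with h2 | h2
      · have h3 := hgr _ (hre1 t) (by rw [him1]; exact h2)
        rw [him1] at h3
        refine h3.trans ?_
        gcongr
        linarith [abs_nonneg K]
      · have h3 := hK t (abs_le.1 h2)
        have h4 : ‖logDeriv Gamma (z t)‖ ≤ |K| * (1 + |t|) ^ (1 / 2 : ℝ) := by
          have := le_abs_self K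
          have h5 : |K| ≤ |K| * (1 + |t|) ^ (1 / 2 : ℝ) := le_mul_of_one_le_right (abs_nonneg _) h1
          linarith
        refine h4.trans ?_
        gcongr
        have : 0 ≤ C * (1 + |a.im|) := by positivity
        linarith
    · intro ε hε
      refine ⟨max T0 (2 * (|a.im| + C / ε)), fun t ht => ?_⟩
      have h1 := (le_max_left _ _).trans ht
      have h2 := (le_max_right _ _).trans ht
      obtain ⟨a1, a2, a3, a4⟩ := hbig (((1 / 2 - η : ℝ) : ℂ) + t * I) (hre1 t) (by
        rw [him1]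
        exact h1)
      rw [him1] at a3
      have h3 := hd _ a1 a2
      have h4 : C / ε ≤ |(κ * (((1 / 2 - η : ℝ) : ℂ) + t * I) + a).im| := by linarith
      have h5 : ‖deriv (logDeriv Gamma) (z t)‖ ≤ ε := by
        refine h3.trans ?_
        rw [div_le_iff₀ (by linarith)]
        rw [div_le_iff₀ hε] at h4
        linarith
      rw [norm_mul, norm_mul, Complex.norm_real, norm_I, mul_one, Real.norm_eq_abs, hκ]
      linarith [norm_nonneg (deriv (logDeriv Gamma) (z t))]
  · intro s hs hs2 hs3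
    have hA : 0 ≤ C * (1 + |a.im|) := by positivity
    have h1 := hgr s (abs_le.2 ⟨by linarith, by linarith⟩) (by linarith)
    have h3 : 0 < 1 / 2 - s.re := by linarith
    rw [le_div_iff₀ h3]
    have h4 := norm_nonneg (logDeriv Gamma (κ * s + a))
    have h5 := one_le_rp s.im
    calc ‖logDeriv Gamma (κ * s + a)‖ * (1 / 2 - s.re) ≤ ‖logDeriv Gamma (κ * s + a)‖ * 1 := by
          gcongr
          linarith
      _ ≤ (C * (1 + |a.im|) + T0) * (1 + |s.im|) ^ (1 / 2 : ℝ) := by
        rw [mul_one]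
        refine h1.trans ?_
        gcongr
        linarith

end Pool.Agent.N210.FV
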