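import Pool.Agent.N210.FV.Van
import Pool.Agent.N210.FV.Exs

/-!
# Dirichlet series over the powers of the primes outside a finite set
-/

set_option autoImplicit false

namespace Pool.Agent.N210.FV

open Filter Topology Complex
open scoped ArithmeticFunction.vonMangoldt

/-- the primes outside `S` -/
abbrev PS (S : Finset ℕ) : Type := {p : ℕ // p.Prime ∧ p ∉ S}

/-- the coefficient at `p ^ (k + c)` -/
noncomputable def aa (S : Finset ℕ) (c : ℕ) (F : ℕ → ℕ → ℂ) (i : PS S × ℕ) : ℂ :=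
  F i.1 (i.2 + c) * (Real.log (i.1 : ℕ) : ℝ)

/-- the frequency `log p ^ (k + c)` -/
noncomputable def oo (S : Finset ℕ) (c : ℕ) (i : PS S × ℕ) : ℝ := (i.2 + c) * Real.log (i.1 : ℕ)

/-- the bounds -/
structure Bnd (S : Finset ℕ) (F : ℕ → ℕ → ℂ) (M ρ : ℝ) : Prop where
  M0 : 0 ≤ M
  r1 : 1 ≤ ρ
  bd : ∀ (p : PS S) (k : ℕ), ‖F p k‖ ≤ M * ρ ^ k
  large : ∀ p : PS S, 4 * ρ ^ 2 ≤ (p : ℕ)

variable {S : Finset ℕ} {F : ℕ → ℕ → ℂ} {M ρ : ℝ}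

theorem PS.pos (p : PS S) : (0 : ℝ) < (p : ℕ) := by exact_mod_cast p.2.1.pos

theorem PS.one_lt (p : PS S) : (1 : ℝ) < (p : ℕ) := by exact_mod_cast p.2.1.one_lt

theorem PS.log_pos (p : PS S) : 0 < Real.log (p : ℕ) := Real.log_pos p.one_lt

theorem PS.lam (p : PS S) : Λ (p : ℕ) = Real.log (p : ℕ) :=
  ArithmeticFunction.vonMangoldt_apply_prime p.2.1

theorem oo_nonneg (c : ℕ) (i : PS S × ℕ) : 0 ≤ oo S c i := by
  unfold oo
  have := i.1.log_pos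
  positivity

theorem oo_pos {c : ℕ} (hc : 0 < c) (i : PS S × ℕ) : 0 < oo S c i := by
  unfold oo
  have := i.1.log_pos
  have : (0 : ℝ) < c := by exact_mod_cast hc
  positivity

theorem exp_oo (c : ℕ) (i : PS S × ℕ) (σ : ℝ) :
    Real.exp (-(oo S c i * σ)) = ((i.1 : ℕ) : ℝ) ^ (-(c * σ)) * (((i.1 : ℕ) : ℝ) ^ (-σ)) ^ i.2 := by
  have hp := i.1.pos
  rw [← Real.rpow_natCast, ← Real.rpow_mul hp.le, ← Real.rpow_add hp, Real.rpow_def_of_pos hp]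
  unfold oo
  congr 1
  ring

theorem Bnd.half (h : Bnd S F M ρ) (p : PS S) {σ : ℝ} (hσ : 1 / 2 ≤ σ) :
    ρ * ((p : ℕ) : ℝ) ^ (-σ) ≤ 1 / 2 := by
  have hp := p.pos
  have hr := h.r1
  have h1 : ((p : ℕ) : ℝ) ^ (-σ) ≤ ((p : ℕ) : ℝ) ^ (-(1 / 2 : ℝ)) :=
    Real.rpow_le_rpow_of_exponent_le p.one_lt.le (by linarith)
  have h2 : 2 * ρ ≤ ((p : ℕ) : ℝ) ^ (1 / 2 : ℝ) := by
    have h3 : 2 * ρ = ((2 * ρ) ^ (2 : ℝ)) ^ (1 / 2 : ℝ) := by
      rw [← Real.rpow_mul (by positivity)]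
      norm_num
    rw [h3]
    refine Real.rpow_le_rpow (by positivity) ?_ (by norm_num)
    have h4 := h.large p
    have h5 : (2 * ρ) ^ (2 : ℝ) = 4 * ρ ^ 2 := by
      rw [show (2 : ℝ) = ((2 : ℕ) : ℝ) by norm_num, Real.rpow_natCast]
      push_cast
      ring
    rw [h5]
    exact h4
  have h3 : 0 < ((p : ℕ) : ℝ) ^ (1 / 2 : ℝ) := by positivity
  have h4 : ((p : ℕ) : ℝ) ^ (-σ) ≤ (((p : ℕ) : ℝ) ^ (1 / 2 : ℝ))⁻¹ := by
    rw [← Real.rpow_neg hp.le]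
    exact h1
  calc ρ * ((p : ℕ) : ℝ) ^ (-σ) ≤ ρ * (((p : ℕ) : ℝ) ^ (1 / 2 : ℝ))⁻¹ :=
        mul_le_mul_of_nonneg_left h4 (by linarith)
    _ ≤ 1 / 2 := by
        rw [← div_eq_mul_inv, div_le_div_iff₀ h3 (by norm_num)]
        linarith

theorem Bnd.term (h : Bnd S F M ρ) (c : ℕ) {σ : ℝ} (hσ : 1 / 2 ≤ σ) (i : PS S × ℕ) :
    ‖aa S c F i‖ * Real.exp (-(oo S c i * σ)) ≤
      (M * ρ ^ c * (Λ (i.1 : ℕ) * ((i.1 : ℕ) : ℝ) ^ (-(c * σ)))) * (1 / 2) ^ i.2 := by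
  have hl := i.1.log_pos
  have hp := i.1.pos
  have hM := h.M0
  have hr := h.r1
  have h1 := h.bd i.1 (i.2 + c)
  have h2 := h.half i.1 hσ
  have h3 : 0 ≤ ρ * ((i.1 : ℕ) : ℝ) ^ (-σ) := by positivity
  rw [exp_oo, PS.lam]
  unfold aa
  rw [norm_mul, Complex.norm_real, Real.norm_of_nonneg hl.le]
  calc ‖F i.1 (i.2 + c)‖ * Real.log (i.1 : ℕ) *
        (((i.1 : ℕ) : ℝ) ^ (-(c * σ)) * (((i.1 : ℕ) : ℝ) ^ (-σ)) ^ i.2)
      ≤ (M * ρ ^ (i.2 + c)) * Real.log (i.1 : ℕ) *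
        (((i.1 : ℕ) : ℝ) ^ (-(c * σ)) * (((i.1 : ℕ) : ℝ) ^ (-σ)) ^ i.2) := by gcongr
    _ = (M * ρ ^ c * (Real.log (i.1 : ℕ) * ((i.1 : ℕ) : ℝ) ^ (-(c * σ)))) *
        (ρ * ((i.1 : ℕ) : ℝ) ^ (-σ)) ^ i.2 := by
        rw [mul_pow, pow_add]
        ring
    _ ≤ (M * ρ ^ c * (Real.log (i.1 : ℕ) * ((i.1 : ℕ) : ℝ) ^ (-(c * σ)))) * (1 / 2) ^ i.2 := by
        gcongr

theorem summ_P {x : ℝ} (hx : 1 < x) : Summable fun p : PS S => Λ (p : ℕ) * ((p : ℕ) : ℝ) ^ (-x) :=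
  (summ_real hx).comp_injective Subtype.val_injective

theorem tsum_P_le {x : ℝ} (hx : 1 < x) : ∑' p : PS S, Λ (p : ℕ) * ((p : ℕ) : ℝ) ^ (-x) ≤
    ∑' n : ℕ, Λ n * (n : ℝ) ^ (-x) := by
  refine Summable.tsum_le_tsum_of_inj (fun p : PS S => (p : ℕ)) Subtype.val_injective
    (fun n _ => ?_) (fun p => le_rfl) (summ_P hx) (summ_real hx)
  exact mul_nonneg ArithmeticFunction.vonMangoldt_nonneg (Real.rpow_nonneg (Nat.cast_nonneg n) _)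

theorem Bnd.dom (h : Bnd S F M ρ) (c : ℕ) {σ : ℝ} (hc : 1 < c * σ) :
    Summable fun i : PS S × ℕ =>
      (M * ρ ^ c * (Λ (i.1 : ℕ) * ((i.1 : ℕ) : ℝ) ^ (-(c * σ)))) * (1 / 2) ^ i.2 := by
  have h1 : Summable fun p : PS S => M * ρ ^ c * (Λ (p : ℕ) * ((p : ℕ) : ℝ) ^ (-(c * σ))) :=
    (summ_P hc).mul_left _
  refine Summable.mul_of_nonneg h1 summable_geometric_two (fun p => ?_) (fun k => by positivity)
  have := h.M0
  have := h.r1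
  have : 0 ≤ Λ (p : ℕ) := ArithmeticFunction.vonMangoldt_nonneg
  have := p.pos
  simp only [Pi.zero_apply]
  positivity

theorem Bnd.summ (h : Bnd S F M ρ) (c : ℕ) {σ : ℝ} (hσ : 1 / 2 ≤ σ) (hc : 1 < c * σ) :
    Summable fun i : PS S × ℕ => ‖aa S c F i‖ * Real.exp (-(oo S c i * σ)) :=
  Summable.of_nonneg_of_le (fun i => by positivity) (fun i => h.term c hσ i) (h.dom c hc)

theorem norm_ds_term (c : ℕ) (F : ℕ → ℕ → ℂ) (i : PS S × ℕ) (s : ℂ) :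
    ‖aa S c F i * exp (-(oo S c i : ℂ) * s)‖ = ‖aa S c F i‖ * Real.exp (-(oo S c i * s.re)) := by
  rw [norm_mul, Complex.norm_exp]
  congr 2
  rw [neg_mul, neg_re, re_ofReal_mul]

theorem Bnd.summC (h : Bnd S F M ρ) (c : ℕ) {s : ℂ} (hσ : 1 / 2 ≤ s.re) (hc : 1 < c * s.re) :
    Summable fun i : PS S × ℕ => aa S c F i * exp (-(oo S c i : ℂ) * s) := by
  refine Summable.of_norm ?_
  simp_rw [norm_ds_term]
  exact h.summ c hσ hc

/-- the bound of the series -/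
theorem Bnd.norm_le (h : Bnd S F M ρ) (c : ℕ) {s : ℂ} (hσ : 1 / 2 ≤ s.re) (hc : 1 < c * s.re) :
    ‖Ds (aa S c F) (oo S c) s‖ ≤ 2 * (M * ρ ^ c) * ∑' n : ℕ, Λ n * (n : ℝ) ^ (-(c * s.re)) := by
  have hM := h.M0
  have hr := h.r1
  have h1 : ‖Ds (aa S c F) (oo S c) s‖ ≤ ∑' i : PS S × ℕ,
      (M * ρ ^ c * (Λ (i.1 : ℕ) * ((i.1 : ℕ) : ℝ) ^ (-(c * s.re)))) * (1 / 2) ^ i.2 := by
    refine tsum_of_norm_bounded (h.dom c hc).hasSum fun i => ?_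
    rw [norm_ds_term]
    exact h.term c hσ i
  refine h1.trans ?_
  rw [(h.dom c hc).tsum_prod' (fun p => by simpa using (summable_geometric_two).mul_left _)]
  simp_rw [tsum_mul_left, tsum_geometric_two]
  rw [tsum_mul_right, tsum_mul_left]
  have h2 := tsum_P_le (S := S) hc
  have h3 : 0 ≤ M * ρ ^ c := by positivity
  nlinarith

/-- the first terms and the rest -/
theorem Bnd.split (h : Bnd S F M ρ) (c : ℕ) {s : ℂ} (hσ : 1 / 2 ≤ s.re) (hc : 1 < c * s.re) :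
    Ds (aa S c F) (oo S c) s = (∑' p : PS S, F p c * (Real.log (p : ℕ) : ℝ) *
      exp (-((c * Real.log (p : ℕ) : ℝ) : ℂ) * s)) + Ds (aa S (c + 1) F) (oo S (c + 1)) s := by
  have hc' : 1 < ((c + 1 : ℕ) : ℝ) * s.re := by
    push_cast
    nlinarith
  have h1 := h.summC c hσ hc
  have h2 := h.summC (c + 1) hσ hc'
  unfold Ds
  rw [h1.tsum_prod, h2.tsum_prod]
  have hf : ∀ p : PS S, Summable fun k : ℕ => aa S c F (p, k) * exp (-(oo S c (p, k) : ℂ) * s) :=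
    fun p => h1.prod_factor p
  have e : ∀ p : PS S, ∑' k : ℕ, aa S c F (p, k) * exp (-(oo S c (p, k) : ℂ) * s) =
      F p c * (Real.log (p : ℕ) : ℝ) * exp (-((c * Real.log (p : ℕ) : ℝ) : ℂ) * s) +
      ∑' k : ℕ, aa S (c + 1) F (p, k) * exp (-(oo S (c + 1) (p, k) : ℂ) * s) := by
    intro p
    rw [(hf p).tsum_eq_zero_add]
    congr 1
    · unfold aa oo
      simp
    · refine tsum_congr fun k => ?_
      unfold aa oo
      have e1 : k + 1 + c = k + (c + 1) := by ring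
      simp only [e1]
      congr 3
      push_cast
      ring
  simp_rw [e]
  refine Summable.tsum_add ?_ h2.prod
  have h3 : Summable fun p : PS S => (aa S c F (p, 0) * exp (-(oo S c (p, 0) : ℂ) * s)) :=
    h1.comp_injective (i := fun p : PS S => (p, 0)) (fun p q hpq => (Prod.ext_iff.1 hpq).1)
  refine h3.congr fun p => ?_
  unfold aa oo
  simp

end Pool.Agent.N210.FV
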