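import Pool.Agent.N210.FV.Exs
import Pool.Agent.H382R2.Digamma

/-!
# The logarithmic derivatives of gamma factors and of finite Euler factors
-/

set_option autoImplicit false

namespace Pool.Agent.N210.FV

open Filter Topology Complex MeasureTheory Set

/-- elementary functions: no poles close to the left of the line `Re s = 1/2`, slow growth and
no correlation with the frequency `ω` -/
def Tame (ω : ℝ) (e : ℂ → ℂ) : Prop := ∃ η₀ : ℝ, 0 < η₀ ∧ ∀ η : ℝ, 0 < η → η < η₀ →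
  (∀ s : ℂ, 1 / 2 - 2 * η < s.re → s.re < 1 / 2 → ContinuousAt e s) ∧
  Null ω (-η) (fun t => e (((1 / 2 - η : ℝ) : ℂ) + t * I)) ∧
  ∃ C : ℝ, 0 ≤ C ∧ ∀ s : ℂ, 1 / 2 - η ≤ s.re → s.re < 1 / 2 → C ≤ |s.im| →
    ‖e s‖ ≤ C * (1 + |s.im|) ^ (1 / 2 : ℝ) / (1 / 2 - s.re)

variable {ω : ℝ} {e f : ℂ → ℂ}

theorem Tame.add (he : Tame ω e) (hf : Tame ω f) : Tame ω fun s => e s + f s := by
  obtain ⟨η₁, h1, h2⟩ := he
  obtain ⟨η₂, h3, h4⟩ := hf
  refine ⟨min η₁ η₂, lt_min h1 h3, fun η hη hη2 => ?_⟩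
  obtain ⟨a1, a2, C1, c1, a3⟩ := h2 η hη (hη2.trans_le (min_le_left _ _))
  obtain ⟨b1, b2, C2, c2, b3⟩ := h4 η hη (hη2.trans_le (min_le_right _ _))
  refine ⟨fun s hs hs2 => (a1 s hs hs2).add (b1 s hs hs2), a2.add b2, C1 + C2, by positivity, ?_⟩
  intro s hs hs2 hs3
  refine (norm_add_le _ _).trans ((add_le_add (a3 s hs hs2 (by linarith))
    (b3 s hs hs2 (by linarith))).trans_eq ?_)
  ring

theorem Tame.const_mul (he : Tame ω e) (c : ℂ) : Tame ω fun s => c * e s := by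
  obtain ⟨η₁, h1, h2⟩ := he
  refine ⟨η₁, h1, fun η hη hη2 => ?_⟩
  obtain ⟨a1, a2, C1, c1, a3⟩ := h2 η hη hη2
  refine ⟨fun s hs hs2 => (a1 s hs hs2).const_mul c, a2.const_mul c, ‖c‖ * C1 + C1, by positivity, ?_⟩
  intro s hs hs2 hs3
  have h5 := norm_nonneg c
  rw [norm_mul]
  have h4 := a3 s hs hs2 (by nlinarith)
  have h3 : 0 < 1 / 2 - s.re := by linarith
  calc ‖c‖ * ‖e s‖ ≤ ‖c‖ * (C1 * (1 + |s.im|) ^ (1 / 2 : ℝ) / (1 / 2 - s.re)) := by gcongr
    _ = ‖c‖ * C1 * (1 + |s.im|) ^ (1 / 2 : ℝ) / (1 / 2 - s.re) := by ring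
    _ ≤ (‖c‖ * C1 + C1) * (1 + |s.im|) ^ (1 / 2 : ℝ) / (1 / 2 - s.re) := by
      gcongr
      linarith

theorem one_le_rp (y : ℝ) : 1 ≤ (1 + |y|) ^ (1 / 2 : ℝ) :=
  Real.one_le_rpow (by linarith [abs_nonneg y]) (by norm_num)

theorem Tame.const (hω : ω ≠ 0) (c : ℂ) : Tame ω fun _ => c := by
  refine ⟨1 / 2, by norm_num, fun η hη hη2 => ⟨fun s _ _ => continuousAt_const, ?_, ‖c‖,
    norm_nonneg c, ?_⟩⟩
  · have h1 := (null_exp (ω := ω) (x := -η) (θ := 0) (by simpa using hω)).const_mul c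
    simpa using h1
  · intro s hs hs2 _
    have h3 : 0 < 1 / 2 - s.re := by linarith
    rw [le_div_iff₀ h3]
    have h1 := one_le_rp s.im
    have h4 := norm_nonneg c
    have h5 : ‖c‖ * (1 / 2 - s.re) ≤ ‖c‖ * 1 := by
      gcongr
      linarith
    have h6 : ‖c‖ * 1 ≤ ‖c‖ * (1 + |s.im|) ^ (1 / 2 : ℝ) := by gcongr
    linarith

theorem Tame.sum (hω : ω ≠ 0) {ι : Type*} (s : Finset ι) {f : ι → ℂ → ℂ}
    (h : ∀ i ∈ s, Tame ω (f i)) : Tame ω fun z => ∑ i ∈ s, f i z := by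
  classical
  induction s using Finset.induction_on with
  | empty => simpa using Tame.const hω 0
  | insert a s ha ih =>
    simp only [Finset.sum_insert ha]
    exact (h a (Finset.mem_insert_self _ _)).add (ih fun i hi => h i (Finset.mem_insert_of_mem hi))

theorem Tame.list {ι : Type*} (hω : ω ≠ 0) (l : List ι) {f : ι → ℂ → ℂ}
    (h : ∀ i ∈ l, Tame ω (f i)) : Tame ω fun z => (l.map fun i => f i z).sum := by
  induction l with
  | nil => simpa using Tame.const hω 0
  | cons a l ih =>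
    simp only [List.map_cons, List.sum_cons]
    exact (h a List.mem_cons_self).add (ih fun i hi => h i (List.mem_cons_of_mem _ hi))

/-! ### finite Euler factors -/

/-- the geometric function -/
noncomputable def ge (b : ℂ) (lam : ℝ) (s : ℂ) : ℂ := b * exp (-lam * s) / (1 - b * exp (-lam * s))

theorem norm_b (b : ℂ) (hb : b ≠ 0) (lam : ℝ) (hl : lam ≠ 0) (s : ℂ) :
    ‖b * exp (-lam * s)‖ = Real.exp (lam * (Real.log ‖b‖ / lam - s.re)) := by
  have h1 : 0 < ‖b‖ := norm_pos_iff.2 hb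
  rw [norm_mul, Complex.norm_exp, mul_sub, mul_div_cancel₀ _ hl, Real.exp_sub, Real.exp_log h1,
    div_eq_mul_inv, ← Real.exp_neg]
  congr 2
  rw [← ofReal_neg, re_ofReal_mul]
  ring

theorem exp_sub_one_ge (u : ℝ) : |u| * Real.exp (-|u|) ≤ |Real.exp u - 1| := by
  rcases le_total 0 u with h | h
  · rw [abs_of_nonneg h, abs_of_nonneg (by linarith [Real.one_le_exp h])]
    have h1 := Real.add_one_le_exp u
    have h2 : Real.exp (-u) ≤ 1 := Real.exp_le_one_iff.2 (by linarith)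
    nlinarith [Real.exp_pos (-u)]
  · rw [abs_of_nonpos h, neg_neg, abs_of_nonpos (by linarith [Real.exp_le_one_iff.2 h])]
    have h1 := Real.add_one_le_exp (-u)
    have h2 : Real.exp (-u) * Real.exp u = 1 := by rw [← Real.exp_add]; simp
    nlinarith [Real.exp_pos u]

theorem one_sub_ne {u : ℂ} (h : ‖u‖ ≠ 1) : 1 - u ≠ 0 := by
  intro h1
  apply h
  have : u = 1 := by linear_combination -h1
  rw [this, norm_one]

theorem ge_cont {b : ℂ} (hb : b ≠ 0) {lam : ℝ} (hl : lam ≠ 0) {s : ℂ}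
    (h : Real.log ‖b‖ / lam ≠ s.re) : ContinuousAt (ge b lam) s := by
  unfold ge
  refine ContinuousAt.div (by fun_prop) (by fun_prop) (one_sub_ne ?_)
  rw [norm_b b hb lam hl]
  intro h1
  rw [Real.exp_eq_one_iff] at h1
  rcases mul_eq_zero.1 h1 with h2 | h2
  · exact hl h2
  · exact h (by linarith)

theorem geo_null {ω x : ℝ} {c : ℂ} (hc : ‖c‖ < 1) {θ : ℝ} (r : ℕ) (h : ∀ k : ℕ, ω + (k + r) * θ ≠ 0) :
    Null ω x fun t : ℝ => ∑' k : ℕ, c ^ (k + r) * exp (t * ((k + r) * θ : ℝ) * I) := by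
  refine null_exs ?_ fun i _ => h i
  simp_rw [norm_pow]
  exact (summable_nat_add_iff (f := fun n : ℕ => ‖c‖ ^ n) r).2
    (summable_geometric_of_lt_one (norm_nonneg _) hc)

theorem ge_tame {b : ℂ} (hb : b ≠ 0) {lam : ℝ} (hl : lam ≠ 0) (hω0 : ω ≠ 0)
    (hω : ∀ n : ℤ, ω ≠ n * lam) : Tame ω (ge b lam) := by
  set x₁ : ℝ := Real.log ‖b‖ / lam with hx₁
  obtain ⟨η₀, hη₀, h0⟩ : ∃ η₀ : ℝ, 0 < η₀ ∧ ∀ η : ℝ, 0 < η → η < η₀ →
      x₁ ≤ 1 / 2 - 2 * η ∨ 1 / 2 ≤ x₁ := by
    rcases lt_or_ge x₁ (1 / 2) with h | h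
    · refine ⟨(1 / 2 - x₁) / 2, by linarith, fun η _ h2 => Or.inl (by linarith)⟩
    · exact ⟨1, one_pos, fun _ _ _ => Or.inr h⟩
  refine ⟨η₀, hη₀, fun η hη hη2 => ⟨fun s hs hs2 => ?_, ?_, ?_⟩⟩
  · refine ge_cont hb hl ?_
    rw [← hx₁]
    rcases h0 η hη hη2 with h | h
    · exact (by linarith : x₁ < s.re).ne
    · exact (by linarith : s.re < x₁).ne'
  · set σ : ℝ := 1 / 2 - η with hσ
    set c : ℂ := b * exp (-lam * σ) with hc
    have hcn : ‖c‖ = Real.exp (lam * (x₁ - σ)) := by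
      rw [hc, norm_b b hb lam hl, ofReal_re]
    have hxσ : x₁ ≠ σ := by
      rcases h0 η hη hη2 with h | h
      · exact (by linarith : x₁ < σ).ne
      · exact (by linarith : σ < x₁).ne'
    have hc0 : c ≠ 0 := mul_ne_zero hb (exp_ne_zero _)
    have hc1 : ‖c‖ ≠ 1 := by
      rw [hcn]
      intro h1
      rw [Real.exp_eq_one_iff] at h1
      rcases mul_eq_zero.1 h1 with h2 | h2
      · exact hl h2
      · exact hxσ (by linarith)
    have hu : ∀ t : ℝ, b * exp (-lam * ((σ : ℂ) + t * I)) = c * exp (t * (-lam : ℝ) * I) := by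
      intro t
      rw [hc, mul_assoc, ← exp_add]
      congr 2
      push_cast
      ring
    have hn1 : ∀ (t θ : ℝ) , ‖exp (t * θ * I)‖ = 1 := fun t θ => norm_exp_real t θ
    rcases lt_or_gt_of_ne hc1 with h1 | h1
    · have h2 := geo_null (ω := ω) (x := -η) (c := c) h1 (θ := -lam) 1 (fun k h3 =>
        hω (k + 1) (by push_cast at h3 ⊢; linarith))
      have h3 : (fun t : ℝ => ge b lam ((σ : ℂ) + t * I)) = fun t : ℝ =>
          ∑' k : ℕ, c ^ (k + 1) * exp (t * ((k + (1 : ℕ)) * -lam : ℝ) * I) := by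
        funext t
        unfold ge
        rw [hu]
        have h4 : ‖c * exp (t * (-lam : ℝ) * I)‖ < 1 := by rw [norm_mul, hn1, mul_one]; exact h1
        rw [div_eq_mul_inv, ← tsum_geometric_of_norm_lt_one h4, ← tsum_mul_left]
        refine tsum_congr fun k => ?_
        rw [← pow_succ', mul_pow, ← exp_nat_mul]
        congr 2
        push_cast
        ring
      rw [h3]
      exact h2
    · have h1' : ‖c⁻¹‖ < 1 := by
        rw [norm_inv]
        exact inv_lt_one_of_one_lt₀ h1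
      have h2 := (geo_null (ω := ω) (x := -η) (c := c⁻¹) h1' (θ := lam) 0 (fun k h3 =>
        hω (-(k : ℤ)) (by push_cast at h3 ⊢; linarith))).const_mul (-1)
      have h3 : (fun t : ℝ => ge b lam ((σ : ℂ) + t * I)) = fun t : ℝ =>
          -1 * ∑' k : ℕ, c⁻¹ ^ (k + 0) * exp (t * ((k + (0 : ℕ)) * lam : ℝ) * I) := by
        funext t
        unfold ge
        rw [hu]
        set v : ℂ := exp (t * (-lam : ℝ) * I) with hv
        have hv0 : v ≠ 0 := exp_ne_zero _
        have hvn : ‖v‖ = 1 := hn1 _ _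
        have hcv : ‖c⁻¹ * v⁻¹‖ < 1 := by rw [norm_mul, norm_inv v, hvn, inv_one, mul_one]; exact h1'
        have h5 : 1 - c * v ≠ 0 := one_sub_ne (by rw [norm_mul, hvn, mul_one]; exact hc1)
        have h6 : 1 - c⁻¹ * v⁻¹ ≠ 0 := one_sub_ne hcv.ne
        have h4 : c * v / (1 - c * v) = -1 * (1 - c⁻¹ * v⁻¹)⁻¹ := by
          have h7 : 1 - c⁻¹ * v⁻¹ = -(1 - c * v) / (c * v) := by
            field_simp
            ring
          rw [h7, inv_div, div_neg]
          ring
        rw [h4, ← tsum_geometric_of_norm_lt_one hcv]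
        congr 1
        refine tsum_congr fun k => ?_
        rw [mul_pow, add_zero, hv, ← exp_neg, ← exp_nat_mul]
        congr 2
        push_cast
        ring
      rw [h3]
      exact h2
  · set K : ℝ := Real.exp (|lam| * (|x₁| + η + 1)) / |lam| with hK
    have hl0 : 0 < |lam| := abs_pos.2 hl
    refine ⟨K, by positivity, fun s hs hs2 _ => ?_⟩
    have h3 : 0 < 1 / 2 - s.re := by linarith
    have h4 : 1 / 2 - s.re ≤ |s.re - x₁| := by
      rcases h0 η hη hη2 with h | h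
      · rw [abs_of_nonneg (by linarith)]
        linarith
      · rw [abs_of_nonpos (by linarith)]
        linarith
    have h5 : 0 < |s.re - x₁| := by linarith
    set u : ℝ := lam * (s.re - x₁) with hu
    have hu1 : |u| = |lam| * |s.re - x₁| := abs_mul _ _
    have hu2 : |u| ≤ |lam| * (|x₁| + η + 1) := by
      rw [hu1]
      gcongr
      have := abs_sub s.re x₁
      have h6 : |s.re| ≤ 1 / 2 + η := abs_le.2 ⟨by linarith, by linarith⟩
      linarith
    have hnb : ‖b * exp (-lam * s)‖ = Real.exp (-u) := by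
      rw [norm_b b hb lam hl]
      congr 1
      rw [hu]
      ring
    have h6 : ‖ge b lam s‖ ≤ 1 / |Real.exp u - 1| := by
      unfold ge
      rw [norm_div, hnb]
      have h7 : |1 - Real.exp (-u)| ≤ ‖1 - b * exp (-lam * s)‖ := by
        have := abs_norm_sub_norm_le (1 : ℂ) (b * exp (-lam * s))
        rwa [norm_one, hnb] at this
      have h8 : 0 < |Real.exp u - 1| := by
        refine lt_of_lt_of_le ?_ (exp_sub_one_ge u)
        rw [hu1]
        positivity
      have h9 : Real.exp (-u) * |Real.exp u - 1| = |1 - Real.exp (-u)| := by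
        rw [← abs_of_pos (Real.exp_pos (-u)), ← abs_mul, mul_sub, ← Real.exp_add]
        simp
      have h10 : 0 < |1 - Real.exp (-u)| := by
        rw [← h9]
        positivity
      calc Real.exp (-u) / ‖1 - b * exp (-lam * s)‖ ≤ Real.exp (-u) / |1 - Real.exp (-u)| := by
            gcongr
        _ = 1 / |Real.exp u - 1| := by
            rw [← h9]
            field_simp
    refine h6.trans ?_
    have h7 := exp_sub_one_ge u
    have h8 : 0 < |u| * Real.exp (-|u|) := by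
      rw [hu1]
      positivity
    have h9 := one_le_rp s.im
    calc 1 / |Real.exp u - 1| ≤ 1 / (|u| * Real.exp (-|u|)) := by gcongr
      _ = Real.exp |u| / (|lam| * |s.re - x₁|) := by
        rw [Real.exp_neg, hu1]
        field_simp
      _ ≤ Real.exp (|lam| * (|x₁| + η + 1)) / (|lam| * (1 / 2 - s.re)) := by
        gcongr
      _ = K / (1 / 2 - s.re) := by
        rw [hK]
        field_simp
      _ ≤ K * (1 + |s.im|) ^ (1 / 2 : ℝ) / (1 / 2 - s.re) := by
        gcongr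
        exact le_mul_of_one_le_right (by positivity) h9

end Pool.Agent.N210.FV
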