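import Pool.Agent.N210.FV.Main

/-!
# The theorem: at least five values
-/

set_option autoImplicit false

namespace Pool.Agent.N210.FV

open Filter Topology Complex Set

theorem root_bd {u z : ℂ} (h : u + u⁻¹ = z) : ‖u‖ ≤ 1 + ‖z‖ := by
  rcases le_total ‖u‖ 1 with h1 | h1
  · linarith [norm_nonneg z]
  · have h2 : u = z - u⁻¹ := by rw [← h]; ring
    have h3 : ‖u⁻¹‖ ≤ 1 := by
      rw [norm_inv]
      exact inv_le_one_of_one_le₀ h1
    calc ‖u‖ = ‖z - u⁻¹‖ := by rw [← h2]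
      _ ≤ ‖z‖ + ‖u⁻¹‖ := norm_sub_le _ _
      _ ≤ 1 + ‖z‖ := by linarith

open Polynomial in
/-- the monic polynomial with roots `W` -/
theorem exists_poly (W : Finset ℝ) (hW : W.card ≤ 4) :
    ∃ a : Fin 5 → ℝ, ∀ z : ℂ, PP a z = ∏ w ∈ W, (z - w) := by
  set P : ℝ[X] := ∏ w ∈ W, (Polynomial.X - Polynomial.C w) with hP
  have hdeg : P.natDegree < 5 := by
    have h1 : P.natDegree ≤ ∑ w ∈ W, (Polynomial.X - Polynomial.C w).natDegree :=
      Polynomial.natDegree_prod_le _ _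
    have h2 : ∑ w ∈ W, (Polynomial.X - Polynomial.C w).natDegree = W.card := by
      simp [Polynomial.natDegree_X_sub_C]
    omega
  refine ⟨fun i => P.coeff i, fun z => ?_⟩
  have h1 : P.eval₂ ofRealHom z = ∏ w ∈ W, (z - w) := by
    rw [hP, Polynomial.eval₂_finsetProd]
    refine Finset.prod_congr rfl fun w _ => ?_
    rw [Polynomial.eval₂_sub, Polynomial.eval₂_X, Polynomial.eval₂_C]
    rfl
  rw [← h1, Polynomial.eval₂_eq_sum_range' _ hdeg]
  simp [Finset.sum_range_succ, PP]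

theorem six_a {v : ℂ} (hv : v ^ 6 = 1) :
    ∑ i : Fin 4, ((![0, 1, 1, 0] : Fin 4 → ℝ) i : ℂ) * XX (i + 1) v = if v = 1 then 12 else 0 := by
  have hv0 : v ≠ 0 := by
    rintro rfl
    norm_num at hv
  rw [Fin.sum_univ_four]
  simp only [Matrix.cons_val_zero, Matrix.cons_val_one, Matrix.cons_val]
  have e1 : XX ((1 : Fin 4) + 1) v = XX 2 v := rfl
  have e2 : XX ((2 : Fin 4) + 1) v = XX 3 v := rfl
  rw [e1, e2, XX2', XX3']
  split_ifs with h
  · rw [h]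
    norm_num
  · have h3 : (v - 1) * (v ^ 5 + v ^ 4 + v ^ 3 + v ^ 2 + v + 1) = 0 := by linear_combination hv
    have h4 : v ^ 5 + v ^ 4 + v ^ 3 + v ^ 2 + v + 1 = 0 :=
      (mul_eq_zero.1 h3).resolve_left (sub_ne_zero.2 h)
    push_cast
    field_simp
    linear_combination 2 * h4 + hv

theorem six_b {v : ℂ} (hv : v ^ 6 = 1) :
    ∑ i : Fin 4, ((![1, -1, -1, 1] : Fin 4 → ℝ) i : ℂ) * XX (i + 1) v = 0 := by
  have hv0 : v ≠ 0 := by
    rintro rfl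
    norm_num at hv
  rw [Fin.sum_univ_four]
  simp only [Matrix.cons_val_zero, Matrix.cons_val_one, Matrix.cons_val]
  have e0 : XX ((0 : Fin 4) + 1) v = XX 1 v := rfl
  have e1 : XX ((1 : Fin 4) + 1) v = XX 2 v := rfl
  have e2 : XX ((2 : Fin 4) + 1) v = XX 3 v := rfl
  have e3 : XX ((3 : Fin 4) + 1) v = XX 4 v := rfl
  rw [e0, e1, e2, e3, XX1', XX2', XX3', XX4']
  push_cast
  field_simp
  linear_combination (v ^ 2 - 1) * hv

theorem seven_a {v : ℂ} (hv : v ^ 7 = 1) :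
    ∑ i : Fin 4, ((![0, 0, 1, 0] : Fin 4 → ℝ) i : ℂ) * XX (i + 1) v = if v = 1 then 7 else 0 := by
  have hv0 : v ≠ 0 := by
    rintro rfl
    norm_num at hv
  rw [Fin.sum_univ_four]
  simp only [Matrix.cons_val_zero, Matrix.cons_val_one, Matrix.cons_val]
  have e2 : XX ((2 : Fin 4) + 1) v = XX 3 v := rfl
  rw [e2, XX3']
  split_ifs with h
  · rw [h]
    norm_num
  · have h3 : (v - 1) * (v ^ 6 + v ^ 5 + v ^ 4 + v ^ 3 + v ^ 2 + v + 1) = 0 := by
      linear_combination hv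
    have h4 : v ^ 6 + v ^ 5 + v ^ 4 + v ^ 3 + v ^ 2 + v + 1 = 0 :=
      (mul_eq_zero.1 h3).resolve_left (sub_ne_zero.2 h)
    push_cast
    field_simp
    linear_combination h4

theorem seven_b {v : ℂ} (hv : v ^ 7 = 1) :
    ∑ i : Fin 4, ((![0, 1, -2, 1] : Fin 4 → ℝ) i : ℂ) * XX (i + 1) v = 0 := by
  have hv0 : v ≠ 0 := by
    rintro rfl
    norm_num at hv
  rw [Fin.sum_univ_four]
  simp only [Matrix.cons_val_zero, Matrix.cons_val_one, Matrix.cons_val]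
  have e1 : XX ((1 : Fin 4) + 1) v = XX 2 v := rfl
  have e2 : XX ((2 : Fin 4) + 1) v = XX 3 v := rfl
  have e3 : XX ((3 : Fin 4) + 1) v = XX 4 v := rfl
  rw [e1, e2, e3, XX2', XX3', XX4']
  push_cast
  field_simp
  linear_combination (v - 1) * hv

variable {S : Finset ℕ} {t : ℕ → ℂ} {M ρ : ℝ}

/-- the Landau step -/
theorem landau_case {N D : Fin 4 → ℂ → ℂ}
    (h : ∀ i : Fin 4, LF S (ps (Ij (i + 1)) (be t)) (N i) (D i))
    (hb : ∀ i : Fin 4, Bnd S (ps (Ij (i + 1)) (be t)) M ρ) {n : ℕ} (hn : n ≠ 0)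
    (ht : ∀ p : PS S, t p ^ n = 1) {c c' : Fin 4 → ℝ} {m : ℝ} (hm : 0 < m)
    (ha : ∀ v : ℂ, v ^ n = 1 → ∑ i : Fin 4, (c i : ℂ) * XX (i + 1) v = if v = 1 then (m : ℂ) else 0)
    (hb' : ∀ v : ℂ, v ^ n = 1 → ∑ i : Fin 4, (c' i : ℂ) * XX (i + 1) v = 0) :
    ∃ β : ℝ, 0 < β ∧ β < 1 ∧
      ∑ i, c i * ((mo (N i) β : ℝ) - mo (D i) β) < 0 ∧
      ∑ i, c' i * ((mo (N i) β : ℝ) - mo (D i) β) = 0 := by
  classical
  obtain ⟨n, rfl⟩ := Nat.exists_eq_succ_of_ne_zero hn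
  have hpow : ∀ (p : PS S) (k : ℕ), (t p ^ k) ^ (n + 1) = 1 := by
    intro p k
    rw [← pow_mul, mul_comm, pow_mul, ht p, one_pow]
  obtain ⟨β, hβ0, hβ1, hβ⟩ := landau_pole (w := ww c) (g := gg N D) (K := n) (c₀ := m)
    (r := fun p k => if t p ^ k = 1 then m else 0)
    (fun i => (gg_ent h i).diff) (fun i => (gg_ent h i).ne) (GG_bnd (c := c) hb)
    (fun s hs => A0_Ds h hb hs) (fun p k => by
      rw [GG_XX, ha _ (hpow p (k + 1))]
      split_ifs <;> simp) (fun p k => by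
      split_ifs
      · exact hm.le
      · exact le_rfl) hm (fun p => by
      rw [if_pos (ht p)]) (mm_one h)
  refine ⟨β, hβ0, hβ1, ?_, ?_⟩
  · rw [← mm_gg]
    exact hβ
  · rw [← mm_gg]
    exact mm_zero h hb (c := c') (fun p k => by
      rw [GG_XX]
      exact hb' _ (hpow p (k + 1))) β

theorem main {S : Finset ℕ} {t : ℕ → ℂ} {y : ℕ → ℝ} {N D : ℕ → ℂ → ℂ}
    (ht0 : ∀ p : ℕ, p.Prime → p ∉ S → t p ≠ 0)
    (hy : ∀ p : ℕ, p.Prime → p ∉ S → t p + (t p)⁻¹ + 2 = y p)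
    (hJS : ∀ p : ℕ, p.Prime → p ∉ S → ∀ m ∈ Finset.Icc (-4 : ℤ) 4, ‖t p ^ m‖ < p)
    (hL : ∀ j ∈ Finset.Icc 1 4, AdjL S t j (N j) (D j))
    (hRS : ∀ x : ℝ, 0 < x → x < 1 → ∃ c, Tendsto (fun s => riemannZeta s *
      ∏ j ∈ Finset.Icc 1 4, (N j s / D j s)) (𝓝[≠] (x : ℂ)) (𝓝 c))
    (hSym : ∀ x : ℝ, 0 < x → x < 1 → ∃ c, Tendsto (fun s => riemannZeta s *
      (N 2 s / D 2 s * (N 4 s / D 4 s))) (𝓝[≠] (x : ℂ)) (𝓝 c))
    (V : Finset ℝ) (hV : V.card ≤ 4) : {p : ℕ | p.Prime ∧ p ∉ S ∧ y p ∉ V}.Infinite := by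
  classical
  by_contra hcon
  rw [Set.not_infinite] at hcon
  set r₀ : ℝ := 1 + ∑ v ∈ V, |v - 2| with hr₀
  have hs0 : 0 ≤ ∑ v ∈ V, |v - 2| := Finset.sum_nonneg fun v _ => abs_nonneg _
  have hr1 : 1 ≤ r₀ := by linarith
  obtain ⟨B, hB⟩ := exists_nat_ge (4 * (r₀ ^ 4) ^ 2)
  set S' : Finset ℕ := S ∪ hcon.toFinset ∪ Finset.range B with hS'
  have hSS : S ⊆ S' := fun p hp => Finset.mem_union_left _ (Finset.mem_union_left _ hp)
  have hnS : ∀ p : PS S', (p : ℕ) ∉ S := fun p hp => p.2.2 (hSS hp)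
  have hyV : ∀ p : PS S', y p ∈ V := by
    intro p
    by_contra h1
    apply p.2.2
    refine Finset.mem_union_left _ (Finset.mem_union_right _ ?_)
    rw [Set.Finite.mem_toFinset]
    exact ⟨p.2.1, hnS p, h1⟩
  have hpB : ∀ p : PS S', B ≤ (p : ℕ) := by
    intro p
    by_contra h1
    push Not at h1
    exact p.2.2 (Finset.mem_union_right _ (Finset.mem_range.2 h1))
  have ht0' : ∀ p : PS S', t p ≠ 0 := fun p => ht0 p p.2.1 (hnS p)
  have hzz : ∀ p : PS S', zz (t p) = ((y p - 2 : ℝ) : ℂ) := by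
    intro p
    have h1 := hy p p.2.1 (hnS p)
    unfold zz
    push_cast
    linear_combination h1
  have hzn : ∀ p : PS S', 1 + ‖zz (t p)‖ ≤ r₀ := by
    intro p
    rw [hzz, Complex.norm_real, Real.norm_eq_abs, hr₀]
    have h1 : |y p - 2| ≤ ∑ v ∈ V, |v - 2| :=
      Finset.single_le_sum (f := fun v => |v - 2|) (fun v _ => abs_nonneg _) (hyV p)
    linarith
  have ht1 : ∀ p : PS S', ‖t p‖ ≤ r₀ := fun p =>
    (root_bd (z := zz (t p)) rfl).trans (hzn p)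
  have ht2 : ∀ p : PS S', ‖(t p)⁻¹‖ ≤ r₀ := fun p =>
    (root_bd (u := (t p)⁻¹) (z := zz (t p)) (by
      rw [inv_inv]
      unfold zz
      ring)).trans (hzn p)
  have hl : ∀ p : PS S', 4 * (r₀ ^ 4) ^ 2 ≤ (p : ℕ) := fun p =>
    hB.trans (by exact_mod_cast hpB p)
  have hb : ∀ i : Fin 4, Bnd S' (ps (Ij (i + 1)) (be t)) 9 (r₀ ^ 4) := fun i =>
    be_bnd hr1 ht0' ht1 ht2 hl (by omega)
  have hj : ∀ i : Fin 4, (i : ℕ) + 1 ∈ Finset.Icc 1 4 := by
    intro i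
    rw [Finset.mem_Icc]
    omega
  set E : ℕ → ℂ → ℂ := fun j => ef (lst (Ij j) (be t) S S') with hE
  have hEc : ∀ j, Continuous (E j) := fun j =>
    (ef_ent fun x hx => (lst_mem hx).1.one_lt).diff.continuous
  have hLF : ∀ i : Fin 4, LF S' (ps (Ij (i + 1)) (be t)) (fun s => N (i + 1) s * E (i + 1) s)
      (D (i + 1)) := by
    intro i
    refine (hL _ (hj i)).toLF hSS (hb i) (fun p m hm => ?_) (fun p hp hpS m hm => ?_)
    · rw [Finset.mem_Icc] at hm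
      exact be_le hr1 (ht0' p) (ht1 p) (ht2 p) (abs_le.2 ⟨by omega, by omega⟩)
    · rw [Finset.mem_Icc] at hm
      exact hJS p hp hpS m (Finset.mem_Icc.2 ⟨by omega, by omega⟩)
  -- closure under powers
  set W : Finset ℝ := V.image fun v => v - 2 with hW
  have hWc : W.card ≤ 4 := Finset.card_image_le.trans hV
  obtain ⟨a, ha⟩ := exists_poly W hWc
  have hcl : ∀ p : PS S', Cl W (t p) := by
    intro p
    refine ⟨ht0' p, fun k hk => ?_⟩
    have h1 := (closure hLF hb ht0' a fun q => by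
      rw [ha]
      refine Finset.prod_eq_zero (i := y q - 2) ?_ ?_
      · rw [hW]
        exact Finset.mem_image_of_mem _ (hyV q)
      · rw [hzz, sub_self]).2 p k hk
    rw [ha, Finset.prod_eq_zero_iff] at h1
    obtain ⟨w, hw, h2⟩ := h1
    exact ⟨w, hw, sub_eq_zero.1 h2⟩
  -- the orders of the combined L-functions on the real axis
  have hfour : Finset.Icc 1 4 = ({1, 2, 3, 4} : Finset ℕ) := by decide
  have hN : ∀ i : Fin 4, Ent (fun s => N (i + 1) s * E (i + 1) s) := fun i => (hLF i).entN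
  have hD : ∀ i : Fin 4, Ent (D (i + 1)) := fun i => (hLF i).entD
  have n1 : Ent (fun s => N 1 s * E 1 s) := hN 0
  have n2 : Ent (fun s => N 2 s * E 2 s) := hN 1
  have n3 : Ent (fun s => N 3 s * E 3 s) := hN 2
  have n4 : Ent (fun s => N 4 s * E 4 s) := hN 3
  have d1 : Ent (D 1) := hD 0
  have d2 : Ent (D 2) := hD 1
  have d3 : Ent (D 3) := hD 2
  have d4 : Ent (D 4) := hD 3
  rcases dicho hWc (fun p : PS S' => t p) hcl with h6 | h7 | ⟨a, ha1, ha2⟩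
  · obtain ⟨β, hβ0, hβ1, hβ2, hβ3⟩ := landau_case hLF hb (n := 6) (by norm_num) h6
      (c := ![0, 1, 1, 0]) (c' := ![1, -1, -1, 1]) (m := 12) (by norm_num)
      (fun v hv => by rw [six_a hv]; norm_num) (fun v hv => six_b hv)
    obtain ⟨c, hc⟩ := hRS β hβ0 hβ1
    have h1 := ord_nonneg (n := fun s => N 1 s * (N 2 s * (N 3 s * N 4 s)))
      (d := fun s => D 1 s * (D 2 s * (D 3 s * D 4 s))) (e := fun s => E 1 s * E 2 s * E 3 s * E 4 s)
      hβ0 hβ1 (n1.mul (n2.mul (n3.mul n4))) (d1.mul (d2.mul (d3.mul d4)))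
      (((hEc 1).mul (hEc 2)).mul (hEc 3) |>.mul (hEc 4)) (hc.congr fun s => by
        rw [hfour]
        simp
        try ring) (fun s => by ring)
    rw [mo_mul n1.diff n1.ne (n2.mul (n3.mul n4)).diff (n2.mul (n3.mul n4)).ne,
      mo_mul n2.diff n2.ne (n3.mul n4).diff (n3.mul n4).ne, mo_mul n3.diff n3.ne n4.diff n4.ne,
      mo_mul d1.diff d1.ne (d2.mul (d3.mul d4)).diff (d2.mul (d3.mul d4)).ne,
      mo_mul d2.diff d2.ne (d3.mul d4).diff (d3.mul d4).ne, mo_mul d3.diff d3.ne d4.diff d4.ne] at h1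
    rw [Fin.sum_univ_four] at hβ2 hβ3
    simp only [Matrix.cons_val_zero, Matrix.cons_val_one, Matrix.cons_val] at hβ2 hβ3
    have h2 : ((mo (D 1) β + (mo (D 2) β + (mo (D 3) β + mo (D 4) β)) : ℕ) : ℝ) ≤
        ((mo (fun s => N 1 s * E 1 s) β + (mo (fun s => N 2 s * E 2 s) β +
          (mo (fun s => N 3 s * E 3 s) β + mo (fun s => N 4 s * E 4 s) β)) : ℕ) : ℝ) := by
      exact_mod_cast h1
    push_cast at h2
    have h3 : (0 : ℝ) * ((mo (fun s => N 1 s * E 1 s) β : ℝ) - mo (D 1) β) +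
        1 * ((mo (fun s => N 2 s * E 2 s) β : ℝ) - mo (D 2) β) +
        1 * ((mo (fun s => N 3 s * E 3 s) β : ℝ) - mo (D 3) β) +
        0 * ((mo (fun s => N 4 s * E 4 s) β : ℝ) - mo (D 4) β) < 0 := hβ2
    have h4 : (1 : ℝ) * ((mo (fun s => N 1 s * E 1 s) β : ℝ) - mo (D 1) β) +
        -1 * ((mo (fun s => N 2 s * E 2 s) β : ℝ) - mo (D 2) β) +
        -1 * ((mo (fun s => N 3 s * E 3 s) β : ℝ) - mo (D 3) β) +
        1 * ((mo (fun s => N 4 s * E 4 s) β : ℝ) - mo (D 4) β) = 0 := hβ3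
    linarith
  · obtain ⟨β, hβ0, hβ1, hβ2, hβ3⟩ := landau_case hLF hb (n := 7) (by norm_num) h7
      (c := ![0, 0, 1, 0]) (c' := ![0, 1, -2, 1]) (m := 7) (by norm_num)
      (fun v hv => by rw [seven_a hv]; norm_num) (fun v hv => seven_b hv)
    obtain ⟨c, hc⟩ := hSym β hβ0 hβ1
    have h1 := ord_nonneg (n := fun s => N 2 s * N 4 s)
      (d := fun s => D 2 s * D 4 s) (e := fun s => E 2 s * E 4 s)
      hβ0 hβ1 (n2.mul n4) (d2.mul d4) ((hEc 2).mul (hEc 4)) (hc.congr fun s => by ring)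
      (fun s => by ring)
    rw [mo_mul n2.diff n2.ne n4.diff n4.ne, mo_mul d2.diff d2.ne d4.diff d4.ne] at h1
    rw [Fin.sum_univ_four] at hβ2 hβ3
    simp only [Matrix.cons_val_zero, Matrix.cons_val_one, Matrix.cons_val] at hβ2 hβ3
    have h2 : ((mo (D 2) β + mo (D 4) β : ℕ) : ℝ) ≤
        ((mo (fun s => N 2 s * E 2 s) β + mo (fun s => N 4 s * E 4 s) β : ℕ) : ℝ) := by
      exact_mod_cast h1
    push_cast at h2
    have h3 : (0 : ℝ) * ((mo (fun s => N 1 s * E 1 s) β : ℝ) - mo (D 1) β) +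
        0 * ((mo (fun s => N 2 s * E 2 s) β : ℝ) - mo (D 2) β) +
        1 * ((mo (fun s => N 3 s * E 3 s) β : ℝ) - mo (D 3) β) +
        0 * ((mo (fun s => N 4 s * E 4 s) β : ℝ) - mo (D 4) β) < 0 := hβ2
    have h4 : (0 : ℝ) * ((mo (fun s => N 1 s * E 1 s) β : ℝ) - mo (D 1) β) +
        1 * ((mo (fun s => N 2 s * E 2 s) β : ℝ) - mo (D 2) β) +
        -2 * ((mo (fun s => N 3 s * E 3 s) β : ℝ) - mo (D 3) β) +
        1 * ((mo (fun s => N 4 s * E 4 s) β : ℝ) - mo (D 4) β) = 0 := hβ3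
    linarith
  · exact ha1 (closure hLF hb ht0' a ha2).1

end Pool.Agent.N210.FV
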