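import Mathlib
import Pool.Agent.H437R2.A1

/-!
# The Dirichlet series of the von Mangoldt function near the line `Re s = 1`
-/

set_option autoImplicit false

namespace Pool.Agent.N210.FV

open Filter Topology Complex
open scoped ArithmeticFunction.vonMangoldt

/-- the Dirichlet series of the von Mangoldt function -/
noncomputable def VL (s : ℂ) : ℂ := LSeries (fun n => (Λ n : ℂ)) s

theorem z1_ne {s : ℂ} (hs : 1 ≤ s.re) : riemannZeta₁ s ≠ 0 := fun h => by
  have := Pool.Agent.H437R2.z1_zero_re h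
  linarith

theorem VL_eq {s : ℂ} (hs : 1 < s.re) : VL s = (s - 1)⁻¹ - logDeriv riemannZeta₁ s := by
  unfold VL
  rw [ArithmeticFunction.LSeries_vonMangoldt_eq_deriv_riemannZeta_div hs]
  have hs1 : s ≠ 1 := by
    rintro rfl
    simp at hs
  have h1 : riemannZeta =ᶠ[𝓝 s] fun u => (u - 1)⁻¹ * riemannZeta₁ u := by
    filter_upwards [isOpen_ne.mem_nhds hs1] with u hu
    exact riemannZeta_eq_inv_sub_mul hu
  have h2 : deriv riemannZeta s / riemannZeta s = logDeriv riemannZeta s := rfl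
  rw [neg_div, h2]
  have h3 : logDeriv riemannZeta s = logDeriv (fun u => (u - 1)⁻¹ * riemannZeta₁ u) s := by
    rw [logDeriv_apply, logDeriv_apply, h1.deriv_eq, h1.eq_of_nhds]
  have hne : s - 1 ≠ 0 := sub_ne_zero.2 hs1
  rw [h3, logDeriv_mul (f := fun u : ℂ => (u - 1)⁻¹) (g := riemannZeta₁) s (inv_ne_zero hne)
    (z1_ne hs.le) ((differentiableAt_id.sub_const 1).inv hne) (differentiable_riemannZeta₁ s)]
  have h4 : logDeriv (fun u : ℂ => (u - 1)⁻¹) s = -(s - 1)⁻¹ := by
    rw [logDeriv_apply]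
    have h5 : HasDerivAt (fun u : ℂ => (u - 1)⁻¹) (-1 / (s - 1) ^ 2) s :=
      ((hasDerivAt_id s).sub_const 1).fun_inv hne
    rw [h5.deriv]
    field_simp
  rw [h4]
  ring

theorem VL_lim (u : ℝ) : Tendsto (fun δ : ℝ => (δ : ℂ) * VL (1 + 2 * δ + u * I)) (𝓝[>] 0)
    (𝓝 (if u = 0 then 1 / 2 else 0)) := by
  have hne : riemannZeta₁ (1 + u * I) ≠ 0 := z1_ne (by simp)
  have hc : ContinuousAt (logDeriv riemannZeta₁) (1 + u * I) := by
    have h1 : AnalyticAt ℂ riemannZeta₁ (1 + u * I) := differentiable_riemannZeta₁.analyticAt _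
    exact (h1.deriv.div h1 hne).continuousAt
  have h1 : Tendsto (fun δ : ℝ => (1 + 2 * δ + u * I : ℂ)) (𝓝[>] 0) (𝓝 (1 + u * I)) := by
    have h2 : Continuous fun δ : ℝ => (1 + 2 * δ + u * I : ℂ) := by fun_prop
    have h3 := h2.tendsto 0
    simp only [ofReal_zero, mul_zero, add_zero] at h3
    exact h3.mono_left nhdsWithin_le_nhds
  have h2 : Tendsto (fun δ : ℝ => (δ : ℂ)) (𝓝[>] 0) (𝓝 0) := by
    have := (continuous_ofReal.tendsto (0 : ℝ))
    rw [ofReal_zero] at this
    exact this.mono_left nhdsWithin_le_nhds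
  have h3 := h2.mul (hc.tendsto.comp h1)
  rw [zero_mul] at h3
  have h4 : Tendsto (fun δ : ℝ => (δ : ℂ) * (2 * δ + u * I)⁻¹) (𝓝[>] 0)
      (𝓝 (if u = 0 then 1 / 2 else 0)) := by
    by_cases hu : u = 0
    · rw [if_pos hu, hu]
      refine tendsto_const_nhds.congr' ?_
      filter_upwards [self_mem_nhdsWithin] with δ hδ
      have hδ : (0 : ℝ) < δ := hδ
      have : (δ : ℂ) ≠ 0 := by exact_mod_cast hδ.ne'
      rw [ofReal_zero, zero_mul, add_zero]
      field_simp
    · rw [if_neg hu]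
      have h5 : ContinuousAt (fun z : ℂ => z * (2 * z + u * I)⁻¹) 0 := by
        have : (2 * (0 : ℂ) + u * I) ≠ 0 := by
          simp [hu]
        exact continuousAt_id.mul (ContinuousAt.inv₀ (by fun_prop) this)
      have h6 := h5.tendsto
      rw [zero_mul] at h6
      exact h6.comp h2
  have h5 := h4.sub h3
  rw [sub_zero] at h5
  refine h5.congr' ?_
  filter_upwards [self_mem_nhdsWithin] with δ hδ
  have hδ : (0 : ℝ) < δ := hδ
  rw [VL_eq (by simp; linarith)]
  simp only [Function.comp_apply]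
  rw [mul_sub]
  congr 3
  ring

/-- the real series -/
theorem summ_real {x : ℝ} (hx : 1 < x) : Summable fun n : ℕ => Λ n * (n : ℝ) ^ (-x) := by
  have h1 := ArithmeticFunction.LSeriesSummable_vonMangoldt (s := x) (by simpa using hx)
  have h2 := h1.norm
  refine h2.congr fun n => ?_
  rw [LSeries.norm_term_eq]
  split_ifs with h
  · simp [h]
  · rw [Complex.norm_real, Real.norm_of_nonneg ArithmeticFunction.vonMangoldt_nonneg, ofReal_re,
      Real.rpow_neg (Nat.cast_nonneg n), div_eq_mul_inv]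

theorem VL_real {x : ℝ} : VL x = ((∑' n : ℕ, Λ n * (n : ℝ) ^ (-x) : ℝ) : ℂ) := by
  unfold VL LSeries
  rw [Complex.ofReal_tsum]
  refine tsum_congr fun n => ?_
  rw [LSeries.term_def]
  split_ifs with h
  · simp [h]
  · push_cast
    rw [ofReal_cpow (Nat.cast_nonneg n), div_eq_mul_inv, ← cpow_neg]
    push_cast
    rfl

theorem V_bound : ∃ C : ℝ, 0 ≤ C ∧ ∀ x : ℝ, 1 < x → x ≤ 3 →
    ∑' n : ℕ, Λ n * (n : ℝ) ^ (-x) ≤ C / (x - 1) := by
  have hc : ContinuousOn (fun x : ℝ => ‖logDeriv riemannZeta₁ x‖) (Set.Icc 1 3) := by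
    intro x hx
    have h1 : AnalyticAt ℂ riemannZeta₁ x := differentiable_riemannZeta₁.analyticAt _
    have h2 : riemannZeta₁ x ≠ 0 := z1_ne (by simpa using hx.1)
    have h3 : ContinuousAt (logDeriv riemannZeta₁) x := (h1.deriv.div h1 h2).continuousAt
    exact (h3.norm.comp continuous_ofReal.continuousAt).continuousWithinAt
  obtain ⟨K, hK⟩ := isCompact_Icc.exists_bound_of_continuousOn hc
  have hK0 : 0 ≤ K := (norm_nonneg _).trans (hK 1 (by norm_num))
  refine ⟨1 + 2 * K, by positivity, fun x hx hx3 => ?_⟩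
  have h1 : (∑' n : ℕ, Λ n * (n : ℝ) ^ (-x)) = ‖VL x‖ := by
    rw [VL_real, Complex.norm_real, Real.norm_of_nonneg]
    exact tsum_nonneg fun n => mul_nonneg ArithmeticFunction.vonMangoldt_nonneg
      (Real.rpow_nonneg (Nat.cast_nonneg n) _)
  have h0 : 0 < x - 1 := by linarith
  rw [h1, VL_eq (by simpa using hx)]
  have h2 := hK x ⟨hx.le, hx3⟩
  rw [norm_norm] at h2
  have h3 : ‖((x : ℂ) - 1)⁻¹‖ = 1 / (x - 1) := by
    have : (x : ℂ) - 1 = ((x - 1 : ℝ) : ℂ) := by push_cast; rfl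
    rw [this, norm_inv, Complex.norm_real, Real.norm_of_nonneg h0.le, one_div]
  refine (norm_sub_le _ _).trans ?_
  rw [h3, add_div]
  have h4 : K ≤ 2 * K / (x - 1) := by
    rw [le_div_iff₀ h0]
    nlinarith
  linarith

end Pool.Agent.N210.FV
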